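import Pool.Agent.SPR.Defs
import Pool.Agent.SPK.AffB

/-!
# [SPR-AffR] automorphisms of the lattice: the invariant

As SPK/AffB: `tr_side`: `u ↦ u'` (`pull`), `y ↦ tr φ a y`, `e ↦ φ e`, `g ↦ φ g`; `tr φ a (y + e) = tr φ a y + φ e`. `tr_okR`, `tr_gpR`, `tr_gpR'` as `tr_ok`, `tr_gp`, `tr_gp'`.
-/

open Finset Pool.Agent.SPB Pool.Agent.SPK

set_option autoImplicit false

namespace Pool.Agent.SPR

private theorem affr_pp {φ : W ≃+ W} {a : W} {D : Finset W} {w : W → ℝ} {e : W} (h : PP D w e) :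
    PP (trA φ a D) (w ∘ rt φ a) (φ e) := by
  obtain ⟨α, β, hαβ, hP⟩ := h
  refine ⟨α, β, hαβ, ?_⟩
  intro L hL1 hL2
  obtain ⟨L', hL'0⟩ := pullR φ.symm L
  have hL' : ∀ x, lin L (φ x) = lin L' x := by
    intro x
    have := hL'0 (φ x)
    rw [AddEquiv.symm_apply_apply] at this
    exact this.symm
  have hsub : ∀ (L : Fin 3 → ℝ) (x y : W), lin L (x - y) = lin L x - lin L y := by
    intro L x y
    have := lin_add L (x - y) y
    rw [sub_add_cancel] at this
    linarith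
  rw [hL'] at hL1 hL2
  have hv : ∀ x, lin L (tr φ a x) = lin L' x - lin L' a := by
    intro x
    have h1 := hL' (x - a)
    rw [hsub] at h1
    exact h1
  have hm : amin (trA φ a D) (w ∘ rt φ a) L = (amin D w L').image (tr φ a) := by
    ext y
    simp only [amin, Finset.mem_filter, Finset.mem_image, Function.comp_apply]
    constructor
    · rintro ⟨h1, h2⟩
      refine ⟨rt φ a y, ⟨mem_trA.1 h1, fun z hz => ?_⟩, aff_tr_rt φ a y⟩
      have h3 := h2 _ ((aff_tr_mem (φ := φ) (a := a)).2 hz)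
      have h4 := hv (rt φ a y)
      rw [aff_tr_rt] at h4
      rw [aff_rt_tr, hv, h4] at h3
      linarith
    · rintro ⟨x, ⟨h1, h2⟩, rfl⟩
      refine ⟨aff_tr_mem.2 h1, fun z hz => ?_⟩
      have h3 := h2 _ (mem_trA.1 hz)
      have h4 := hv (rt φ a z)
      rw [aff_tr_rt] at h4
      rw [aff_rt_tr, hv, h4]
      linarith
  rw [hm]
  have hU := hP L' hL1 hL2
  generalize amin D w L' = C at hU ⊢
  intro c r h1 h2
  have hs : ∀ f : W → ℝ, ∑ z ∈ C.image (tr φ a), f z = ∑ x ∈ C, f (tr φ a x) := fun f =>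
    Finset.sum_image fun _ _ _ _ e => aff_tr_inj φ a e
  rw [hs] at h1
  have hadd : ∀ {r s : ℝ}, IsInt r → IsInt s → IsInt (r + s) := by
    rintro r s ⟨m, rfl⟩ ⟨n, rfl⟩
    exact ⟨m + n, by push_cast; ring⟩
  have hmul : ∀ (k : ℤ) {s : ℝ}, IsInt s → IsInt (k * s) := by
    rintro k s ⟨n, rfl⟩
    exact ⟨k * n, by push_cast; ring⟩
  have hsum : ∀ f : Fin 3 → ℝ, (∀ i, IsInt (f i)) → IsInt (∑ i, f i) := by
    intro f hf
    rw [Fin.sum_univ_three]
    exact hadd (hadd (hf 0) (hf 1)) (hf 2)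
  obtain ⟨h3, h4⟩ := hU (fun x => c (tr φ a x)) r h1 (by
    intro i
    obtain ⟨n, hn⟩ := pull φ (Pi.single i 1)
    have hc : ∀ x : W, d3 (Pi.single i 1) x = x i := by
      intro x
      unfold d3
      simp [Pi.single_apply]
    have hx : ∀ x : W, (x i : ℝ) = ∑ j, (n j : ℝ) * (φ x j : ℝ) := by
      intro x
      rw [← hc x, ← hn x]
      unfold d3
      push_cast
      rfl
    have hx' : ∀ x : W, (x i : ℝ) = ∑ j, (n j : ℝ) * (tr φ a x j : ℝ) + a i := by
      intro x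
      have := hx (x - a)
      unfold tr
      rw [← this]
      simp
    have e1 : ∑ x ∈ C, c (tr φ a x) * (x i : ℝ) + r * (e i : ℝ) =
        ∑ j, (n j : ℝ) * (∑ x ∈ C, c (tr φ a x) * (tr φ a x j : ℝ) + r * (φ e j : ℝ)) +
          (a i : ℝ) * ∑ x ∈ C, c (tr φ a x) := by
      rw [hx e]
      have e2 : ∑ x ∈ C, c (tr φ a x) * (x i : ℝ) =
          ∑ j, (n j : ℝ) * (∑ x ∈ C, c (tr φ a x) * (tr φ a x j : ℝ)) + (a i : ℝ) * ∑ x ∈ C, c (tr φ a x) := by
        simp only [Finset.mul_sum]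
        rw [Finset.sum_comm, ← Finset.sum_add_distrib]
        refine Finset.sum_congr rfl fun x _ => ?_
        rw [hx' x, mul_add, Finset.mul_sum, mul_comm (a i : ℝ)]
        congr 1
        exact Finset.sum_congr rfl fun j _ => by ring
      rw [e2]
      have e3 : ∑ j, (n j : ℝ) * (∑ x ∈ C, c (tr φ a x) * (tr φ a x j : ℝ) + r * (φ e j : ℝ)) =
          ∑ j, (n j : ℝ) * (∑ x ∈ C, c (tr φ a x) * (tr φ a x j : ℝ)) + r * ∑ j, (n j : ℝ) * (φ e j : ℝ) := by
        rw [Finset.mul_sum, ← Finset.sum_add_distrib]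
        exact Finset.sum_congr rfl fun j _ => by ring
      rw [e3]
      ring
    rw [e1]
    refine hadd (hsum _ fun j => hmul _ ?_) (hmul _ h1)
    have := h2 j
    rwa [hs] at this)
  refine ⟨fun y hy => ?_, h4⟩
  obtain ⟨x, hx, rfl⟩ := Finset.mem_image.1 hy
  exact h3 x hx

private theorem affr_d3_tr {φ : W ≃+ W} {a u u' : W} (hu : ∀ x, d3 u' (φ x) = d3 u x) (x : W) :
    d3 u' (tr φ a x) = d3 u x - d3 u a := by
  unfold tr
  rw [hu, d3_sub]

private theorem affr_d3_neg (u x : W) : d3 (-u) x = - d3 u x := by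
  unfold d3
  simp [Finset.sum_neg_distrib]

theorem tr_side {φ : W ≃+ W} {a : W} {D : Finset W} {e u u' : W} (hu : ∀ x, d3 u' (φ x) = d3 u x)
    (h : Side D e u) : Side (trA φ a D) (φ e) u' := by
  obtain ⟨y, hy, hmax, h⟩ := h
  refine ⟨tr φ a y, aff_tr_mem.2 hy, ?_, ?_⟩
  · intro x hx
    have h1 := hmax _ (mem_trA.1 hx)
    have h2 := affr_d3_tr (a := a) hu (rt φ a x)
    rw [aff_tr_rt] at h2
    rw [affr_d3_tr hu, h2]
    linarith
  · rcases h with h | ⟨g, p, p', q, q', hg, hp, hp', h1, h2⟩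
    · left
      rw [← aff_tr_add]
      exact aff_tr_mem.2 h
    · right
      refine ⟨φ g, p, p', q, q', by rw [hu, hg], hp, hp', ?_, ?_⟩
      · have e1 : tr φ a y + p • φ e + q • φ g = tr φ a (y + p • e + q • g) := by
          rw [aff_tr_add, aff_tr_add, map_zsmul, map_zsmul]
        rw [e1]
        exact aff_tr_mem.2 h1
      · have e1 : tr φ a y - p' • φ e + q' • φ g = tr φ a (y - p' • e + q' • g) := by
          rw [sub_eq_add_neg y, aff_tr_add, aff_tr_add, map_neg, map_zsmul, map_zsmul, ← sub_eq_add_neg]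
        rw [e1]
        exact aff_tr_mem.2 h2

theorem tr_okR {φ : W ≃+ W} {a : W} {D : Finset W} {w : W → ℝ} (h : OKr D w) : OKr (trA φ a D) (w ∘ rt φ a) := by
  rcases h with ⟨s, e, f, k, h⟩ | ⟨e, ⟨u, v, h1, h2, h3, h4, ⟨x, hx, y, hy, hxy⟩, h5⟩, hP⟩
  · left
    refine ⟨tr φ a s, φ e, φ f, k, h.k1, ?_, ?_⟩
    · obtain ⟨u, v, h1, h2, h3, h4⟩ := h.dual
      obtain ⟨u', hu⟩ := pull φ u
      obtain ⟨v', hv⟩ := pull φ v
      exact ⟨u', v', by rw [hu, h1], by rw [hu, h2], by rw [hv, h3], by rw [hv, h4]⟩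
    · intro x
      rw [mem_trA, h.mem]
      constructor
      · rintro ⟨i, j, hij, he⟩
        refine ⟨i, j, hij, ?_⟩
        have := congrArg (tr φ a) he
        rw [aff_tr_rt, aff_tr_add, aff_tr_add, map_zsmul, map_zsmul] at this
        exact this
      · rintro ⟨i, j, hij, he⟩
        refine ⟨i, j, hij, ?_⟩
        apply aff_tr_inj φ a
        rw [aff_tr_rt, aff_tr_add, aff_tr_add, map_zsmul, map_zsmul]
        exact he
  · right
    refine ⟨φ e, ?_, affr_pp hP⟩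
    obtain ⟨u', hu⟩ := pull φ u
    obtain ⟨v', hv⟩ := pull φ v
    refine ⟨u', v', by rw [hv, h1], by rw [hu, h2], tr_side hu h3, tr_side ?_ h4,
      ⟨tr φ a x, aff_tr_mem.2 hx, tr φ a y, aff_tr_mem.2 hy, ?_⟩, ?_⟩
    · intro x
      rw [affr_d3_neg, affr_d3_neg, hu]
    · rw [affr_d3_tr hu, affr_d3_tr hu]
      linarith
    · intro x hx y hy k hk1 hk2
      have e1 := affr_d3_tr (a := a) hu (rt φ a x)
      have e2 := affr_d3_tr (a := a) hu (rt φ a y)
      rw [aff_tr_rt] at e1 e2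
      obtain ⟨q, hq, hqk⟩ := h5 _ (mem_trA.1 hx) _ (mem_trA.1 hy) (k + d3 u a) (by linarith) (by linarith)
      exact ⟨tr φ a q, aff_tr_mem.2 hq, by rw [affr_d3_tr hu, hqk]; ring⟩

theorem tr_gpR {φ : W ≃+ W} {a : W} {A : Finset W} {w : W → ℝ} (h : GPr A w) : GPr (trA φ a A) (w ∘ rt φ a) := by
  refine ⟨tr_ru h.ru, fun n k hf => ?_⟩
  obtain ⟨n', hn0⟩ := pull φ.symm n
  have hn : ∀ x, d3 n (φ x) = d3 n' x := by
    intro x
    have := hn0 (φ x)
    rw [AddEquiv.symm_apply_apply] at this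
    exact this.symm
  have hv : ∀ x, d3 n (tr φ a x) = d3 n' x - d3 n' a := by
    intro x
    unfold tr
    rw [hn, d3_sub]
  have hF : Face (trA φ a A) n k = trA φ a (Face A n' (k + d3 n' a)) := by
    ext y
    rw [mem_trA]
    simp only [Face, Finset.mem_filter]
    rw [mem_trA]
    have h4 := hv (rt φ a y)
    rw [aff_tr_rt] at h4
    rw [h4]
    constructor
    · rintro ⟨h1, h2⟩
      exact ⟨h1, by linarith⟩
    · rintro ⟨h1, h2⟩
      exact ⟨h1, by linarith⟩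
  rw [hF]
  apply tr_okR
  apply h.ok
  refine ⟨fun x hx => ?_, ?_, ?_⟩
  · have := hf.le _ (aff_tr_mem.2 hx)
    rw [hv] at this
    linarith
  · obtain ⟨y, hy, hlt⟩ := hf.lt
    refine ⟨rt φ a y, mem_trA.1 hy, ?_⟩
    have h4 := hv (rt φ a y)
    rw [aff_tr_rt] at h4
    linarith
  · have := hf.nc
    rw [hF, tr_nonCol] at this
    exact this

/-- the inverse direction -/
theorem tr_gpR' {φ : W ≃+ W} {a : W} {A : Finset W} {w : W → ℝ} (h : GPr (trA φ a A) w) : GPr A (w ∘ tr φ a) := by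
  have h1 := tr_gpR (φ := φ.symm) (a := -φ a) h
  have h2 : ∀ y, tr φ.symm (-φ a) y = rt φ a y := by
    intro y
    simp [tr, rt]
  have h3 : ∀ x, rt φ.symm (-φ a) x = tr φ a x := by
    intro x
    simp [tr, rt, sub_eq_add_neg]
  have h4 : trA φ.symm (-φ a) (trA φ a A) = A := by
    ext x
    rw [mem_trA, h3, mem_trA, aff_rt_tr]
  have h5 : rt φ.symm (-φ a) = tr φ a := funext h3
  rw [h4, h5] at h1
  exact h1

end Pool.Agent.SPR
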