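import Pool.Agent.SPR.Defs

/-!
# [SPR-BotC] the level above the bottom (as SPK/BotC)
-/

open Finset Pool.Agent.SPB Pool.Agent.SPK

set_option autoImplicit false

namespace Pool.Agent.SPR


variable {A : Finset W} {F : Finset V} {h : V → ℤ} {A₀ B : Finset V}

private theorem bc_dot {v w : V} (h : det v w = 1) (n x : V) :
    dot n x = det n w * dot v x + det v n * dot w x := by
  unfold det at h
  unfold dot det
  linear_combination (-(n.1 * x.1) - n.2 * x.2) * h

private theorem bc_dotR {v w : V} (h : det v w = 1) (a : ℝ × ℝ) (x : V) :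
    dotR a x = (a.1 * w.2 - a.2 * w.1) * (dot v x : ℝ) + ((v.1 : ℝ) * a.2 - v.2 * a.1) * (dot w x : ℝ) := by
  have h' : (v.1 : ℝ) * w.2 - v.2 * w.1 = 1 := by
    have : v.1 * w.2 - v.2 * w.1 = 1 := h
    exact_mod_cast this
  unfold dotR dot
  push_cast
  linear_combination (-(a.1 * x.1) - a.2 * x.2) * h'

private theorem bc_dot_add (v x y : V) : dot v (x + y) = dot v x + dot v y := by
  unfold dot
  simp only [Prod.fst_add, Prod.snd_add]
  ring

private theorem bc_lin (L : Fin 3 → ℝ) (x : V) (z : ℤ) : lin L (pt x z) = dotR (L 0, L 1) x + L 2 * (z : ℝ) := by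
  simp only [lin, Fin.sum_univ_three, pt_zero, pt_one, pt_two, dotR]

private theorem bc_prim {c : ℤ} {n w : V} (hn : Prim n) (hc : 0 ≤ c) (h : n = c • w) : n = w := by
  have h1 : n.1 = c * w.1 := by rw [h]; rfl
  have h2 : n.2 = c * w.2 := by rw [h]; rfl
  have h3 : IsUnit c := by
    unfold Prim at hn
    exact hn.isUnit_of_dvd' ⟨w.1, h1⟩ ⟨w.2, h2⟩
  have h4 : c = 1 := by
    rcases Int.isUnit_iff.1 h3 with h5 | h5
    · exact h5
    · omega
  rw [h, h4, one_smul]

private theorem bc_data (hD : BD A F h A₀ B) {v w : V} (hvw : Adj F v w) : ∃ (x e e' f : V), det e e' = 1 ∧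
    x ∈ A₀ ∧ x + f ∈ B ∧ dot v e ≤ 0 ∧ dot v e' ≤ 0 ∧ dot w e ≤ 0 ∧ dot w e' ≤ 0 ∧
    ∀ p ∈ A, ∃ s t : ℤ, 0 ≤ s ∧ 0 ≤ t ∧ 0 ≤ p 2 ∧ p 0 = x.1 + s * e.1 + t * e'.1 + p 2 * f.1 ∧
      p 1 = x.2 + s * e.2 + t * e'.2 + p 2 * f.2 := by
  obtain ⟨e, e', f, hdet, hV⟩ := hD.up v w hvw
  set x := vert v w (h v) (h w) with hx
  have hd := hvw.2.2.1
  have h0 : x ∈ A₀ := (hD.mem0 x).2 hV.mem
  have h1 : x + e ∈ A₀ := by
    rw [hD.mem0]
    have := hV.step 0
    have e1 : pt x 0 + (![pt e 0, pt e' 0, pt f 1] : Fin 3 → W) 0 = pt (x + e) 0 := by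
      funext i; fin_cases i <;> simp [pt]
    rwa [e1] at this
  have h2 : x + e' ∈ A₀ := by
    rw [hD.mem0]
    have := hV.step 1
    have e1 : pt x 0 + (![pt e 0, pt e' 0, pt f 1] : Fin 3 → W) 1 = pt (x + e') 0 := by
      funext i; fin_cases i <;> simp [pt]
    rwa [e1] at this
  have h3 : x + f ∈ B := by
    rw [hD.mem1]
    have := hV.step 2
    have e1 : pt x 0 + (![pt e 0, pt e' 0, pt f 1] : Fin 3 → W) 2 = pt (x + f) 1 := by
      funext i; fin_cases i <;> simp [pt]
    rwa [e1] at this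
  have hv : dot v x = h v := dot_vert_left hd _ _
  have hw : dot w x = h w := dot_vert_right hd _ _
  have g1 := (hD.pts _).1 h1
  have g2 := (hD.pts _).1 h2
  refine ⟨x, e, e', f, hdet, h0, h3, ?_, ?_, ?_, ?_, ?_⟩
  · have := g1 v hvw.1
    rw [bc_dot_add] at this
    linarith
  · have := g2 v hvw.1
    rw [bc_dot_add] at this
    linarith
  · have := g1 w hvw.2.1
    rw [bc_dot_add] at this
    linarith
  · have := g2 w hvw.2.1
    rw [bc_dot_add] at this
    linarith
  · intro p hp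
    obtain ⟨t, ht, hpt⟩ := hV.cone p hp
    rw [Fin.sum_univ_three] at hpt
    have k0 := congrFun hpt 0
    have k1 := congrFun hpt 1
    have k2 := congrFun hpt 2
    simp [pt] at k0 k1 k2
    refine ⟨t 0, t 1, ht 0, ht 1, by rw [← k2]; exact ht 2, ?_, ?_⟩
    · rw [← k0, ← k2]; ring
    · rw [← k1, ← k2]; ring

theorem bd_cc (hA : Bs A) (hD : BD A F h A₀ B) (L : Fin 3 → ℝ) : ∃ x ∈ A₀, ∃ f : V, x + f ∈ B ∧
    ∀ p ∈ A, lin L p ≤ lin L (pt x 0) + (p 2 : ℝ) * lin L (pt f 1) := by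
  obtain ⟨v, w, hvw, hα, hβ⟩ := complete hD.fan (L 0, L 1)
  obtain ⟨x, e, e', f, hdet, hx, hf, h1, h2, h3, h4, h5⟩ := bc_data hD hvw
  refine ⟨x, hx, f, hf, fun p hp => ?_⟩
  obtain ⟨s, t, hs, ht, _, k0, k1⟩ := h5 p hp
  have hle : ∀ y : V, dot v y ≤ 0 → dot w y ≤ 0 → dotR (L 0, L 1) y ≤ 0 := by
    intro y hy1 hy2
    rw [bc_dotR hvw.2.2.1]
    have hy1' : (dot v y : ℝ) ≤ 0 := by exact_mod_cast hy1
    have hy2' : (dot w y : ℝ) ≤ 0 := by exact_mod_cast hy2
    have := mul_nonneg hα (neg_nonneg.2 hy1')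
    have := mul_nonneg hβ (neg_nonneg.2 hy2')
    linarith
  have he := hle e h1 h3
  have he' := hle e' h2 h4
  have hs' : (0 : ℝ) ≤ s := by exact_mod_cast hs
  have ht' : (0 : ℝ) ≤ t := by exact_mod_cast ht
  rw [bc_lin, bc_lin]
  have hp' : lin L p = dotR (L 0, L 1) x + s * dotR (L 0, L 1) e + t * dotR (L 0, L 1) e'
      + (p 2 : ℝ) * (dotR (L 0, L 1) f + L 2) := by
    simp only [lin, Fin.sum_univ_three, dotR]
    rw [k0, k1]
    push_cast
    ring
  rw [hp']
  have := mul_nonneg hs' (neg_nonneg.2 he)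
  have := mul_nonneg ht' (neg_nonneg.2 he')
  push_cast
  linarith

theorem bd_edgeB (hA : Bs A) (hD : BD A F h A₀ B) : EdgeNorm F B := by
  intro x hx y hy hxy n hn hnxy hmax
  obtain ⟨v, w, hvw, hα, hβ⟩ : ∃ v w, Adj F v w ∧ 0 ≤ det n w ∧ 0 ≤ det v n := by
    obtain ⟨v, w, h1, h2, h3⟩ := complete hD.fan (toR n)
    refine ⟨v, w, h1, ?_, ?_⟩
    · unfold toR at h2
      unfold det
      simp only at h2
      exact_mod_cast h2
    · unfold toR at h3
      unfold det
      simp only at h3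
      exact_mod_cast h3
  have hd := hvw.2.2.1
  obtain ⟨x0, e, e', f, hdet, hx0, hf, h1, h2, h3, h4, h5⟩ := bc_data hD hvw
  have hbas : n = det n w • v + det v n • w := by
    unfold det at hd
    refine Prod.ext ?_ ?_
    · simp only [det, Prod.fst_add, Prod.smul_fst, smul_eq_mul]
      linear_combination (-n.1) * hd
    · simp only [det, Prod.snd_add, Prod.smul_snd, smul_eq_mul]
      linear_combination (-n.2) * hd
  rcases hα.eq_or_lt with hα0 | hα0
  · rw [← hα0, zero_smul, zero_add] at hbas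
    rw [bc_prim hn hβ hbas]
    exact hvw.2.1
  rcases hβ.eq_or_lt with hβ0 | hβ0
  · rw [← hβ0, zero_smul, add_zero] at hbas
    rw [bc_prim hn hα hbas]
    exact hvw.1
  exfalso
  have hneg : ∀ g : V, g ≠ 0 → dot v g ≤ 0 → dot w g ≤ 0 → dot n g < 0 := by
    intro g hg hg1 hg2
    rw [bc_dot hd n g]
    by_contra hcon
    push Not at hcon
    have e1 := mul_nonneg hα0.le (neg_nonneg.2 hg1)
    have e2 := mul_nonneg hβ0.le (neg_nonneg.2 hg2)
    have e3 : det n w * dot v g = 0 := by linarith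
    have e4 : det v n * dot w g = 0 := by linarith
    have e5 : dot v g = 0 := by
      rcases mul_eq_zero.1 e3 with h | h
      · omega
      · exact h
    have e6 : dot w g = 0 := by
      rcases mul_eq_zero.1 e4 with h | h
      · omega
      · exact h
    apply hg
    unfold dot at e5 e6
    unfold det at hd
    refine Prod.ext ?_ ?_
    · show g.1 = 0
      linear_combination (-g.1) * hd + w.2 * e5 - v.2 * e6
    · show g.2 = 0
      linear_combination (-g.2) * hd - w.1 * e5 + v.1 * e6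
  have he0 : e ≠ 0 := by
    rintro rfl
    simp [det] at hdet
  have he0' : e' ≠ 0 := by
    rintro rfl
    simp [det] at hdet
  have hne := hneg e he0 h1 h3
  have hne' := hneg e' he0' h2 h4
  have key : ∀ z ∈ B, dot n z = dot n x → z = x0 + f := by
    intro z hz hzn
    obtain ⟨s, t, hs, ht, _, k0, k1⟩ := h5 (pt z 1) ((hD.mem1 z).1 hz)
    simp only [pt_zero, pt_one, pt_two, one_mul] at k0 k1
    have m1 := hmax _ hf
    rw [← hzn] at m1
    have m2 : dot n z = dot n (x0 + f) + s * dot n e + t * dot n e' := by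
      unfold dot
      rw [k0, k1]
      simp only [Prod.fst_add, Prod.snd_add]
      ring
    have m3 := mul_nonneg hs (neg_nonneg.2 hne.le)
    have m4 := mul_nonneg ht (neg_nonneg.2 hne'.le)
    have m5 : s * dot n e = 0 := by linarith
    have m6 : t * dot n e' = 0 := by linarith
    have m7 : s = 0 := by
      rcases mul_eq_zero.1 m5 with h | h
      · exact h
      · omega
    have m8 : t = 0 := by
      rcases mul_eq_zero.1 m6 with h | h
      · exact h
      · omega
    rw [m7, m8] at k0 k1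
    refine Prod.ext ?_ ?_
    · simp only [Prod.fst_add]
      linarith
    · simp only [Prod.snd_add]
      linarith
  exact hxy ((key x hx rfl).trans (key y hy hnxy.symm).symm)

theorem bd_latB (hA : Bs A) (hD : BD A F h A₀ B) : LatConv B := by
  intro x hx
  rw [hD.mem1]
  apply hA.lat
  have hmin : convexHull ℝ (toR '' (B : Set V)) ⊆ {z : ℝ × ℝ | (![z.1, z.2, 1] : Fin 3 → ℝ) ∈ hull A} := by
    apply convexHull_min
    · rintro _ ⟨y, hy, rfl⟩
      show (![(toR y).1, (toR y).2, 1] : Fin 3 → ℝ) ∈ hull A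
      apply subset_convexHull
      refine ⟨pt y 1, (hD.mem1 y).1 hy, ?_⟩
      funext i
      fin_cases i <;> simp [emb, pt, toR]
    · intro z hz z' hz' a b ha hb hab
      have h1 := (convex_convexHull ℝ (emb '' (A : Set W))) hz hz' ha hb hab
      have h2 : (![(a • z + b • z').1, (a • z + b • z').2, 1] : Fin 3 → ℝ) =
          a • ![z.1, z.2, 1] + b • ![z'.1, z'.2, 1] := by
        funext i
        fin_cases i
        · simp
        · simp
        · simpa using hab.symm
      show (![(a • z + b • z').1, (a • z + b • z').2, 1] : Fin 3 → ℝ) ∈ hull A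
      rw [h2]
      exact h1
  have := hmin hx
  have e1 : emb (pt x 1) = (![(toR x).1, (toR x).2, 1] : Fin 3 → ℝ) := by
    funext i
    fin_cases i <;> simp [emb, pt, toR]
  rw [e1]
  exact this

theorem bd_B_nonempty (hA : Bs A) (hD : BD A F h A₀ B) : B.Nonempty := by
  obtain ⟨v, hv⟩ := hD.fan.nonempty
  obtain ⟨w, hvw⟩ := hD.fan.next v hv
  obtain ⟨x, e, e', f, _, _, hf, _⟩ := bc_data hD hvw
  exact ⟨_, hf⟩

end Pool.Agent.SPR
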