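import Pool.Agent.SPR.Defs

/-!
# [SPR-BotV] the vertices of the bottom facet (as SPK/BotV)
-/

open Finset Pool.Agent.SPB Pool.Agent.SPK

set_option autoImplicit false

namespace Pool.Agent.SPR

private theorem botV_mk (v : W) (z : ℤ) (h : v 2 = z) : pt (v 0, v 1) z = v := by
  funext i
  fin_cases i
  · rfl
  · rfl
  · exact h.symm

theorem bot_vertexR {A : Finset W} (hA : Bs A) {x : W} (hx : IsV A x) (hx0 : x 2 = 0) :
    ∃ e e' f : V, det e e' = 1 ∧ Vtx A x ![pt e 0, pt e' 0, pt f 1] := by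
  obtain ⟨b₀, hb₀⟩ := hA.smo x hx hx0
  have hd : ∀ y : W, d3 ![0, 0, -1] y = - y 2 := by
    intro y
    rw [d3, Fin.sum_univ_three]
    simp
  have hface : Face A ![0, 0, -1] 0 = A.filter (fun x => x 2 = 0) := by
    rw [Face]
    apply Finset.filter_congr
    intro y _
    rw [hd]
    omega
  have hf : Fac A ![0, 0, -1] 0 := by
    refine ⟨?_, ?_, ?_⟩
    · intro y hy
      rw [hd]
      have := hA.nn y hy
      omega
    · obtain ⟨y, hy⟩ := hA.hi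
      rw [up, Finset.mem_filter] at hy
      refine ⟨y, hy.1, ?_⟩
      rw [hd]
      omega
    · rw [hface]
      exact hA.nc
  obtain ⟨σ, h0, h1, h2, _⟩ := facet_vertex hf hb₀ (by rw [hd, hx0, neg_zero])
  rw [hd] at h0 h1 h2
  -- reordered basis
  have hb := hb₀.perm σ
  set b : Fin 3 → W := b₀ ∘ σ with hbdef
  have z0 : b 0 2 = 0 := by
    have : b 0 2 = b₀ (σ 0) 2 := rfl
    omega
  have z1 : b 1 2 = 0 := by
    have : b 1 2 = b₀ (σ 1) 2 := rfl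
    omega
  have z2 : 0 < b 2 2 := by
    have : b 2 2 = b₀ (σ 2) 2 := rfl
    omega
  have hco : ∀ (c : Fin 3 → ℤ) (y : W), ∑ i, c i • b i = y → ∀ j, c 0 * b 0 j + c 1 * b 1 j + c 2 * b 2 j = y j := by
    intro c y h j
    rw [← h, Fin.sum_univ_three]
    rfl
  have z3 : b 2 2 = 1 := by
    obtain ⟨c, hc⟩ := hb.gen ![0, 0, 1]
    have h := hco c _ hc 2
    rw [z0, z1, mul_zero, mul_zero, zero_add, zero_add] at h
    have h' : c 2 * b 2 2 = 1 := h
    have hdvd : b 2 2 ∣ 1 := ⟨c 2, by rw [mul_comm]; exact h'.symm⟩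
    exact Int.eq_one_of_dvd_one z2.le hdvd
  -- determinant
  have hdet : det (b 0 0, b 0 1) (b 1 0, b 1 1) = 1 ∨ det (b 0 0, b 0 1) (b 1 0, b 1 1) = -1 := by
    obtain ⟨c, hc⟩ := hb.gen ![1, 0, 0]
    obtain ⟨c', hc'⟩ := hb.gen ![0, 1, 0]
    have p2 : c 0 * b 0 2 + c 1 * b 1 2 + c 2 * b 2 2 = 0 := hco c _ hc 2
    have q2 : c' 0 * b 0 2 + c' 1 * b 1 2 + c' 2 * b 2 2 = 0 := hco c' _ hc' 2
    rw [z0, z1, z3] at p2 q2
    have p2' : c 2 = 0 := by linarith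
    have q2' : c' 2 = 0 := by linarith
    have p0 : c 0 * b 0 0 + c 1 * b 1 0 + c 2 * b 2 0 = 1 := hco c _ hc 0
    have p1 : c 0 * b 0 1 + c 1 * b 1 1 + c 2 * b 2 1 = 0 := hco c _ hc 1
    have q0 : c' 0 * b 0 0 + c' 1 * b 1 0 + c' 2 * b 2 0 = 0 := hco c' _ hc' 0
    have q1 : c' 0 * b 0 1 + c' 1 * b 1 1 + c' 2 * b 2 1 = 1 := hco c' _ hc' 1
    rw [p2', zero_mul, add_zero] at p0 p1
    rw [q2', zero_mul, add_zero] at q0 q1
    apply Int.isUnit_iff.1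
    apply IsUnit.of_mul_eq_one (c 0 * c' 1 - c 1 * c' 0)
    have e : det (b 0 0, b 0 1) (b 1 0, b 1 1) * (c 0 * c' 1 - c 1 * c' 0) =
        (c 0 * b 0 0 + c 1 * b 1 0) * (c' 0 * b 0 1 + c' 1 * b 1 1) -
        (c 0 * b 0 1 + c 1 * b 1 1) * (c' 0 * b 0 0 + c' 1 * b 1 0) := by
      simp only [det]
      ring
    rw [e, p0, p1, q0, q1]
    norm_num
  rcases hdet with hdet | hdet
  · refine ⟨(b 0 0, b 0 1), (b 1 0, b 1 1), (b 2 0, b 2 1), hdet, ?_⟩
    have : ![pt (b 0 0, b 0 1) 0, pt (b 1 0, b 1 1) 0, pt (b 2 0, b 2 1) 1] = b := by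
      funext i
      fin_cases i
      · exact botV_mk _ _ z0
      · exact botV_mk _ _ z1
      · exact botV_mk _ _ z3
    rw [this]
    exact hb
  · refine ⟨(b 1 0, b 1 1), (b 0 0, b 0 1), (b 2 0, b 2 1), ?_, ?_⟩
    · simp only [det] at hdet ⊢
      linarith
    have hp := hb.perm (Equiv.swap 0 1)
    have : ![pt (b 1 0, b 1 1) 0, pt (b 0 0, b 0 1) 0, pt (b 2 0, b 2 1) 1] = b ∘ (Equiv.swap 0 1 : Equiv.Perm (Fin 3)) := by
      funext i
      fin_cases i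
      · exact botV_mk _ _ z1
      · exact botV_mk _ _ z0
      · exact botV_mk _ _ z3
    rw [this]
    exact hp

end Pool.Agent.SPR
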