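import Pool.Agent.SPR.Defs

/-!
# [SPR-Opp3] smooth fans containing the normals of a triangle

`B = {s + i e + j f | i, j ≥ 0, i + j ≤ k}`, `k ≥ 1`, `det e f = 1`. Let `a, b, c` be the vectors with `dot a e = -1, dot a f = 0`; `dot b e = 0, dot b f = -1`; `c = - a - b`, `dot c e = dot c f = 1`. Explicitly `a = (-f.2, f.1)`, `b = (e.2, -e.1)` (check the signs). They are the outer edge normals of `B`, each is maximal on an edge with `k + 1 ≥ 2` points, so they are in `F` (`EdgeNorm`). `det a b = det b c = det c a = 1` (or all `-1`; fix the order so that it is `1`).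
If `a + b ∈ F` then `r = c` works (`-c = a + b`), similarly for the other pairs. Otherwise each pair is adjacent: let `(p, q)` be one of the pairs, `p + q ∉ F`. `complete` (SPB/Fan) for `p + q`: `Adj F r r'`, `p + q = α r + β r'`, `α, β ≥ 0` integers, both `≥ 1` (`p + q` is primitive, not in `F`). No element of `F` is strictly between `r` and `r'`, so `r, r'` are in the closed cone of `(p, q)`: `r = x₁ p + y₁ q`, `r' = x₂ p + y₂ q`, all coefficients `≥ 0`. Comparing coefficients: `1 = α x₁ + β x₂ = α y₁ + β y₂`, so `{r, r'} = {p, q}`, `r = p`, `r' = q`: `Adj F p q`. So no `j ∈ F` lies strictly between `p` and `q`. Every nonzero vector lies in one of the three closed cones, so `F = {a, b, c}` (first alternative).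
-/

open Finset Pool.Agent.SPB Pool.Agent.SPK

set_option autoImplicit false

namespace Pool.Agent.SPR

section

variable {F B : Finset V}

private theorem opp3_add (n x y : V) : dot n (x + y) = dot n x + dot n y := by
  simp only [dot, Prod.fst_add, Prod.snd_add]; ring

private theorem opp3_smul (n x : V) (m : ℤ) : dot n (m • x) = m * dot n x := by
  simp only [dot, Prod.smul_fst, Prod.smul_snd, smul_eq_mul]; ring

private theorem opp3_rot {s e f : V} {k : ℕ}
    (hB : ∀ x, x ∈ B ↔ ∃ i j : ℕ, i + j ≤ k ∧ x = s + (i : ℤ) • e + (j : ℤ) • f) :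
    ∀ x, x ∈ B ↔ ∃ i j : ℕ, i + j ≤ k ∧ x = (s + (k : ℤ) • e) + (i : ℤ) • (f - e) + (j : ℤ) • (-e) := by
  intro x
  rw [hB]
  constructor
  · rintro ⟨i, j, hij, rfl⟩
    refine ⟨j, k - i - j, by omega, ?_⟩
    have h1 : ((k - i - j : ℕ) : ℤ) = k - i - j := by omega
    rw [h1]
    refine Prod.ext ?_ ?_
    · simp only [Prod.fst_add, Prod.smul_fst, smul_eq_mul, Prod.fst_sub, Prod.fst_neg]
      ring
    · simp only [Prod.snd_add, Prod.smul_snd, smul_eq_mul, Prod.snd_sub, Prod.snd_neg]
      ring
  · rintro ⟨i, j, hij, rfl⟩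
    refine ⟨k - i - j, i, by omega, ?_⟩
    have h1 : ((k - i - j : ℕ) : ℤ) = k - i - j := by omega
    rw [h1]
    refine Prod.ext ?_ ?_
    · simp only [Prod.fst_add, Prod.smul_fst, smul_eq_mul, Prod.fst_sub, Prod.fst_neg]
      ring
    · simp only [Prod.snd_add, Prod.smul_snd, smul_eq_mul, Prod.snd_sub, Prod.snd_neg]
      ring

private theorem opp3_rot_det {e f : V} (hd : det e f = 1) : det (f - e) (-e) = 1 := by
  simp only [det, Prod.fst_sub, Prod.snd_sub, Prod.fst_neg, Prod.snd_neg] at hd ⊢
  linarith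

private theorem opp3_mem (hE : EdgeNorm F B) {s e f : V} {k : ℕ} (hk : 1 ≤ k) (hd : det e f = 1)
    (hB : ∀ x, x ∈ B ↔ ∃ i j : ℕ, i + j ≤ k ∧ x = s + (i : ℤ) • e + (j : ℤ) • f) :
    ((-f.2, f.1) : V) ∈ F := by
  have hs : s ∈ B := (hB s).2 ⟨0, 0, Nat.zero_le _, by simp⟩
  have hs' : s + f ∈ B := (hB _).2 ⟨0, 1, by omega, by simp⟩
  have hf : dot (-f.2, f.1) f = 0 := by simp only [dot]; ring
  have he : dot (-f.2, f.1) e = -1 := by
    simp only [dot, det] at hd ⊢
    linarith
  refine hE s hs (s + f) hs' ?_ _ ?_ ?_ ?_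
  · intro hc
    have : f = 0 := by simpa using hc
    rw [this] at hd
    simp [det] at hd
  · refine ⟨-e.1, -e.2, ?_⟩
    simp only [det] at hd ⊢
    linarith
  · rw [opp3_add, hf, add_zero]
  · intro w hw
    obtain ⟨i, j, -, rfl⟩ := (hB w).1 hw
    rw [opp3_add, opp3_add, opp3_smul, opp3_smul, hf, he]
    have : (0 : ℤ) ≤ i := by omega
    linarith

/-- two elements of the fan with determinant one whose sum is not in the fan are adjacent -/
private theorem opp3_adj (hF : SmoothFan F) {p q : V} (hp : p ∈ F) (hq : q ∈ F) (hd : det p q = 1)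
    (hn : p + q ∉ F) : Adj F p q := by
  obtain ⟨r, t, hrt, h1, h2⟩ := complete hF (toR (p + q))
  have hα : 0 ≤ det p t - det t q := by
    have h3 : (0 : ℤ) ≤ (p + q).1 * t.2 - (p + q).2 * t.1 := by
      unfold toR at h1
      simp only at h1
      exact_mod_cast h1
    simp only [det, Prod.fst_add, Prod.snd_add] at h3 ⊢
    linarith
  have hβ : 0 ≤ det r q - det p r := by
    have h3 : (0 : ℤ) ≤ r.1 * (p + q).2 - r.2 * (p + q).1 := by
      unfold toR at h2
      simp only at h2
      exact_mod_cast h2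
    simp only [det, Prod.fst_add, Prod.snd_add] at h3 ⊢
    linarith
  have hr : r = (det r q) • p + (det p r) • q := by
    simp only [det] at hd ⊢
    refine Prod.ext ?_ ?_
    · simp only [Prod.fst_add, Prod.smul_fst, smul_eq_mul]
      linear_combination (-r.1) * hd
    · simp only [Prod.snd_add, Prod.smul_snd, smul_eq_mul]
      linear_combination (-r.2) * hd
  have ht : t = (det t q) • p + (det p t) • q := by
    simp only [det] at hd ⊢
    refine Prod.ext ?_ ?_
    · simp only [Prod.fst_add, Prod.smul_fst, smul_eq_mul]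
      linear_combination (-t.1) * hd
    · simp only [Prod.snd_add, Prod.smul_snd, smul_eq_mul]
      linear_combination (-t.2) * hd
  have e1 : (det p t - det t q) * det r q + (det r q - det p r) * det t q = 1 := by
    have := hrt.2.2.1
    simp only [det] at hd this ⊢
    linear_combination (r.1 * t.2 - r.2 * t.1) * hd + this
  have e2 : (det p t - det t q) * det p r + (det r q - det p r) * det p t = 1 := by
    have := hrt.2.2.1
    simp only [det] at hd this ⊢
    linear_combination (r.1 * t.2 - r.2 * t.1) * hd + this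
  have s1 : det r p = - det p r := by simp only [det]; ring
  have s2 : det q t = - det t q := by simp only [det]; ring
  have hcp := hrt.2.2.2 p hp
  have hcq := hrt.2.2.2 q hq
  rw [s1] at hcp
  rw [s2] at hcq
  set x₁ := det r q with hx₁
  set y₁ := det p r with hy₁
  set x₂ := det t q with hx₂
  set y₂ := det p t with hy₂
  have hpp : det p p = 0 := by simp only [det]; ring
  have hqq : det q q = 0 := by simp only [det]; ring
  have hα' : 1 ≤ y₂ - x₂ := by
    by_contra hc
    have h3 : y₂ - x₂ = 0 := by omega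
    rw [h3, zero_mul, zero_add] at e1
    rw [h3, zero_mul, zero_add] at e2
    have h4 : x₁ - y₁ = 1 := by
      rcases Int.isUnit_iff.1 (IsUnit.of_mul_eq_one _ e1) with h5 | h5 <;> omega
    rw [h4, one_mul] at e1 e2
    rw [e1, e2, one_smul, one_smul] at ht
    apply hn
    rw [← ht]
    exact hrt.2.1
  have hβ' : 1 ≤ x₁ - y₁ := by
    by_contra hc
    have h3 : x₁ - y₁ = 0 := by omega
    rw [h3, zero_mul, add_zero] at e1
    rw [h3, zero_mul, add_zero] at e2
    have h4 : y₂ - x₂ = 1 := by
      rcases Int.isUnit_iff.1 (IsUnit.of_mul_eq_one _ e1) with h5 | h5 <;> omega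
    rw [h4, one_mul] at e1 e2
    rw [e1, e2, one_smul, one_smul] at hr
    apply hn
    rw [← hr]
    exact hrt.1
  rcases le_or_gt y₁ 0 with hy | hy
  · have h3 : 0 < y₂ := by
      by_contra hc
      nlinarith
    rcases hcp (by linarith) h3.le with h4 | h4
    · subst h4
      have h5 : x₁ = 1 := hd
      have h6 : y₁ = 0 := hpp
      have h7 : y₂ = 1 := hrt.2.2.1
      rcases hcq (by linarith) (by linarith) with h8 | h8
      · exfalso
        rw [h8, hpp] at hd
        exact absurd hd (by norm_num)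
      · rw [h8]
        exact hrt
    · exfalso
      rw [hy₂, ← h4, hpp] at h3
      exact lt_irrefl _ h3
  · exfalso
    have h3 : x₂ < 0 := by
      by_contra hc
      nlinarith
    rcases hcq (by linarith) (by linarith) with h4 | h4
    · rw [hx₁, ← h4, hqq] at hβ'
      linarith
    · rw [hx₂, ← h4, hqq] at h3
      exact lt_irrefl _ h3

end

theorem tri_oppR {F B : Finset V} (hF : SmoothFan F) (hE : EdgeNorm F B) {s e f : V} {k : ℕ} (hk : 1 ≤ k)
    (hd : det e f = 1) (hB : ∀ x, x ∈ B ↔ ∃ i j : ℕ, i + j ≤ k ∧ x = s + (i : ℤ) • e + (j : ℤ) • f) :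
    (∃ v w x : V, F = {v, w, x} ∧ v + w + x = 0 ∧ det v w = 1) ∨
      ∃ r ∈ F, -r ∈ F ∧ ((dot r e = -1 ∧ dot r f = 0) ∨ (dot r e = 0 ∧ dot r f = -1) ∨
      (dot r e = 1 ∧ dot r f = 1)) := by
  have hB1 := opp3_rot hB
  have hd1 := opp3_rot_det hd
  have hB2 := opp3_rot hB1
  have hd2 := opp3_rot_det hd1
  have ha := opp3_mem hE hk hd hB
  have hb := opp3_mem hE hk hd1 hB1
  have hc := opp3_mem hE hk hd2 hB2
  have hb' : ((-(-e).2, (-e).1) : V) = (e.2, -e.1) := by simp
  have hc' : ((-(-(f - e)).2, (-(f - e)).1) : V) = (f.2 - e.2, e.1 - f.1) := by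
    simp
  rw [hb'] at hb
  rw [hc'] at hc
  have ea : dot (-f.2, f.1) e = -1 := by
    simp only [dot, det] at hd ⊢
    linarith
  have fa : dot (-f.2, f.1) f = 0 := by simp only [dot]; ring
  have eb : dot (e.2, -e.1) e = 0 := by simp only [dot]; ring
  have fb : dot (e.2, -e.1) f = -1 := by
    simp only [dot, det] at hd ⊢
    linarith
  have ec : dot (f.2 - e.2, e.1 - f.1) e = 1 := by
    simp only [dot, det] at hd ⊢
    linarith
  have fc : dot (f.2 - e.2, e.1 - f.1) f = 1 := by
    simp only [dot, det] at hd ⊢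
    linarith
  by_cases na : -((-f.2, f.1) : V) ∈ F
  · exact Or.inr ⟨_, ha, na, Or.inl ⟨ea, fa⟩⟩
  by_cases nb : -((e.2, -e.1) : V) ∈ F
  · exact Or.inr ⟨_, hb, nb, Or.inr (Or.inl ⟨eb, fb⟩)⟩
  by_cases nc : -((f.2 - e.2, e.1 - f.1) : V) ∈ F
  · exact Or.inr ⟨_, hc, nc, Or.inr (Or.inr ⟨ec, fc⟩)⟩
  left
  obtain ⟨a, hae⟩ : ∃ a : V, a = (-f.2, f.1) := ⟨_, rfl⟩
  obtain ⟨b, hbe⟩ : ∃ b : V, b = (e.2, -e.1) := ⟨_, rfl⟩
  obtain ⟨c, hce⟩ : ∃ c : V, c = (f.2 - e.2, e.1 - f.1) := ⟨_, rfl⟩
  have dab : det a b = 1 := by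
    rw [hae, hbe]
    simp only [det] at hd ⊢
    linarith
  have dbc : det b c = 1 := by
    rw [hbe, hce]
    simp only [det] at hd ⊢
    linarith
  have dca : det c a = 1 := by
    rw [hae, hce]
    simp only [det] at hd ⊢
    linarith
  have hsum : a + b + c = 0 := by
    rw [hae, hbe, hce]
    refine Prod.ext ?_ ?_
    · simp only [Prod.fst_add, Prod.fst_zero]
      ring
    · simp only [Prod.snd_add, Prod.snd_zero]
      ring
  rw [← hae] at ha na
  rw [← hbe] at hb nb
  rw [← hce] at hc nc
  have hab : a + b = -c := eq_neg_of_add_eq_zero_left hsum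
  have hbc : b + c = -a := by
    apply eq_neg_of_add_eq_zero_left
    rw [← hsum]
    abel
  have hca : c + a = -b := by
    apply eq_neg_of_add_eq_zero_left
    rw [← hsum]
    abel
  have Aab := opp3_adj hF ha hb dab (by rw [hab]; exact nc)
  have Abc := opp3_adj hF hb hc dbc (by rw [hbc]; exact na)
  have Aca := opp3_adj hF hc ha dca (by rw [hca]; exact nb)
  refine ⟨a, b, c, ?_, hsum, dab⟩
  ext x
  simp only [Finset.mem_insert, Finset.mem_singleton]
  constructor
  · intro hx
    have h0 : det a x + det b x + det c x = 0 := by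
      have h1 : det a x + det b x + det c x = det (a + b + c) x := by
        simp only [det, Prod.fst_add, Prod.snd_add]
        ring
      rw [h1, hsum]
      simp [det]
    have sa : det x a = - det a x := by simp only [det]; ring
    have sb : det x b = - det b x := by simp only [det]; ring
    have sc : det x c = - det c x := by simp only [det]; ring
    have k1 := Aab.2.2.2 x hx
    have k2 := Abc.2.2.2 x hx
    have k3 := Aca.2.2.2 x hx
    rw [sb] at k1
    rw [sc] at k2
    rw [sa] at k3
    by_cases h1 : 0 ≤ det a x ∧ det b x ≤ 0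
    · rcases k1 h1.1 (by linarith [h1.2]) with h | h
      · exact Or.inl h
      · exact Or.inr (Or.inl h)
    by_cases h2 : 0 ≤ det b x ∧ det c x ≤ 0
    · rcases k2 h2.1 (by linarith [h2.2]) with h | h
      · exact Or.inr (Or.inl h)
      · exact Or.inr (Or.inr h)
    have h3 : 0 ≤ det c x ∧ det a x ≤ 0 := by omega
    rcases k3 h3.1 (by linarith [h3.2]) with h | h
    · exact Or.inr (Or.inr h)
    · exact Or.inl h
  · rintro (h | h | h)
    · rw [h]
      exact ha
    · rw [h]
      exact hb
    · rw [h]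
      exact hc

end Pool.Agent.SPR
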