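import Pool.Agent.SPR.Frc
import Pool.Agent.SPR.Opp3
import Pool.Agent.SPR.BotC
import Pool.Agent.SPK.ChoA
import Pool.Agent.SPK.ChoC

/-!
# [SPR-Cho] choice of the direction
-/

open Finset Pool.Agent.SPB Pool.Agent.SPK

set_option autoImplicit false

namespace Pool.Agent.SPR

variable {A : Finset W} {F : Finset V} {h : V → ℤ} {A₀ B : Finset V}

theorem choose_uR (hA : Bs A) (hD : BD A F h A₀ B) {w' : W → ℝ} (hw : RU (up A) w')
    (hOK : NonCol (lift B 1) → OKr (lift B 1) w') :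
    (∃ v w x : V, F = {v, w, x} ∧ v + w + x = 0 ∧ det v w = 1) ∨
      ∃ u ∈ F, -u ∈ F ∧ ∃ α β : ℝ, α < β ∧ PPv B (fun x => w' (pt x 1)) (u.2, -u.1) α β := by
  have hUB : ∀ a, UniV (arg B (fun x => w' (pt x 1)) a) := uniV_level hw hD.mem1
  have hE : EdgeNorm F B := bd_edgeB hA hD
  have conv : ∀ {e : V} {α β : ℝ}, α < β → PPv B (fun x => w' (pt x 1)) e α β → (e.2, -e.1) ∈ F →
      -((e.2, -e.1) : V) ∈ F →
      ∃ u ∈ F, -u ∈ F ∧ ∃ α β : ℝ, α < β ∧ PPv B (fun x => w' (pt x 1)) (u.2, -u.1) α β := by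
    intro e α β hαβ hP h1 h2
    have e1 : (-((e.2, -e.1) : V)) = (-e.2, e.1) := by
      ext <;> simp
    rw [e1] at h2
    refine ⟨(-e.2, e.1), h2, ?_, α, β, hαβ, ?_⟩
    · have e2 : (-((-e.2, e.1) : V)) = (e.2, -e.1) := by
        ext <;> simp
      rw [e2]
      exact h1
    · have e3 : (((-e.2, e.1) : V).2, -((-e.2, e.1) : V).1) = e := by
        ext <;> simp
      rw [e3]
      exact hP
  rcases opp hD.fan with ⟨u₀, hu₀, hu₀'⟩ | h3
  · by_cases hN : NonCol (lift B 1)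
    · rcases hOK hN with hT | ⟨e₃, hR, α, β, hαβ, hP⟩
      · obtain ⟨s, e, f, k, hk, hdet, hB⟩ := tri_of_lift hT
        rcases tri_oppR hD.fan hE hk hdet hB with h3 | ⟨r, hr, hr', hr2⟩
        · exact Or.inl h3
        · exact Or.inr ⟨r, hr, hr', tri_path hk hdet hB hUB hr2⟩
      · obtain ⟨e, rfl, h1, h2⟩ := rld_force hD.fan hE hR
        exact Or.inr (conv hαβ (PPi_lift.1 hP) h1 h2)
    · right
      have hc : ∀ x ∈ B, ∀ y ∈ B, ∀ z ∈ B, det (y - x) (z - x) = 0 := by
        intro x hx y hy z hz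
        by_contra hcon
        exact hN (nonCol_lift.2 ⟨x, hx, y, hy, z, hz, hcon⟩)
      obtain ⟨e, s, c, he, hBe⟩ := lat_row (bd_latB hA hD) (bd_B_nonempty hA hD) hc
      rcases Nat.eq_zero_or_pos c with hc0 | hc1
      · have hB1 : B = {s} := by
          rw [hBe, hc0]
          ext x
          simp [row]
        have hp : Prim ((u₀.2, -u₀.1) : V) := by
          obtain ⟨w, hw1⟩ := hD.fan.next u₀ hu₀
          have h1 := hw1.2.2.1
          refine ⟨-w.1, -w.2, ?_⟩
          simp only [det] at h1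
          simp only
          linear_combination h1
        obtain ⟨α, β, h1, h2⟩ := pt_pp hp s (fun x => w' (pt x 1))
        refine ⟨u₀, hu₀, hu₀', α, β, h1, ?_⟩
        rw [hB1]
        exact h2
      · have hE' := hE
        rw [hBe] at hE'
        obtain ⟨h1, h2⟩ := row_norm he hc1 hE'
        obtain ⟨α, β, h3, h4⟩ := row_pp he s c (fun x => w' (pt x 1))
        rw [← hBe] at h4
        exact conv h3 h4 h1 h2
  · exact Or.inl h3

end Pool.Agent.SPR
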