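import Pool.Agent.SPK.Fs
import Pool.Agent.SPK.Cnv
import Pool.Agent.SPK.RuF

/-!
# SPR: peeling lattice 3-dimensional polytopes which are only smooth along the facet cut off (MP_5fef9b_co, helper89)

Strengthening of SPK. Goal (Peel.lean): let `P ⊆ ℝ³` be a lattice polytope which can be reduced to a polytope of
dimension at most two by repeatedly cutting off the layer of lattice width one next to a facet, such that in every step
the polytope is smooth at the vertices of this facet. Then `P` (if it is 3-dimensional) has a regular unimodular
triangulation. No condition on the other vertices.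

The facets of the intermediate polytopes need not be smooth. Invariant of a facet `D` (`OKr`): `D` is a multiple of a
unimodular triangle, or there is a direction `e` with the path property and with `Rld D e`: all rows of direction `e`
between the two extreme rows are nonempty, and at both extreme rows (`Side`) there is either an edge of direction `e`, or
a vertex `y` such that the tangent cone contains a lattice point of the neighbouring row in its interior. In this case
every smooth fan which contains the edge normals of `D` contains the two normals of the direction `e` (Frc.lean).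
-/

open Finset Pool.Agent.SPB Pool.Agent.SPK

set_option autoImplicit false

namespace Pool.Agent.SPR

/-- `u` has a maximal point `y` on `D` such that either `y + e ∈ D`, or for some lattice vector `g` with `u · g = -1` there are points of `D` strictly on both sides of the line `y + ℤ g` -/
def Side (D : Finset W) (e u : W) : Prop :=
  ∃ y ∈ D, (∀ x ∈ D, d3 u x ≤ d3 u y) ∧ (y + e ∈ D ∨ ∃ (g : W) (a a' b b' : ℤ), d3 u g = -1 ∧ 1 ≤ a ∧ 1 ≤ a' ∧
    y + a • e + b • g ∈ D ∧ y - a' • e + b' • g ∈ D)

/-- rows of direction `e`: the extreme rows are edges or wide vertices, and no row between them is empty -/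
def Rld (D : Finset W) (e : W) : Prop :=
  ∃ u v : W, d3 v e = 1 ∧ d3 u e = 0 ∧ Side D e u ∧ Side D e (-u) ∧ (∃ x ∈ D, ∃ y ∈ D, d3 u x < d3 u y) ∧
    ∀ x ∈ D, ∀ y ∈ D, ∀ k, d3 u x ≤ k → k ≤ d3 u y → ∃ q ∈ D, d3 u q = k

/-- the invariant of a facet -/
def OKr (D : Finset W) (w : W → ℝ) : Prop := Tri D ∨ ∃ e, Rld D e ∧ PP D w e

/-- the invariant of the induction -/
structure GPr (A : Finset W) (w : W → ℝ) : Prop where
  ru : RU A w
  ok : ∀ n h, Fac A n h → OKr (Face A n h) w

/-- standard position of the step: `A ⊆ {z ≥ 0}`, `A ∩ {z = 0}` is a facet, and `A` is smooth at its vertices -/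
structure Bs (A : Finset W) : Prop where
  smo : ∀ x, IsV A x → x 2 = 0 → ∃ b, Vtx A x b
  lat : LatA A
  nn : ∀ x ∈ A, 0 ≤ x 2
  nc : NonCol (A.filter (fun x => x 2 = 0))
  hi : (up A).Nonempty

end Pool.Agent.SPR
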