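import Pool.Agent.SPR.BotC

/-!
# [SPR-El] the bottom layer with very large heights (as SPK/El)
-/

open Finset Pool.Agent.SPB Pool.Agent.SPK

set_option autoImplicit false

namespace Pool.Agent.SPR


variable {A : Finset W} {F : Finset V} {h : V → ℤ} {A₀ B : Finset V}

private theorem el_lin_pt (L : Fin 3 → ℝ) (x : V) (z : ℤ) :
    lin L (pt x z) = dotR (L 0, L 1) x + L 2 * z := by
  simp [lin, pt, dotR, Fin.sum_univ_three]

private theorem el_sub {a b : ℝ} (ha : IsInt a) (hb : IsInt b) : IsInt (a - b) := by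
  obtain ⟨m, rfl⟩ := ha
  obtain ⟨n, rfl⟩ := hb
  exact ⟨m - n, by push_cast; ring⟩

private theorem el_pt_eta (p : W) : pt (p 0, p 1) (p 2) = p := by
  funext i
  fin_cases i <;> simp [pt]

private theorem el_pt_inj (z : ℤ) : Function.Injective (fun x : V => pt x z) := by
  intro x y hxy
  have h0 := congrFun hxy 0
  have h1 := congrFun hxy 1
  simp [pt] at h0 h1
  exact Prod.ext h0 h1

private theorem el_bound {α : Type} (s : Finset α) (g : α → ℝ) : ∃ M : ℝ, 0 ≤ M ∧ ∀ x ∈ s, |g x| ≤ M :=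
  ⟨∑ x ∈ s, |g x|, Finset.sum_nonneg fun _ _ => abs_nonneg _, fun x hx =>
    Finset.single_le_sum (f := fun x => |g x|) (fun _ _ => abs_nonneg _) hx⟩

/-- splitting of the sums over a set with heights `0` and `1` -/
private theorem el_split {C : Finset W} {C₀ C₁ : Finset V} (h0 : ∀ x, x ∈ C₀ ↔ pt x 0 ∈ C)
    (h1 : ∀ x, x ∈ C₁ ↔ pt x 1 ∈ C) (h2 : ∀ p ∈ C, p 2 = 0 ∨ p 2 = 1) (g : W → ℝ) :
    ∑ p ∈ C, g p = ∑ x ∈ C₀, g (pt x 0) + ∑ x ∈ C₁, g (pt x 1) := by
  classical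
  have hC : C = C₀.image (fun x => pt x 0) ∪ C₁.image (fun x => pt x 1) := by
    ext p
    simp only [Finset.mem_union, Finset.mem_image]
    constructor
    · intro hp
      rcases h2 p hp with h | h
      · left
        refine ⟨(p 0, p 1), ?_, ?_⟩
        · rw [h0, ← h, el_pt_eta]; exact hp
        · rw [← h, el_pt_eta]
      · right
        refine ⟨(p 0, p 1), ?_, ?_⟩
        · rw [h1, ← h, el_pt_eta]; exact hp
        · rw [← h, el_pt_eta]
    · rintro (⟨x, hx, rfl⟩ | ⟨x, hx, rfl⟩)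
      · exact (h0 x).1 hx
      · exact (h1 x).1 hx
  have hd : Disjoint (C₀.image (fun x => pt x 0)) (C₁.image (fun x => pt x 1)) := by
    rw [Finset.disjoint_left]
    intro p hp hq
    simp only [Finset.mem_image] at hp hq
    obtain ⟨x, -, rfl⟩ := hp
    obtain ⟨y, -, hy⟩ := hq
    have := congrFun hy 2
    simp [pt] at this
  rw [hC, Finset.sum_union hd, Finset.sum_image (fun x _ y _ hxy => el_pt_inj 0 hxy),
    Finset.sum_image (fun x _ y _ hxy => el_pt_inj 1 hxy)]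

theorem elR (hA : Bs A) (hD : BD A F h A₀ B) {w' : W → ℝ} (hw : RU (up A) w') {ω : V → ℝ}
    (hG : Good2 A₀ B ω (fun x => w' (pt x 1))) : ∃ N₀ : ℝ, ∀ N, N₀ ≤ N → RU A (glue N ω w') := by
  classical
  obtain ⟨M₁, hM₁, hb₁⟩ := el_bound A w'
  obtain ⟨M₂, hM₂, hb₂⟩ := el_bound A₀ ω
  obtain ⟨M, hM⟩ : ∃ M, M = M₁ + M₂ := ⟨_, rfl⟩
  have hbw : ∀ x ∈ A, |w' x| ≤ M := fun x hx => (hb₁ x hx).trans (by linarith)
  have hbω : ∀ x ∈ A₀, |ω x| ≤ M := fun x hx => (hb₂ x hx).trans (by linarith)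
  have hM0 : 0 ≤ M := by linarith
  refine ⟨6 * M + 2, fun N hN L b hle => ?_⟩
  have hle' : ∀ x ∈ A, lin L x + b ≤ glue N ω w' x := hle
  have hg0 : ∀ x : V, glue N ω w' (pt x 0) = N + ω x := by
    intro x; simp [glue, pt]
  have hgn : ∀ p : W, p 2 ≠ 0 → glue N ω w' p = w' p := by
    intro p hp; simp [glue, hp]
  have hmemC : ∀ p, p ∈ contact A (glue N ω w') L b ↔ p ∈ A ∧ lin L p + b = glue N ω w' p := by
    intro p; simp [contact, lin]
  by_cases hz : ∃ x₀ : V, pt x₀ 0 ∈ contact A (glue N ω w') L b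
  swap
  · -- no point of height 0
    have hCeq : contact A (glue N ω w') L b = contact (up A) w' L b := by
      ext p
      rw [hmemC]
      simp only [contact, up, Finset.mem_filter]
      constructor
      · rintro ⟨hpA, hp⟩
        have h2 : p 2 ≠ 0 := by
          intro h0
          apply hz
          refine ⟨(p 0, p 1), ?_⟩
          have := el_pt_eta p
          rw [h0] at this
          rw [this, hmemC]
          exact ⟨hpA, hp⟩
        have h3 := hA.nn p hpA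
        refine ⟨⟨hpA, by omega⟩, ?_⟩
        rw [hgn p h2] at hp
        exact hp
      · rintro ⟨⟨hpA, h1⟩, hp⟩
        refine ⟨hpA, ?_⟩
        rw [hgn p (by omega)]
        exact hp
    rw [hCeq]
    apply hw
    intro x hx
    simp only [up, Finset.mem_filter] at hx
    have := hle' x hx.1
    rw [hgn x (by omega)] at this
    exact this
  obtain ⟨x₀, hx₀⟩ := hz
  obtain ⟨hx₀A, hx₀e⟩ := (hmemC _).1 hx₀
  rw [hg0] at hx₀e
  have hx₀' : x₀ ∈ A₀ := (hD.mem0 x₀).2 hx₀A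
  obtain ⟨x, hx, f, hf, hcc⟩ := bd_cc hA hD L
  have hxA : pt x 0 ∈ A := (hD.mem0 x).1 hx
  have hfA : pt (x + f) 1 ∈ A := (hD.mem1 _).1 hf
  obtain ⟨lam, hlam⟩ : ∃ lam, lam = lin L (pt f 1) := ⟨_, rfl⟩
  have e1 : lin L (pt x₀ 0) ≤ lin L (pt x 0) := by
    have := hcc _ hx₀A
    simpa [pt] using this
  have e2 : lin L (pt x 0) + b ≤ N + ω x := by
    have := hle' _ hxA
    rwa [hg0] at this
  have e3 : lin L (pt (x + f) 1) + b ≤ w' (pt (x + f) 1) := by
    have := hle' _ hfA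
    rwa [hgn _ (by simp [pt])] at this
  have e4 : lin L (pt (x + f) 1) = lin L (pt x 0) + lam := by
    rw [hlam, el_lin_pt, el_lin_pt, el_lin_pt]
    simp [dotR]
    ring
  have a1 := abs_le.1 (hbω x₀ hx₀')
  have a2 := abs_le.1 (hbω x hx)
  have a3 := abs_le.1 (hbw _ hfA)
  have e5 : lam ≤ 2 * M - N := by linarith
  have hC2 : ∀ p ∈ contact A (glue N ω w') L b, p 2 = 0 ∨ p 2 = 1 := by
    intro p hp
    obtain ⟨hpA, hpe⟩ := (hmemC p).1 hp
    have hnn := hA.nn p hpA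
    by_contra hcon
    push Not at hcon
    have h2 : 2 ≤ p 2 := by omega
    rw [hgn p hcon.1] at hpe
    have a4 := abs_le.1 (hbw p hpA)
    have hc := hcc p hpA
    rw [← hlam] at hc
    have h2' : (2 : ℝ) ≤ (p 2 : ℝ) := by exact_mod_cast h2
    have hlam0 : lam ≤ 0 := by linarith
    have : (p 2 : ℝ) * lam ≤ 2 * lam := by nlinarith
    linarith
  -- the planar contact sets
  obtain ⟨a, ha⟩ : ∃ a : ℝ × ℝ, a = (L 0, L 1) := ⟨_, rfl⟩
  have hlin0 : ∀ y : V, lin L (pt y 0) = dotR a y := by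
    intro y; rw [el_lin_pt, ha]; simp
  have hlin1 : ∀ y : V, lin L (pt y 1) = dotR a y + L 2 := by
    intro y; rw [el_lin_pt, ha]; simp
  have hC0 : ∀ y, y ∈ arg A₀ ω a ↔ pt y 0 ∈ contact A (glue N ω w') L b := by
    intro y
    rw [hmemC, hg0, hlin0]
    simp only [arg, Finset.mem_filter]
    rw [hlin0] at hx₀e
    constructor
    · rintro ⟨hy, hmin⟩
      have hyA := (hD.mem0 y).1 hy
      refine ⟨hyA, ?_⟩
      have h1 := hmin x₀ hx₀'
      have h2 := hle' _ hyA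
      rw [hg0, hlin0] at h2
      linarith
    · rintro ⟨hyA, hy⟩
      refine ⟨(hD.mem0 y).2 hyA, fun u hu => ?_⟩
      have h2 := hle' _ ((hD.mem0 u).1 hu)
      rw [hg0, hlin0] at h2
      linarith
  obtain ⟨C₁, hC₁⟩ : ∃ C₁ : Finset V, C₁ = B.filter (fun y => pt y 1 ∈ contact A (glue N ω w') L b) :=
    ⟨_, rfl⟩
  have hC1 : ∀ y, y ∈ C₁ ↔ pt y 1 ∈ contact A (glue N ω w') L b := by
    intro y
    rw [hC₁, Finset.mem_filter]
    exact ⟨fun h => h.2, fun h => ⟨(hD.mem1 y).2 ((hmemC _).1 h).1, h⟩⟩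
  have hC1' : ∀ y, y ∈ C₁ ↔ y ∈ B ∧ dotR a y + L 2 + b = w' (pt y 1) := by
    intro y
    rw [hC1, hmemC, hlin1, hgn _ (by simp [pt]), hD.mem1]
  have hC1arg : C₁.Nonempty → C₁ = arg B (fun x => w' (pt x 1)) a := by
    rintro ⟨y₀, hy₀⟩
    have hy₀' := (hC1' y₀).1 hy₀
    ext y
    rw [hC1']
    simp only [arg, Finset.mem_filter]
    constructor
    · rintro ⟨hy, hye⟩
      refine ⟨hy, fun u hu => ?_⟩
      have h2 := hle' _ ((hD.mem1 u).1 hu)
      rw [hlin1, hgn _ (by simp [pt])] at h2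
      linarith
    · rintro ⟨hy, hmin⟩
      refine ⟨hy, ?_⟩
      have h1 := hmin y₀ hy₀'.1
      have h2 := hle' _ ((hD.mem1 y).1 hy)
      rw [hlin1, hgn _ (by simp [pt])] at h2
      linarith [hy₀'.2]
  intro c hc hci
  have key := fun g => el_split hC0 hC1 hC2 g
  obtain ⟨c₁, hc₁⟩ : ∃ c₁ : V → ℝ, c₁ = if C₁.Nonempty then (fun x => c (pt x 1)) else 0 := ⟨_, rfl⟩
  have hs1 : ∀ g : V → ℝ, ∑ x ∈ arg B (fun x => w' (pt x 1)) a, c₁ x * g x = ∑ x ∈ C₁, c (pt x 1) * g x := by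
    intro g
    by_cases hne : C₁.Nonempty
    · rw [← hC1arg hne, hc₁, if_pos hne]
    · rw [hc₁, if_neg hne]
      rw [Finset.not_nonempty_iff_eq_empty.1 hne]
      simp
  have hz1 : IsInt (∑ x ∈ C₁, c (pt x 1)) := by
    have h2 := hci 2
    rw [key] at h2
    simpa [pt] using h2
  have hz0 : IsInt (∑ x ∈ arg A₀ ω a, c (pt x 0)) := by
    have h2 := hc
    rw [key] at h2
    have := el_sub h2 hz1
    simpa using this
  have hU := hG a ![fun x => c (pt x 0), c₁]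
  have hU1 : ∀ i : Fin 2, IsInt (∑ x ∈ arg (![A₀, B] i) (![ω, fun x => w' (pt x 1)] i) a,
      (![fun x => c (pt x 0), c₁] : Fin 2 → V → ℝ) i x) := by
    intro i
    fin_cases i
    · simpa using hz0
    · have := hs1 (fun _ => 1)
      simp only [mul_one] at this
      show IsInt (∑ x ∈ arg B (fun x => w' (pt x 1)) a, c₁ x)
      rw [this]
      exact hz1
  have hU2 : IsInt (∑ i : Fin 2, ∑ x ∈ arg (![A₀, B] i) (![ω, fun x => w' (pt x 1)] i) a,
      (![fun x => c (pt x 0), c₁] : Fin 2 → V → ℝ) i x * (x.1 : ℝ)) := by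
    rw [Fin.sum_univ_two]
    have h2 := hci 0
    rw [key] at h2
    show IsInt (∑ x ∈ arg A₀ ω a, c (pt x 0) * (x.1 : ℝ) +
      ∑ x ∈ arg B (fun x => w' (pt x 1)) a, c₁ x * (x.1 : ℝ))
    rw [hs1]
    simpa [pt] using h2
  have hU3 : IsInt (∑ i : Fin 2, ∑ x ∈ arg (![A₀, B] i) (![ω, fun x => w' (pt x 1)] i) a,
      (![fun x => c (pt x 0), c₁] : Fin 2 → V → ℝ) i x * (x.2 : ℝ)) := by
    rw [Fin.sum_univ_two]
    have h2 := hci 1
    rw [key] at h2
    show IsInt (∑ x ∈ arg A₀ ω a, c (pt x 0) * (x.2 : ℝ) +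
      ∑ x ∈ arg B (fun x => w' (pt x 1)) a, c₁ x * (x.2 : ℝ))
    rw [hs1]
    simpa [pt] using h2
  have hfin := hU hU1 hU2 hU3
  intro p hp
  rcases hC2 p hp with h0 | h1
  · have he := el_pt_eta p
    rw [h0] at he
    have hm : (p 0, p 1) ∈ arg A₀ ω a := by
      rw [hC0, he]; exact hp
    have := hfin 0 (p 0, p 1) hm
    have h3 : IsInt (c (pt (p 0, p 1) 0)) := this
    rwa [he] at h3
  · have he := el_pt_eta p
    rw [h1] at he
    have hm : (p 0, p 1) ∈ C₁ := by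
      rw [hC1, he]; exact hp
    have hne : C₁.Nonempty := ⟨_, hm⟩
    have hm' : (p 0, p 1) ∈ arg B (fun x => w' (pt x 1)) a := by
      rw [← hC1arg hne]; exact hm
    have := hfin 1 (p 0, p 1) hm'
    have h3 : IsInt (c₁ (p 0, p 1)) := this
    rw [hc₁, if_pos hne] at h3
    have h4 : IsInt (c (pt (p 0, p 1) 1)) := h3
    rwa [he] at h4

end Pool.Agent.SPR
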