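import Pool.Agent.SPR.Wid
import Pool.Agent.SPK.Stp

/-!
# [SPR-Emp] no empty rows in a direction of minimal width

Coordinates: `e = (u.2, -u.1)`, `f` with `det e f = 1`; `Y p = dot u p - min` (so `0 ≤ Y ≤ w`, `Y p = det e p + const`), `X p = det p f`; every functional `i X + j Y` is of the form `dot n + const`, `n ≠ 0` if `(i, j) ≠ 0`. Suppose that the row `Y = k`, `0 < k < w`, contains no point of `B` (values between are attained at the ends, so this is the negation of the claim).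
`k = 1` (first row above the bottom; by symmetry `u ↦ -u` also `k = w - 1`): `y` from `Side2 B e (-u)`, `Y y = 0`. If `y + e ∈ B`: let `p ∈ B` have `Y p = w = h ≥ 2`, `p = y + a e + h f`; `m = ⌈a / h⌉`; `y + m e + f` is a convex combination of `y, y + e, p` (coefficient of `p`: `1 / h`, of `y + e`: `m - a / h ∈ [0, (h - 1) / h]`), so it is in `B`, contradiction. Second alternative: `p = y + a e + b g`, `q = y - a' e + b' g`, `Y g = 1`, `b, b' ≥ 0`. If `b = 0` then `y + a e ∈ B`, so `y + e ∈ B`; if `b' = 0` then `y - e ∈ B` (use the pair `y - e, y`). Otherwise `a' (p - y) + a (q - y) = (a' b + a b') g` and `(a + a') / (a' b + a b') ≤ 1`, so `y + g` is in the triangle `y, p, q`, so in `B`, in the row `1`, contradiction.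
`2 ≤ k ≤ w - 2`. For `p ∈ B` above (`Y p > k`) and `q ∈ B` below (`Y q < k`) the segment crosses the row `k` at `c(p, q) = (X q (Y p - k) + X p (k - Y q)) / (Y p - Y q)`. All `c(p, q)` lie in one open interval `(m, m + 1)`, `m` integer (an integer `m` with `c(p, q) ≤ m ≤ c(p', q')` gives a lattice point of the row `k` in the convex hull of `p, q, p', q'`). Replace `X` by `X - m`: `0 < c(p, q) < 1`. Let `λ` = minimum over the points above of `X p / (Y p - k)` and `μ` = maximum over the points above of `(X p - 1) / (Y p - k)`. Then above `X ≥ λ (Y - k)`, `X ≤ 1 + μ (Y - k)`, and below `X > - λ (k - Y)`, `X < 1 - μ (k - Y)` (strict). A point with `Y = 0`: `δ := μ - λ < 1 / k`. A point with `Y = w`: `δ ≥ - 1 / a`, `a = w - k`.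
For an integer `t`, the functional `X - t (Y - k)`; let `λ' = λ - t`, `μ' = μ - t`. Its width is
(A) `λ', μ' ≥ 0`: `≤ 1 + μ' a + λ' k`; (B) `μ' ≥ 0 > λ'`: `≤ 1 + δ a < w / k ≤ w / 2` (strictly less than `w`); (C) `λ' ≥ 0 > μ'`: `≤ 1 - δ k ≤ w / a ≤ w / 2`; (D) `λ', μ' < 0`: `≤ 1 - μ' k - λ' a`.
(use that above `1 ≤ Y - k ≤ a` and below `1 ≤ k - Y ≤ k`). Take `t = ⌊min(λ, μ)⌋`: `λ', μ' ≥ 0`, one of them `< 1`. If the other one is `≥ 1`, then `t + 1` is in case (B) or (C): width `< w`, contradiction to `IsWid.min`. Otherwise `λ', μ' ∈ [0, 1)`, `t` is in case (A) and `t + 1` in case (D); the sum of the two bounds is `2 + w + δ (a - k) ≤ w + w / 2 < 2 w` (`δ (a - k) ≤ max(a / k, k / a, 1) - 1`, and `a / k + 1 = w / k ≤ w / 2`, also `2 ≤ w / 2`), so one of them has width `< w`, contradiction.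
-/

open Finset Pool.Agent.SPB Pool.Agent.SPK

set_option autoImplicit false

namespace Pool.Agent.SPR

/-! ### convex combinations -/

private theorem emp_comb {B : Finset V} (hL : LatConv B) {p₁ p₂ p₃ p₄ r : V} (h₁ : p₁ ∈ B) (h₂ : p₂ ∈ B)
    (h₃ : p₃ ∈ B) (h₄ : p₄ ∈ B) {s₁ s₂ s₃ s₄ : ℤ} (k₁ : 0 ≤ s₁) (k₂ : 0 ≤ s₂) (k₃ : 0 ≤ s₃) (k₄ : 0 ≤ s₄)
    (hs : 0 < s₁ + s₂ + s₃ + s₄)
    (e1 : (s₁ + s₂ + s₃ + s₄) * r.1 = s₁ * p₁.1 + s₂ * p₂.1 + s₃ * p₃.1 + s₄ * p₄.1)
    (e2 : (s₁ + s₂ + s₃ + s₄) * r.2 = s₁ * p₁.2 + s₂ * p₂.2 + s₃ * p₃.2 + s₄ * p₄.2) : r ∈ B := by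
  apply hL
  have hN : (0 : ℝ) < (s₁ : ℝ) + s₂ + s₃ + s₄ := by exact_mod_cast hs
  have e1' : ((s₁ : ℝ) + s₂ + s₃ + s₄) * r.1 = s₁ * p₁.1 + s₂ * p₂.1 + s₃ * p₃.1 + s₄ * p₄.1 := by
    exact_mod_cast e1
  have e2' : ((s₁ : ℝ) + s₂ + s₃ + s₄) * r.2 = s₁ * p₁.2 + s₂ * p₂.2 + s₃ * p₃.2 + s₄ * p₄.2 := by
    exact_mod_cast e2
  have r₁ : (0 : ℝ) ≤ s₁ := by exact_mod_cast k₁
  have r₂ : (0 : ℝ) ≤ s₂ := by exact_mod_cast k₂
  have r₃ : (0 : ℝ) ≤ s₃ := by exact_mod_cast k₃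
  have r₄ : (0 : ℝ) ≤ s₄ := by exact_mod_cast k₄
  have mem : ∀ p ∈ B, toR p ∈ convexHull ℝ (toR '' (B : Set V)) := fun p hp =>
    subset_convexHull ℝ _ ⟨p, hp, rfl⟩
  have key := (convex_convexHull ℝ (toR '' (B : Set V))).sum_mem (t := (Finset.univ : Finset (Fin 4)))
    (w := ![(s₁ : ℝ) / (s₁ + s₂ + s₃ + s₄), (s₂ : ℝ) / (s₁ + s₂ + s₃ + s₄), (s₃ : ℝ) / (s₁ + s₂ + s₃ + s₄),
      (s₄ : ℝ) / (s₁ + s₂ + s₃ + s₄)]) (z := ![toR p₁, toR p₂, toR p₃, toR p₄])
    (by
      intro i _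
      fin_cases i
      · exact div_nonneg r₁ hN.le
      · exact div_nonneg r₂ hN.le
      · exact div_nonneg r₃ hN.le
      · exact div_nonneg r₄ hN.le)
    (by
      simp only [Fin.sum_univ_four, Matrix.cons_val]
      field_simp)
    (by
      intro i _
      fin_cases i
      · exact mem _ h₁
      · exact mem _ h₂
      · exact mem _ h₃
      · exact mem _ h₄)
  have heq : (∑ i : Fin 4, (![(s₁ : ℝ) / (s₁ + s₂ + s₃ + s₄), (s₂ : ℝ) / (s₁ + s₂ + s₃ + s₄),
      (s₃ : ℝ) / (s₁ + s₂ + s₃ + s₄), (s₄ : ℝ) / (s₁ + s₂ + s₃ + s₄)] i) •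
      (![toR p₁, toR p₂, toR p₃, toR p₄] i)) = toR r := by
    simp only [Fin.sum_univ_four, Matrix.cons_val]
    ext
    · simp only [toR, Prod.fst_add, Prod.smul_fst, smul_eq_mul]
      field_simp
      linarith
    · simp only [toR, Prod.snd_add, Prod.smul_snd, smul_eq_mul]
      field_simp
      linarith
  rw [heq] at key
  exact key

private theorem emp_comb3 {B : Finset V} (hL : LatConv B) {p₁ p₂ p₃ r : V} (h₁ : p₁ ∈ B) (h₂ : p₂ ∈ B)
    (h₃ : p₃ ∈ B) {s₁ s₂ s₃ : ℤ} (k₁ : 0 ≤ s₁) (k₂ : 0 ≤ s₂) (k₃ : 0 ≤ s₃)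
    (hs : 0 < s₁ + s₂ + s₃)
    (e1 : (s₁ + s₂ + s₃) * r.1 = s₁ * p₁.1 + s₂ * p₂.1 + s₃ * p₃.1)
    (e2 : (s₁ + s₂ + s₃) * r.2 = s₁ * p₁.2 + s₂ * p₂.2 + s₃ * p₃.2) : r ∈ B :=
  emp_comb hL h₁ h₂ h₃ h₃ k₁ k₂ k₃ le_rfl (by linarith) (by linear_combination e1) (by linear_combination e2)

private theorem emp_add (n x y : V) : dot n (x + y) = dot n x + dot n y := by
  unfold dot
  simp only [Prod.fst_add, Prod.snd_add]
  ring

private theorem emp_sub (n x y : V) : dot n (x - y) = dot n x - dot n y := by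
  unfold dot
  simp only [Prod.fst_sub, Prod.snd_sub]
  ring

private theorem emp_smul (n x : V) (t : ℤ) : dot n (t • x) = t * dot n x := by
  unfold dot
  simp only [Prod.smul_fst, Prod.smul_snd, smul_eq_mul]
  ring

/-! ### the first row -/

private theorem emp_first {B : Finset V} (hL : LatConv B) {e u f : V} (hu : dot u e = 0) (hf : dot u f = -1)
    (hgen : ∀ x : V, ∃ i j : ℤ, x = i • e + j • f) {y p : V} (hy : y ∈ B) (hye : y + e ∈ B) (hp : p ∈ B)
    (hpy : dot u p < dot u y) : ∃ q ∈ B, dot u q = dot u y - 1 := by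
  obtain ⟨a, h, hah⟩ := hgen (p - y)
  have hh : h = dot u y - dot u p := by
    have h1 : dot u (p - y) = dot u (a • e + h • f) := by rw [hah]
    rw [emp_sub, emp_add, emp_smul, emp_smul, hu, hf] at h1
    linarith
  have hh1 : 1 ≤ h := by linarith
  -- the ceiling of a / h
  obtain ⟨m, hm1, hm2⟩ : ∃ m : ℤ, 0 ≤ m * h - a ∧ m * h - a ≤ h - 1 := by
    refine ⟨-((-a) / h), ?_, ?_⟩
    · have := Int.ediv_mul_le (-a) (show h ≠ 0 by omega)
      linarith
    · have := Int.lt_ediv_add_one_mul_self (-a) (show 0 < h by omega)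
      nlinarith
  refine ⟨y + m • e + f, ?_, ?_⟩
  · have e1 : p.1 = y.1 + a * e.1 + h * f.1 := by
      have := congrArg Prod.fst hah
      simp only [Prod.fst_sub, Prod.fst_add, Prod.smul_fst, smul_eq_mul] at this
      linarith
    have e2 : p.2 = y.2 + a * e.2 + h * f.2 := by
      have := congrArg Prod.snd hah
      simp only [Prod.snd_sub, Prod.snd_add, Prod.smul_snd, smul_eq_mul] at this
      linarith
    refine emp_comb3 hL hp hy hye (s₁ := 1) (s₂ := h - 1 - (m * h - a)) (s₃ := m * h - a) (by norm_num)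
      (by linarith) hm1 (by linarith) ?_ ?_
    · simp only [Prod.fst_add, Prod.smul_fst, smul_eq_mul]
      rw [e1]
      ring
    · simp only [Prod.snd_add, Prod.smul_snd, smul_eq_mul]
      rw [e2]
      ring
  · rw [emp_add, emp_add, emp_smul, hu, hf]
    ring

private theorem emp_side {B : Finset V} (hL : LatConv B) {e u f : V} (hu : dot u e = 0) (hf : dot u f = -1)
    (hgen : ∀ x : V, ∃ i j : ℤ, x = i • e + j • f) (hS : Side2 B e u) {M : ℤ} (hM : ∀ x ∈ B, dot u x ≤ M)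
    (hM' : ∃ x ∈ B, dot u x = M) (hp : ∃ p ∈ B, dot u p < M) : ∃ q ∈ B, dot u q = M - 1 := by
  obtain ⟨y, hy, hymax, hcase⟩ := hS
  obtain ⟨x, hx, hxM⟩ := hM'
  obtain ⟨p, hp, hpM⟩ := hp
  have hyM : dot u y = M := le_antisymm (hM y hy) (by rw [← hxM]; exact hymax x hx)
  rcases hcase with hye | ⟨g, a, a', b, b', hg, ha, ha', h1, h2⟩
  · rw [← hyM]
    exact emp_first hL hu hf hgen hy hye hp (by rw [hyM]; exact hpM)
  · have hb : 0 ≤ b := by
      have := hM _ h1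
      rw [emp_add, emp_add, emp_smul, emp_smul, hu, hg] at this
      linarith
    have hb' : 0 ≤ b' := by
      have := hM _ h2
      rw [emp_add, emp_sub, emp_smul, emp_smul, hu, hg] at this
      linarith
    rcases eq_or_lt_of_le hb with hb0 | hb0
    · -- the point y + e
      have hye : y + e ∈ B := by
        refine emp_comb3 hL h1 hy hy (s₁ := 1) (s₂ := a - 1) (s₃ := 0) (by norm_num) (by linarith) le_rfl
          (by linarith) ?_ ?_
        · rw [← hb0]
          simp only [Prod.fst_add, Prod.smul_fst, smul_eq_mul]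
          ring
        · rw [← hb0]
          simp only [Prod.snd_add, Prod.smul_snd, smul_eq_mul]
          ring
      rw [← hyM]
      exact emp_first hL hu hf hgen hy hye hp (by rw [hyM]; exact hpM)
    rcases eq_or_lt_of_le hb' with hb0' | hb0'
    · have hye : y - e ∈ B := by
        refine emp_comb3 hL h2 hy hy (s₁ := 1) (s₂ := a' - 1) (s₃ := 0) (by norm_num) (by linarith) le_rfl
          (by linarith) ?_ ?_
        · rw [← hb0']
          simp only [Prod.fst_add, Prod.fst_sub, Prod.smul_fst, smul_eq_mul]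
          ring
        · rw [← hb0']
          simp only [Prod.snd_add, Prod.snd_sub, Prod.smul_snd, smul_eq_mul]
          ring
      have hyM' : dot u (y - e) = M := by
        rw [emp_sub, hu, hyM]
        ring
      rw [← hyM']
      exact emp_first hL hu hf hgen hye (by rw [sub_add_cancel]; exact hy) hp (by rw [hyM']; exact hpM)
    · refine ⟨y + g, ?_, ?_⟩
      · have hN : a + a' ≤ a' * b + a * b' := by nlinarith
        refine emp_comb3 hL h1 h2 hy (s₁ := a') (s₂ := a) (s₃ := a' * b + a * b' - a - a') (by linarith)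
          (by linarith) (by linarith) (by linarith) ?_ ?_
        · simp only [Prod.fst_add, Prod.fst_sub, Prod.smul_fst, smul_eq_mul]
          ring
        · simp only [Prod.snd_add, Prod.snd_sub, Prod.smul_snd, smul_eq_mul]
          ring
      · rw [emp_add, hg, hyM]
        ring

/-! ### the middle rows -/

private theorem emp_w1 {α β δ : ℚ} (hα : 2 ≤ α) (hβ : 2 ≤ β) (h1 : δ * β < 1) : 1 + δ * α < α + β := by
  by_contra hc
  rw [not_lt] at hc
  have h2 : (α + β) * β ≤ (1 + δ * α) * β := mul_le_mul_of_nonneg_right hc (by linarith)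
  nlinarith

private theorem emp_w2 {α β δ : ℚ} (hα : 2 ≤ α) (hβ : 2 ≤ β) (h1 : -1 ≤ δ * α) : 1 - δ * β < α + β := by
  by_contra hc
  rw [not_lt] at hc
  have h2 : (α + β) * α ≤ (1 - δ * β) * α := mul_le_mul_of_nonneg_right hc (by linarith)
  nlinarith

private theorem emp_w3 {α β δ : ℚ} (hα : 2 ≤ α) (hβ : 2 ≤ β) (h1 : δ * β < 1) (h2 : -1 ≤ δ * α) :
    2 + δ * (α - β) < α + β := by
  rcases le_total β α with h | h
  · by_contra hc
    rw [not_lt] at hc
    have h3 : (α + β) * β ≤ (2 + δ * (α - β)) * β := mul_le_mul_of_nonneg_right hc (by linarith)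
    have h4 : (δ * β) * (α - β) ≤ 1 * (α - β) := mul_le_mul_of_nonneg_right h1.le (by linarith)
    nlinarith
  · by_contra hc
    rw [not_lt] at hc
    have h3 : (α + β) * α ≤ (2 + δ * (α - β)) * α := mul_le_mul_of_nonneg_right hc (by linarith)
    have h4 : -1 * (β - α) ≤ (δ * α) * (β - α) := mul_le_mul_of_nonneg_right h2 (by linarith)
    nlinarith

private theorem emp_mid {U D : Finset (ℤ × ℤ)} {α β : ℤ} (hα : 2 ≤ α) (hβ : 2 ≤ β)
    (hU : ∀ p ∈ U, 1 ≤ p.2 ∧ p.2 ≤ α) (hD : ∀ q ∈ D, 1 ≤ q.2 ∧ q.2 ≤ β)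
    (hU' : ∃ p ∈ U, p.2 = α) (hD' : ∃ q ∈ D, q.2 = β)
    (hc : ∀ p ∈ U, ∀ q ∈ D, 0 < q.1 * p.2 + p.1 * q.2 ∧ q.1 * p.2 + p.1 * q.2 < p.2 + q.2) :
    ∃ (t : ℤ) (lo hi : ℚ), hi - lo < (α : ℚ) + β ∧
      (∀ p ∈ U, lo ≤ (p.1 : ℚ) - t * p.2 ∧ (p.1 : ℚ) - t * p.2 ≤ hi) ∧
      (∀ q ∈ D, lo ≤ (q.1 : ℚ) + t * q.2 ∧ (q.1 : ℚ) + t * q.2 ≤ hi) := by
  obtain ⟨p₀, hp₀, hp₀α⟩ := hU'
  obtain ⟨q₀, hq₀, hq₀β⟩ := hD'
  have pos : ∀ p ∈ U, (1 : ℚ) ≤ p.2 ∧ (p.2 : ℚ) ≤ α := fun p hp =>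
    ⟨by exact_mod_cast (hU p hp).1, by exact_mod_cast (hU p hp).2⟩
  have pos' : ∀ p ∈ D, (1 : ℚ) ≤ p.2 ∧ (p.2 : ℚ) ≤ β := fun p hp =>
    ⟨by exact_mod_cast (hD p hp).1, by exact_mod_cast (hD p hp).2⟩
  have hc' : ∀ p ∈ U, ∀ q ∈ D, (0 : ℚ) < q.1 * p.2 + p.1 * q.2 ∧ (q.1 : ℚ) * p.2 + p.1 * q.2 < p.2 + q.2 :=
    fun p hp q hq => ⟨by exact_mod_cast (hc p hp q hq).1, by exact_mod_cast (hc p hp q hq).2⟩
  obtain ⟨pl, hpl, hlmin⟩ := U.exists_min_image (fun p => (p.1 : ℚ) / p.2) ⟨p₀, hp₀⟩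
  obtain ⟨pm, hpm, hmmax⟩ := U.exists_max_image (fun p => ((p.1 : ℚ) - 1) / p.2) ⟨p₀, hp₀⟩
  obtain ⟨l, hl⟩ : ∃ l : ℚ, l = (pl.1 : ℚ) / pl.2 := ⟨_, rfl⟩
  obtain ⟨m, hm⟩ : ∃ m : ℚ, m = ((pm.1 : ℚ) - 1) / pm.2 := ⟨_, rfl⟩
  have hl' : (pl.1 : ℚ) = l * pl.2 := by
    rw [hl, div_mul_cancel₀]
    have := (pos pl hpl).1
    linarith
  have hm' : (pm.1 : ℚ) = 1 + m * pm.2 := by
    rw [hm, div_mul_cancel₀]
    · ring
    · have := (pos pm hpm).1
      linarith
  have A1 : ∀ p ∈ U, l * p.2 ≤ p.1 := by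
    intro p hp
    have h1 := hlmin p hp
    rw [← hl, le_div_iff₀ (by linarith [(pos p hp).1])] at h1
    exact h1
  have A2 : ∀ p ∈ U, (p.1 : ℚ) ≤ 1 + m * p.2 := by
    intro p hp
    have h1 := hmmax p hp
    rw [← hm, div_le_iff₀ (by linarith [(pos p hp).1])] at h1
    linarith
  have D1 : ∀ q ∈ D, -(l * q.2) < (q.1 : ℚ) := by
    intro q hq
    have h1 := (hc' pl hpl q hq).1
    rw [hl'] at h1
    have h2 := (pos pl hpl).1
    by_contra hcon
    rw [not_lt] at hcon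
    have h3 : ((q.1 : ℚ) + l * q.2) * pl.2 ≤ 0 :=
      mul_nonpos_of_nonpos_of_nonneg (by linarith) (by linarith)
    linarith
  have D2 : ∀ q ∈ D, (q.1 : ℚ) < 1 - m * q.2 := by
    intro q hq
    have h1 := (hc' pm hpm q hq).2
    rw [hm'] at h1
    have h2 := (pos pm hpm).1
    by_contra hcon
    rw [not_lt] at hcon
    have h3 : 0 ≤ ((q.1 : ℚ) - 1 + m * q.2) * pm.2 := mul_nonneg (by linarith) (by linarith)
    linarith
  have hα' : (2 : ℚ) ≤ α := by exact_mod_cast hα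
  have hβ' : (2 : ℚ) ≤ β := by exact_mod_cast hβ
  have δ1 : (m - l) * β < 1 := by
    have h1 := D1 q₀ hq₀
    have h2 := D2 q₀ hq₀
    rw [hq₀β] at h1 h2
    linarith
  have δ2 : -1 ≤ (m - l) * α := by
    have h1 := A1 p₀ hp₀
    have h2 := A2 p₀ hp₀
    rw [hp₀α] at h1 h2
    linarith
  -- the four cases
  have CA : ∀ t : ℤ, 0 ≤ l - t → 0 ≤ m - t → 1 + (m - t) * α + (l - t) * β < (α : ℚ) + β →
      ∃ (t : ℤ) (lo hi : ℚ), hi - lo < (α : ℚ) + β ∧
      (∀ p ∈ U, lo ≤ (p.1 : ℚ) - t * p.2 ∧ (p.1 : ℚ) - t * p.2 ≤ hi) ∧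
      (∀ q ∈ D, lo ≤ (q.1 : ℚ) + t * q.2 ∧ (q.1 : ℚ) + t * q.2 ≤ hi) := by
    intro t h1 h2 h3
    refine ⟨t, -((l - t) * β), 1 + (m - t) * α, by linarith, fun p hp => ?_, fun q hq => ?_⟩
    · have k1 := A1 p hp
      have k2 := A2 p hp
      obtain ⟨k3, k4⟩ := pos p hp
      have k5 : 0 ≤ (l - t) * p.2 := mul_nonneg h1 (by linarith)
      have k6 : 0 ≤ (l - t) * β := mul_nonneg h1 (by linarith)
      have k7 : (m - t) * p.2 ≤ (m - t) * α := mul_le_mul_of_nonneg_left k4 h2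
      constructor <;> linarith
    · have k1 := D1 q hq
      have k2 := D2 q hq
      obtain ⟨k3, k4⟩ := pos' q hq
      have k5 : 0 ≤ (m - t) * q.2 := mul_nonneg h2 (by linarith)
      have k6 : 0 ≤ (m - t) * α := mul_nonneg h2 (by linarith)
      have k7 : (l - t) * q.2 ≤ (l - t) * β := mul_le_mul_of_nonneg_left k4 h1
      constructor <;> linarith
  have CB : ∀ t : ℤ, l - t ≤ 0 → 0 ≤ m - t → 1 + (m - l) * α < (α : ℚ) + β →
      ∃ (t : ℤ) (lo hi : ℚ), hi - lo < (α : ℚ) + β ∧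
      (∀ p ∈ U, lo ≤ (p.1 : ℚ) - t * p.2 ∧ (p.1 : ℚ) - t * p.2 ≤ hi) ∧
      (∀ q ∈ D, lo ≤ (q.1 : ℚ) + t * q.2 ∧ (q.1 : ℚ) + t * q.2 ≤ hi) := by
    intro t h1 h2 h3
    refine ⟨t, (l - t) * α, 1 + (m - t) * α, by linarith, fun p hp => ?_, fun q hq => ?_⟩
    · have k1 := A1 p hp
      have k2 := A2 p hp
      obtain ⟨k3, k4⟩ := pos p hp
      have k5 : (l - t) * α ≤ (l - t) * p.2 := mul_le_mul_of_nonpos_left k4 h1
      have k7 : (m - t) * p.2 ≤ (m - t) * α := mul_le_mul_of_nonneg_left k4 h2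
      constructor <;> linarith
    · have k1 := D1 q hq
      have k2 := D2 q hq
      obtain ⟨k3, k4⟩ := pos' q hq
      have k5 : 0 ≤ (m - t) * q.2 := mul_nonneg h2 (by linarith)
      have k6 : 0 ≤ (m - t) * α := mul_nonneg h2 (by linarith)
      have k7 : (l - t) * q.2 ≤ 0 := mul_nonpos_of_nonpos_of_nonneg h1 (by linarith)
      have k8 : (l - t) * α ≤ 0 := mul_nonpos_of_nonpos_of_nonneg h1 (by linarith)
      constructor <;> linarith
  have CC : ∀ t : ℤ, 0 ≤ l - t → m - t ≤ 0 → 1 - (m - l) * β < (α : ℚ) + β →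
      ∃ (t : ℤ) (lo hi : ℚ), hi - lo < (α : ℚ) + β ∧
      (∀ p ∈ U, lo ≤ (p.1 : ℚ) - t * p.2 ∧ (p.1 : ℚ) - t * p.2 ≤ hi) ∧
      (∀ q ∈ D, lo ≤ (q.1 : ℚ) + t * q.2 ∧ (q.1 : ℚ) + t * q.2 ≤ hi) := by
    intro t h1 h2 h3
    refine ⟨t, -((l - t) * β), 1 - (m - t) * β, by linarith, fun p hp => ?_, fun q hq => ?_⟩
    · have k1 := A1 p hp
      have k2 := A2 p hp
      obtain ⟨k3, k4⟩ := pos p hp
      have k5 : 0 ≤ (l - t) * p.2 := mul_nonneg h1 (by linarith)
      have k6 : 0 ≤ (l - t) * β := mul_nonneg h1 (by linarith)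
      have k7 : (m - t) * p.2 ≤ 0 := mul_nonpos_of_nonpos_of_nonneg h2 (by linarith)
      have k8 : (m - t) * β ≤ 0 := mul_nonpos_of_nonpos_of_nonneg h2 (by linarith)
      constructor <;> linarith
    · have k1 := D1 q hq
      have k2 := D2 q hq
      obtain ⟨k3, k4⟩ := pos' q hq
      have k5 : (m - t) * β ≤ (m - t) * q.2 := mul_le_mul_of_nonpos_left k4 h2
      have k7 : (l - t) * q.2 ≤ (l - t) * β := mul_le_mul_of_nonneg_left k4 h1
      constructor <;> linarith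
  have CD : ∀ t : ℤ, l - t ≤ 0 → m - t ≤ 0 → 1 - (m - t) * β - (l - t) * α < (α : ℚ) + β →
      ∃ (t : ℤ) (lo hi : ℚ), hi - lo < (α : ℚ) + β ∧
      (∀ p ∈ U, lo ≤ (p.1 : ℚ) - t * p.2 ∧ (p.1 : ℚ) - t * p.2 ≤ hi) ∧
      (∀ q ∈ D, lo ≤ (q.1 : ℚ) + t * q.2 ∧ (q.1 : ℚ) + t * q.2 ≤ hi) := by
    intro t h1 h2 h3
    refine ⟨t, (l - t) * α, 1 - (m - t) * β, by linarith, fun p hp => ?_, fun q hq => ?_⟩
    · have k1 := A1 p hp
      have k2 := A2 p hp
      obtain ⟨k3, k4⟩ := pos p hp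
      have k5 : (l - t) * α ≤ (l - t) * p.2 := mul_le_mul_of_nonpos_left k4 h1
      have k7 : (m - t) * p.2 ≤ 0 := mul_nonpos_of_nonpos_of_nonneg h2 (by linarith)
      have k8 : (m - t) * β ≤ 0 := mul_nonpos_of_nonpos_of_nonneg h2 (by linarith)
      constructor <;> linarith
    · have k1 := D1 q hq
      have k2 := D2 q hq
      obtain ⟨k3, k4⟩ := pos' q hq
      have k5 : (m - t) * β ≤ (m - t) * q.2 := mul_le_mul_of_nonpos_left k4 h2
      have k7 : (l - t) * q.2 ≤ 0 := mul_nonpos_of_nonpos_of_nonneg h1 (by linarith)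
      have k8 : (l - t) * α ≤ 0 := mul_nonpos_of_nonpos_of_nonneg h1 (by linarith)
      constructor <;> linarith
  obtain ⟨t, ht⟩ : ∃ t : ℤ, t = ⌊min l m⌋ := ⟨_, rfl⟩
  have t1 : (t : ℚ) ≤ min l m := by
    rw [ht]
    exact Int.floor_le _
  have t2 : min l m < (t : ℚ) + 1 := by
    rw [ht]
    exact Int.lt_floor_add_one _
  have tl : (t : ℚ) ≤ l := t1.trans (min_le_left _ _)
  have tm : (t : ℚ) ≤ m := t1.trans (min_le_right _ _)
  have w1 := emp_w1 hα' hβ' δ1
  have w2 := emp_w2 hα' hβ' δ2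
  have w3 := emp_w3 hα' hβ' δ1 δ2
  rcases lt_or_ge l ((t : ℚ) + 1) with h1 | h1
  · rcases lt_or_ge m ((t : ℚ) + 1) with h2 | h2
    · by_cases h3 : 1 + (m - t) * α + (l - t) * β < (α : ℚ) + β
      · exact CA t (by linarith) (by linarith) h3
      · refine CD (t + 1) ?_ ?_ ?_
        · push_cast
          linarith
        · push_cast
          linarith
        · push_cast
          rw [not_lt] at h3
          linarith
    · refine CB (t + 1) ?_ ?_ w1
      · push_cast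
        linarith
      · push_cast
        linarith
  · have h2 : m < (t : ℚ) + 1 := by
      rcases min_lt_iff.1 t2 with h | h
      · linarith
      · exact h
    refine CC (t + 1) ?_ ?_ w2
    · push_cast
      linarith
    · push_cast
      linarith

/-- the crossing with an integer point of the row -/
private theorem emp_cross {B : Finset V} (hL : LatConv B) {e f : V} {X Y : V → ℤ}
    (hc1 : ∀ x : V, x.1 = X x * e.1 + Y x * f.1) (hc2 : ∀ x : V, x.2 = X x * e.2 + Y x * f.2) {k m : ℤ}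
    {p q p' q' : V} (hp : p ∈ B) (hq : q ∈ B) (hp' : p' ∈ B) (hq' : q' ∈ B) (h1 : k < Y p) (h2 : Y q < k)
    (h1' : k < Y p') (h2' : Y q' < k) (hm : X q * (Y p - k) + X p * (k - Y q) ≤ m * (Y p - Y q))
    (hm' : m * (Y p' - Y q') ≤ X q' * (Y p' - k) + X p' * (k - Y q')) : m • e + k • f ∈ B := by
  obtain ⟨s, hs⟩ : ∃ s, s = m * (Y p - Y q) - (X q * (Y p - k) + X p * (k - Y q)) := ⟨_, rfl⟩
  obtain ⟨s', hs'⟩ : ∃ s', s' = X q' * (Y p' - k) + X p' * (k - Y q') - m * (Y p' - Y q') := ⟨_, rfl⟩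
  have s0 : 0 ≤ s := by linarith
  have s0' : 0 ≤ s' := by linarith
  have c1 : (m • e + k • f).1 = m * e.1 + k * f.1 := by
    simp only [Prod.fst_add, Prod.smul_fst, smul_eq_mul]
  have c2 : (m • e + k • f).2 = m * e.2 + k * f.2 := by
    simp only [Prod.snd_add, Prod.smul_snd, smul_eq_mul]
  rcases eq_or_lt_of_le s0 with h0 | h0
  · refine emp_comb3 hL hq hp hp (s₁ := Y p - k) (s₂ := k - Y q) (s₃ := 0) (by linarith) (by linarith) le_rfl
      (by linarith) ?_ ?_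
    · rw [c1, hc1 q, hc1 p]
      linear_combination e.1 * (h0.trans hs).symm
    · rw [c2, hc2 q, hc2 p]
      linear_combination e.2 * (h0.trans hs).symm
  · refine emp_comb hL hq hp hq' hp' (s₁ := s' * (Y p - k)) (s₂ := s' * (k - Y q)) (s₃ := s * (Y p' - k))
      (s₄ := s * (k - Y q')) (mul_nonneg s0' (by linarith)) (mul_nonneg s0' (by linarith))
      (mul_nonneg s0 (by linarith)) (mul_nonneg s0 (by linarith)) ?_ ?_ ?_
    · have k1 : 0 ≤ s' * (Y p - k) := mul_nonneg s0' (by linarith)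
      have k2 : 0 ≤ s' * (k - Y q) := mul_nonneg s0' (by linarith)
      have k3 : 0 < s * (Y p' - k) := mul_pos h0 (by linarith)
      have k4 : 0 < s * (k - Y q') := mul_pos h0 (by linarith)
      linarith
    · rw [c1, hc1 q, hc1 p, hc1 q', hc1 p', hs, hs']
      ring
    · rw [c2, hc2 q, hc2 p, hc2 q', hc2 p', hs, hs']
      ring

theorem emp {B : Finset V} (hL : LatConv B) {u : V} {w : ℤ} (h : IsWid B u w) (h1 : Side2 B (u.2, -u.1) u)
    (h2 : Side2 B (u.2, -u.1) (-u)) : RowsOK B (u.2, -u.1) := by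
  classical
  obtain ⟨a, b, hab⟩ := h.prim
  obtain ⟨p, hp, q, hq, hpq, hbd⟩ := h.at_
  obtain ⟨e, he⟩ : ∃ e : V, e = (u.2, -u.1) := ⟨_, rfl⟩
  obtain ⟨f, hf⟩ : ∃ f : V, f = (a, b) := ⟨_, rfl⟩
  rw [← he] at h1 h2 ⊢
  have hdet : ∀ x, det e x = dot u x := by
    intro x
    rw [he]
    unfold det dot
    simp only
    ring
  have hue : dot u e = 0 := by
    rw [he]
    unfold dot
    simp only
    ring
  have huf : dot u f = 1 := by
    rw [hf]
    unfold dot
    simp only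
    linarith
  have hef : det e f = 1 := by rw [hdet, huf]
  have hef' : e.1 * f.2 - e.2 * f.1 = 1 := hef
  have hc1 : ∀ x : V, x.1 = det x f * e.1 + dot u x * f.1 := by
    intro x
    rw [← hdet]
    unfold det
    linear_combination (-x.1) * hef'
  have hc2 : ∀ x : V, x.2 = det x f * e.2 + dot u x * f.2 := by
    intro x
    rw [← hdet]
    unfold det
    linear_combination (-x.2) * hef'
  have hgen : ∀ x : V, ∃ i j : ℤ, x = i • e + j • f := by
    intro x
    refine ⟨det x f, dot u x, ?_⟩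
    ext
    · simp only [Prod.fst_add, Prod.smul_fst, smul_eq_mul]
      exact hc1 x
    · simp only [Prod.snd_add, Prod.smul_snd, smul_eq_mul]
      exact hc2 x
  have hneg : ∀ x, dot (-u) x = - dot u x := by
    intro x
    unfold dot
    simp only [Prod.fst_neg, Prod.snd_neg]
    ring
  intro x hx y hy k k1 k2
  rw [hdet] at k1 k2
  by_contra hcon
  push Not at hcon
  have hne : ∀ r ∈ B, dot u r ≠ k := fun r hr h => hcon r hr (by rw [hdet, h])
  have kq : dot u q < k := lt_of_le_of_ne ((hbd x hx).1.trans k1) (hne q hq)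
  have kp : k < dot u p := lt_of_le_of_ne (k2.trans (hbd y hy).2) (hne p hp).symm
  -- the rows next to the extreme ones
  have kq' : k ≠ dot u q + 1 := by
    intro hk
    obtain ⟨r, hr, hr'⟩ := emp_side hL (e := e) (u := -u) (f := f) (by rw [hneg, hue]; rfl)
      (by rw [hneg, huf]) hgen h2 (M := - dot u q) (fun z hz => by
        rw [hneg]
        linarith [(hbd z hz).1]) ⟨q, hq, by rw [hneg]⟩ ⟨p, hp, by rw [hneg]; linarith⟩
    rw [hneg] at hr'
    exact hne r hr (by linarith)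
  have kp' : k ≠ dot u p - 1 := by
    intro hk
    obtain ⟨r, hr, hr'⟩ := emp_side hL (e := e) (u := u) (f := -f) hue
      (by
        have : dot u (-f) = - dot u f := by
          unfold dot
          simp only [Prod.fst_neg, Prod.snd_neg]
          ring
        rw [this, huf])
      (fun z => by
        obtain ⟨i, j, hij⟩ := hgen z
        exact ⟨i, -j, by rw [hij, neg_smul, smul_neg, neg_neg]⟩) h1 (M := dot u p)
      (fun z hz => (hbd z hz).2) ⟨p, hp, rfl⟩ ⟨q, hq, by linarith⟩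
    exact hne r hr (by linarith)
  have kq2 : dot u q + 2 ≤ k := by omega
  have kp2 : k + 2 ≤ dot u p := by omega
  -- the crossings
  obtain ⟨m, hm⟩ : ∃ m : ℤ, m = (det q f * (dot u p - k) + det p f * (k - dot u q)) / (dot u p - dot u q) :=
    ⟨_, rfl⟩
  have hD0 : 0 < dot u p - dot u q := by linarith
  have m1 : m * (dot u p - dot u q) ≤ det q f * (dot u p - k) + det p f * (k - dot u q) := by
    rw [hm]
    exact Int.ediv_mul_le _ (by omega)
  have m2 : det q f * (dot u p - k) + det p f * (k - dot u q) ≤ (m + 1) * (dot u p - dot u q) := by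
    rw [hm]
    exact (Int.lt_ediv_add_one_mul_self _ hD0).le
  have hrow : ∀ i : ℤ, i • e + k • f ∉ B := by
    intro i hi
    refine hne _ hi ?_
    rw [emp_add, emp_smul, emp_smul, hue, huf]
    ring
  have hcr1 : ∀ p' ∈ B, ∀ q' ∈ B, k < dot u p' → dot u q' < k →
      m * (dot u p' - dot u q') < det q' f * (dot u p' - k) + det p' f * (k - dot u q') := by
    intro p' hp' q' hq' j1 j2
    by_contra hcc
    rw [not_lt] at hcc
    exact hrow m (emp_cross hL (X := fun x => det x f) (Y := fun x => dot u x) hc1 hc2 hp' hq' hp hq j1 j2 kp kq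
      hcc m1)
  have hcr2 : ∀ p' ∈ B, ∀ q' ∈ B, k < dot u p' → dot u q' < k →
      det q' f * (dot u p' - k) + det p' f * (k - dot u q') < (m + 1) * (dot u p' - dot u q') := by
    intro p' hp' q' hq' j1 j2
    by_contra hcc
    rw [not_lt] at hcc
    exact hrow (m + 1) (emp_cross hL (X := fun x => det x f) (Y := fun x => dot u x) hc1 hc2 hp hq hp' hq' kp kq
      j1 j2 m2 hcc)
  obtain ⟨t, lo, hi, hw, hUp, hDn⟩ := emp_mid
    (U := (B.filter (fun x => k < dot u x)).image (fun x => (det x f - m, dot u x - k)))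
    (D := (B.filter (fun x => dot u x < k)).image (fun x => (det x f - m, k - dot u x)))
    (α := dot u p - k) (β := k - dot u q) (by linarith) (by linarith)
    (by
      intro z hz
      rw [Finset.mem_image] at hz
      obtain ⟨v, hv, rfl⟩ := hz
      rw [Finset.mem_filter] at hv
      have := (hbd v hv.1).2
      simp only
      omega)
    (by
      intro z hz
      rw [Finset.mem_image] at hz
      obtain ⟨v, hv, rfl⟩ := hz
      rw [Finset.mem_filter] at hv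
      have := (hbd v hv.1).1
      simp only
      omega)
    ⟨_, Finset.mem_image_of_mem _ (Finset.mem_filter.2 ⟨hp, kp⟩), rfl⟩
    ⟨_, Finset.mem_image_of_mem _ (Finset.mem_filter.2 ⟨hq, kq⟩), rfl⟩
    (by
      intro z hz z' hz'
      rw [Finset.mem_image] at hz hz'
      obtain ⟨v, hv, rfl⟩ := hz
      obtain ⟨v', hv', rfl⟩ := hz'
      rw [Finset.mem_filter] at hv hv'
      have i1 := hcr1 v hv.1 v' hv'.1 hv.2 hv'.2
      have i2 := hcr2 v hv.1 v' hv'.1 hv.2 hv'.2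
      simp only
      constructor <;> linarith)
  -- the functional
  obtain ⟨n, hn⟩ : ∃ n : V, n = (f.2 - t * u.1, -f.1 - t * u.2) := ⟨_, rfl⟩
  have hdn : ∀ x, dot n x = det x f - t * dot u x := by
    intro x
    rw [hn]
    unfold dot det
    simp only
    ring
  have hn0 : n ≠ 0 := by
    intro h0
    have h3 := hdn e
    rw [hef, hue, h0] at h3
    unfold dot at h3
    simp at h3
  obtain ⟨p₁, hp₁, q₁, hq₁, hwid⟩ := h.min n hn0
  have hall : ∀ x ∈ B, lo ≤ (dot n x : ℚ) + t * k - m ∧ (dot n x : ℚ) + t * k - m ≤ hi := by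
    intro x hx
    rcases lt_or_gt_of_ne (hne x hx) with hlt | hgt
    · have h3 := hDn _ (Finset.mem_image_of_mem _ (Finset.mem_filter.2 ⟨hx, hlt⟩))
      simp only at h3
      rw [hdn]
      push_cast at h3 ⊢
      constructor <;> linarith [h3.1, h3.2]
    · have h3 := hUp _ (Finset.mem_image_of_mem _ (Finset.mem_filter.2 ⟨hx, hgt⟩))
      simp only at h3
      rw [hdn]
      push_cast at h3 ⊢
      constructor <;> linarith [h3.1, h3.2]
  have h3 := (hall p₁ hp₁).2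
  have h4 := (hall q₁ hq₁).1
  have h5 : (w : ℚ) ≤ dot n p₁ - dot n q₁ := by exact_mod_cast hwid
  have h6 : (w : ℚ) = dot u p - dot u q := by exact_mod_cast hpq.symm
  push_cast at hw
  linarith

end Pool.Agent.SPR
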