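import Pool.Agent.SPR.Fs

/-!
# [SPR-Ext2] facets with a horizontal direction

`D = Face A n c`, the height of `x + i E + j G` is `j`. `e 2 = 0`. `e` is a combination of `E` and `G`: if `y + e ∈ up D` clear (`mem`); otherwise with `p = y + a e + b g`, `q = y - a' e + b' g`: if `b = 0` then `a e = p - y`, otherwise `(a b' + a' b) e = b' (p - y) - b (q - y)` (`b, b' ≥ 0` are differences of values of `u`). So (with `FS.dual` and `e 2 = 0`) `e = a₁ E` for an integer `a₁` (a rational multiple of `E`; `E` is part of a basis), and `v(e) = 1` gives `a₁ = ± 1`.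
In `up D`: `u(E) = 0`, `u(x + i E + j G) = u(x) + j u(G)`; `u` takes two different values on `up D` and all values between, so `u(G) = ± 1`. So the functional `±u` is the height on `D` up to a constant; the heights of the points of `up D` are all the numbers from `1` to some `H`. Take `u₂ = ![0, 0, 1]`. `Side D E u₂` from `Side (up D) e (± u)` with the sign for which `±u(G) = 1`: `y` (height `H ≥ 1`; all points of `D` have height `≤ H`); if `y + e ∈ D` and `e = E` fine, if `e = -E` use `y - E`, `y`; second alternative: `g` with `u₂(g) = -1` (`(±u)(g) = -1`: `p - y = a e + b g` and `q - y = - a' e + b' g` are combinations of `E` and `G`; if `b ≠ 0` or `b' ≠ 0` then `g` is a combination `g₁ E + g₂ G`, `±u(g) = g₂ = -1`, so `g 2 = g₂ = -1`; if `b = b' = 0` then take `-G` instead of `g` (`u₂(-G) = -1`), the two points are the same). Exchange `a, b` and `a', b'` if `e = -E`.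
`Side D E (-u₂)`: `y = x`, `x + E ∈ D` (`row0`, `ℓ ≥ 1`). Rows: heights from `0` to `H`.
-/

open Finset Pool.Agent.SPB Pool.Agent.SPK

set_option autoImplicit false

namespace Pool.Agent.SPR

variable {A : Finset W} {n : W} {c : ℤ} {x E E' E'' G : W} {ℓ κ : ℤ}

private theorem ext2_face {A : Finset W} {n : W} {c : ℤ} {y : W} :
    y ∈ Face A n c ↔ y ∈ A ∧ d3 n y = c := by
  classical
  simp only [Face, Finset.mem_filter]

private theorem ext2_up {A : Finset W} {y : W} : y ∈ up A ↔ y ∈ A ∧ 1 ≤ y 2 := by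
  classical
  simp only [up, Finset.mem_filter]

private theorem ext2_z (y : W) : d3 ![0, 0, 1] y = y 2 := by
  simp [d3, Fin.sum_univ_three]

private theorem ext2_negl (u y : W) : d3 (-u) y = - d3 u y := by
  simp only [d3, Fin.sum_univ_three, Pi.neg_apply]
  ring

/-- coordinates -/
private theorem ext2_mem (h : FS A n c x E E' E'' G ℓ κ) {s : W} (hs : s ∈ Face A n c) :
    ∃ i : ℤ, 0 ≤ s 2 ∧ s = x + i • E + s 2 • G := by
  obtain ⟨hsA, hsn⟩ := ext2_face.1 hs
  obtain ⟨i, j, -, hj, -, hsij⟩ := h.mem s hsA hsn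
  have h2 : s 2 = j := by
    rw [hsij]
    simp only [Pi.add_apply, Pi.smul_apply, smul_eq_mul, h.hx, h.hE, h.hG]
    ring
  exact ⟨i, by omega, by rw [h2]; exact hsij⟩

/-- the direction of the rows -/
private theorem ext2_dir (h : FS A n c x E E' E'' G ℓ κ) {e u : W} (he : e 2 = 0)
    (hue : d3 u e = 0) (hS : Side (up (Face A n c)) e u) : ∃ m i : ℤ, 1 ≤ m ∧ m • e = i • E := by
  obtain ⟨y, hy, hmax, hye | ⟨g, a, a', b, b', hg, ha, ha', hp, hq⟩⟩ := hS
  · obtain ⟨i, -, hi⟩ := ext2_mem h (ext2_up.1 hy).1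
    obtain ⟨i', -, hi'⟩ := ext2_mem h (ext2_up.1 hye).1
    refine ⟨1, i' - i, le_rfl, ?_⟩
    have h1 : (y + e) 2 = y 2 := by
      rw [Pi.add_apply, he, add_zero]
    rw [h1] at hi'
    have h2 : e = (y + e) - y := by abel
    rw [one_smul, h2, hi']
    nth_rewrite 2 [hi]
    rw [sub_smul]
    abel
  · obtain ⟨i, -, hi⟩ := ext2_mem h (ext2_up.1 hy).1
    obtain ⟨i', -, hi'⟩ := ext2_mem h (ext2_up.1 hp).1
    obtain ⟨i'', -, hi''⟩ := ext2_mem h (ext2_up.1 hq).1
    have hb : 0 ≤ b := by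
      have h1 := hmax _ hp
      rw [d3_add, d3_add, d3_smul, d3_smul, hue, hg] at h1
      omega
    have hb' : 0 ≤ b' := by
      have h1 := hmax _ hq
      rw [d3_add, d3_sub, d3_smul, d3_smul, hue, hg] at h1
      omega
    have e1 : (y + a • e + b • g) 2 = y 2 + b * g 2 := by
      simp only [Pi.add_apply, Pi.smul_apply, smul_eq_mul, he]
      ring
    have e2 : (y - a' • e + b' • g) 2 = y 2 + b' * g 2 := by
      simp only [Pi.add_apply, Pi.sub_apply, Pi.smul_apply, smul_eq_mul, he]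
      ring
    rw [e1] at hi'
    rw [e2] at hi''
    rcases hb.eq_or_lt with hb0 | hb0
    · refine ⟨a, i' - i, ha, ?_⟩
      rw [← hb0] at hi'
      have h1 : a • e = (y + a • e + (0 : ℤ) • g) - y := by
        rw [zero_smul]; abel
      rw [h1, hi']
      nth_rewrite 2 [hi]
      rw [zero_mul, add_zero, sub_smul]
      abel
    · refine ⟨a * b' + a' * b, b' * (i' - i) - b * (i'' - i), ?_, ?_⟩
      · have h1 : 0 ≤ a * b' := mul_nonneg (by omega) hb'
        have h2 : 1 ≤ a' * b := by nlinarith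
        omega
      · have h1 : (a * b' + a' * b) • e =
            b' • ((y + a • e + b • g) - y) - b • ((y - a' • e + b' • g) - y) := by
          funext k
          simp only [Pi.add_apply, Pi.sub_apply, Pi.smul_apply, smul_eq_mul]
          ring
        rw [h1, hi', hi'']
        have h3 : ∀ k, y k = x k + i * E k + y 2 * G k := by
          intro k
          have := congrFun hi k
          simpa only [Pi.add_apply, Pi.smul_apply, smul_eq_mul] using this
        funext k
        simp only [Pi.add_apply, Pi.sub_apply, Pi.smul_apply, smul_eq_mul]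
        rw [h3 k]
        ring

/-- the side at the top, for the functional which is the height up to a constant -/
private theorem ext2_top (h : FS A n c x E E' E'' G ℓ κ) {e u : W} (he : e 2 = 0)
    (heE : e = E ∨ e = -E) (hue : d3 u e = 0) (hval : ∀ s ∈ Face A n c, d3 u s = d3 u x + s 2)
    (hS : Side (up (Face A n c)) e u) : Side (Face A n c) E ![0, 0, 1] := by
  obtain ⟨y, hy, hmax, hS⟩ := hS
  have hyD := (ext2_up.1 hy).1
  have hy1 := (ext2_up.1 hy).2
  have hm : ∀ z ∈ Face A n c, z 2 ≤ y 2 := by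
    intro z hz
    rcases le_or_gt 1 (z 2) with h1 | h1
    · have h2 := hmax z (ext2_up.2 ⟨hz, h1⟩)
      rw [hval z hz, hval y hyD] at h2
      omega
    · omega
  rcases hS with hye | ⟨g, a, a', b, b', hg, ha, ha', hp, hq⟩
  · rcases heE with rfl | rfl
    · refine ⟨y, hyD, fun z hz => ?_, Or.inl (ext2_up.1 hye).1⟩
      rw [ext2_z, ext2_z]
      exact hm z hz
    · refine ⟨y + -E, (ext2_up.1 hye).1, fun z hz => ?_, Or.inl ?_⟩
      · rw [ext2_z, ext2_z, Pi.add_apply, he, add_zero]
        exact hm z hz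
      · rw [neg_add_cancel_right]
        exact hyD
  · have hpD := (ext2_up.1 hp).1
    have hqD := (ext2_up.1 hq).1
    have hb2 : b * g 2 = -b := by
      have h1 := hval _ hpD
      rw [d3_add, d3_add, d3_smul, d3_smul, hue, hg, hval y hyD] at h1
      simp only [Pi.add_apply, Pi.smul_apply, smul_eq_mul, he] at h1
      linarith
    have hb2' : b' * g 2 = -b' := by
      have h1 := hval _ hqD
      rw [d3_add, d3_sub, d3_smul, d3_smul, hue, hg, hval y hyD] at h1
      simp only [Pi.add_apply, Pi.sub_apply, Pi.smul_apply, smul_eq_mul, he] at h1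
      linarith
    -- a vector of height `-1`
    obtain ⟨g', hg', hbg, hbg'⟩ : ∃ g' : W, g' 2 = -1 ∧ b • g' = b • g ∧ b' • g' = b' • g := by
      by_cases h0 : b = 0 ∧ b' = 0
      · refine ⟨-G, by rw [Pi.neg_apply, h.hG], ?_, ?_⟩
        · rw [h0.1, zero_smul, zero_smul]
        · rw [h0.2, zero_smul, zero_smul]
      · refine ⟨g, ?_, rfl, rfl⟩
        by_cases h1 : b = 0
        · have h2 : b' ≠ 0 := fun h2 => h0 ⟨h1, h2⟩
          have h3 : b' * (g 2 + 1) = 0 := by linarith
          rcases mul_eq_zero.1 h3 with h4 | h4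
          · exact absurd h4 h2
          · omega
        · have h3 : b * (g 2 + 1) = 0 := by linarith
          rcases mul_eq_zero.1 h3 with h4 | h4
          · exact absurd h4 h1
          · omega
    refine ⟨y, hyD, fun z hz => by rw [ext2_z, ext2_z]; exact hm z hz, Or.inr ?_⟩
    rcases heE with rfl | rfl
    · exact ⟨g', a, a', b, b', by rw [ext2_z, hg'], ha, ha', by rw [hbg]; exact hpD,
        by rw [hbg']; exact hqD⟩
    · refine ⟨g', a', a, b', b, by rw [ext2_z, hg'], ha', ha, ?_, ?_⟩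
      · rw [hbg']
        have h1 : y + a' • E + b' • g = y - a' • -E + b' • g := by
          rw [smul_neg, sub_neg_eq_add]
        rw [h1]
        exact hqD
      · rw [hbg]
        have h1 : y - a • E + b • g = y + a • -E + b • g := by
          rw [smul_neg, sub_eq_add_neg]
        rw [h1]
        exact hpD

theorem rld_ext2 (h : FS A n c x E E' E'' G ℓ κ) (hk : 1 ≤ ℓ + κ) {e : W} (he : e 2 = 0)
    (hR : Rld (up (Face A n c)) e) : (e = E ∨ e = -E) ∧ Rld (Face A n c) E := by
  obtain ⟨u, v, hve, hue, hS, hS', ⟨x₀, hx₀, y₀, hy₀, hlt⟩, hk'⟩ := hR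
  obtain ⟨u₀, v₀, hu₀, -, -, -⟩ := h.dual
  obtain ⟨m, i, hm1, hmi⟩ := ext2_dir h he hue hS
  have haE : e = E ∨ e = -E := by
    have h1 : i = m * d3 u₀ e := by
      have h2 := congrArg (d3 u₀) hmi
      rw [d3_smul, d3_smul, hu₀, mul_one] at h2
      exact h2.symm
    have h2 : e = (d3 u₀ e) • E := by
      funext k
      have h3 := congrFun hmi k
      simp only [Pi.smul_apply, smul_eq_mul] at h3 ⊢
      rw [h1, mul_assoc] at h3
      exact mul_left_cancel₀ (by omega) h3
    have h3 : d3 u₀ e * d3 v E = 1 := by rw [← d3_smul, ← h2, hve]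
    rcases Int.isUnit_iff.1 (IsUnit.of_mul_eq_one _ h3) with h4 | h4
    · left; rw [h2, h4, one_smul]
    · right; rw [h2, h4, neg_smul, one_smul]
  have hua : d3 u E = 0 := by
    rcases haE with h1 | h1
    · rw [← h1, hue]
    · rw [h1, d3_neg] at hue
      omega
  have hval : ∀ s ∈ Face A n c, d3 u s = d3 u x + s 2 * d3 u G := by
    intro s hs
    obtain ⟨i, -, hs1⟩ := ext2_mem h hs
    have h1 := congrArg (d3 u) hs1
    rw [d3_add, d3_add, d3_smul, d3_smul, hua] at h1
    rw [h1]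
    ring
  -- points of the two lowest rows
  have hx0 := h.row0 0 le_rfl (by have := h.l1; omega)
  have hx1 := h.row0 1 (by norm_num) h.l1
  rw [zero_smul, add_zero] at hx0
  rw [one_smul] at hx1
  have hxF : x ∈ Face A n c := ext2_face.2 ⟨hx0, h.nx⟩
  have hxEF : x + E ∈ Face A n c := ext2_face.2 ⟨hx1, by rw [d3_add, h.nx, h.nE, add_zero]⟩
  have hxG2 : (x + G) 2 = 1 := by rw [Pi.add_apply, h.hx, h.hG, zero_add]
  have hxG : x + G ∈ up (Face A n c) := by
    have h1 := h.row1 0 le_rfl (by omega)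
    rw [zero_smul, add_zero] at h1
    refine ext2_up.2 ⟨ext2_face.2 ⟨h1, ?_⟩, ?_⟩
    · rw [d3_add, h.nx, h.nG, add_zero]
    · rw [hxG2]
  -- `u (G) = ± 1`
  have hg : d3 u G = 1 ∨ d3 u G = -1 := by
    obtain ⟨z, hz, hz1⟩ := hk' x₀ hx₀ y₀ hy₀ (d3 u x₀ + 1) (by omega) (by omega)
    rw [hval z (ext2_up.1 hz).1, hval x₀ (ext2_up.1 hx₀).1] at hz1
    have h1 : d3 u G * (z 2 - x₀ 2) = 1 := by linear_combination hz1
    exact Int.isUnit_iff.1 (IsUnit.of_mul_eq_one _ h1)
  have htop : Side (Face A n c) E ![0, 0, 1] ∧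
      ∀ q ∈ up (Face A n c), ∀ k, 1 ≤ k → k ≤ q 2 → ∃ z ∈ Face A n c, z 2 = k := by
    rcases hg with hg | hg
    · refine ⟨ext2_top h he haE hue (fun s hs => by rw [hval s hs, hg, mul_one]) hS, ?_⟩
      intro q hq k h1 h2
      obtain ⟨z, hz, hzk⟩ := hk' _ hxG q hq (d3 u x + k) (by
        rw [hval _ (ext2_up.1 hxG).1, hg, hxG2]; omega) (by
        rw [hval q (ext2_up.1 hq).1, hg]; omega)
      refine ⟨z, (ext2_up.1 hz).1, ?_⟩
      rw [hval z (ext2_up.1 hz).1, hg] at hzk
      omega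
    · refine ⟨ext2_top h he haE (by rw [ext2_negl, hue, neg_zero]) (fun s hs => by
        rw [ext2_negl, ext2_negl, hval s hs, hg]; ring) hS', ?_⟩
      intro q hq k h1 h2
      obtain ⟨z, hz, hzk⟩ := hk' q hq _ hxG (d3 u x - k) (by
        rw [hval q (ext2_up.1 hq).1, hg]; omega) (by
        rw [hval _ (ext2_up.1 hxG).1, hg, hxG2]; omega)
      refine ⟨z, (ext2_up.1 hz).1, ?_⟩
      rw [hval z (ext2_up.1 hz).1, hg] at hzk
      omega
  refine ⟨haE, ![0, 0, 1], u₀, hu₀, by rw [ext2_z, h.hE], htop.1, ?_, ?_, ?_⟩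
  · refine ⟨x, hxF, fun z hz => ?_, Or.inl hxEF⟩
    rw [ext2_negl, ext2_negl, ext2_z, ext2_z, h.hx]
    obtain ⟨-, h1, -⟩ := ext2_mem h hz
    omega
  · refine ⟨x, hxF, x + G, (ext2_up.1 hxG).1, ?_⟩
    rw [ext2_z, ext2_z, h.hx, hxG2]
    norm_num
  · intro p hp q hq k h1 h2
    rw [ext2_z] at h1 h2
    obtain ⟨-, hp0, -⟩ := ext2_mem h hp
    rcases eq_or_lt_of_le (hp0.trans h1) with h3 | h3
    · exact ⟨x, hxF, by rw [ext2_z, h.hx, h3]⟩
    · obtain ⟨z, hz, hz2⟩ := htop.2 q (ext2_up.2 ⟨hq, by omega⟩) k (by omega) h2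
      exact ⟨z, hz, by rw [ext2_z, hz2]⟩

end Pool.Agent.SPR
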