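import Pool.Agent.SPR.Fs
import Pool.Agent.SPK.Bet1

/-!
# [SPR-Sid] facets with a direction which is not horizontal

`D = Face A n c`, the height of `x + i E + j G` is `j`. `up_bound` (SPK/Bet1): if some `r ∈ D` of height `≥ 2` has `u r = U = max of u on up D` then `u ≤ U` on `D`.
`side_bound`: let `y` be as in `Side (up D) e u`, `U = u y`. If `y + e ∈ up D`, then `y` or `y + e` has height `≥ 2` (`e 2 ≠ 0`), both have value `U`: `up_bound`. If `y` has height `≥ 2`: `up_bound`. Let `y` have height `1`, `y = x + i E + G` (`mem`), and `g, a, a', b, b'` as in the second alternative; `p = y + a e + b g`, `q = y - a' e + b' g` in `up D`; `b = u y - u p ≥ 0`, `b' ≥ 0`.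
`u(E) ≠ 0`: otherwise, since `u` is not constant on `up D`, `e` (`u(e) = 0`, `e` a combination of `E` and `G`: if `b, b' ` are not both zero then `(a b' + a' b) e = b' (p - y) - b (q - y)`, if `b = 0` then `a e = p - y`) is a multiple of `E`, contradiction to `e 2 ≠ 0`. As `u ≤ U` on the row of height `1` (`row1`, length `ℓ + κ ≥ 1`) and `u(y) = U`, `y` is an end of this row: `y = x + G` (if `u(E) < 0`) or `y = x + (ℓ + κ) E + G` (if `u(E) > 0`). By `FS.mirror` assume `y = x + G`, `u(E) ≤ -1`. It suffices that `u(x) ≤ U` (then `u(x + i E) ≤ U`), that is `u(G) ≥ 0`. Suppose `u(G) ≤ -1`. `p - y = i E + j G` and `q - y = i' E + j' G` with `i, j, i', j' ≥ 0` (`mem`, heights `≥ 1`). `b ≥ 1` (otherwise `0 = i u(E) + j u(G)`, so `i = j = 0`, `a e = 0`), `b' ≥ 1`. `a' (p - y) + a (q - y) = (a' b + a b') g`, so `g = g₁ E + g₂ G` with (rational, in fact integral, by `FS.dual`) `g₁, g₂ ≥ 0`; `-1 = g₁ u(E) + g₂ u(G)`, so `(g₁, g₂) = (1, 0)` or `(0, 1)`. If `g = E`: `j = j' = 0`, `a e = (i - b) E`, contradiction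 to `e 2 ≠ 0`. If `g = G`: `i = i' = 0`, `a e = (j - b) G`, `0 = u(e)`, `u(G) = -1`, so `e = 0`, contradiction to `v(e) = 1`.
`rld_ext1`: `Side D e u`, `Side D e (-u)` with the same data, rows: for `x, y ∈ D` the values `u x, u y` are between values of `u` on `up D`. Second claim as in `rul_ext1` (SPK/Bet1): `u y'= u y` with `y' ∈ up D`, so `y' - y` is a multiple of `e` (the differences of points of `D` are combinations of `E` and `G`, so is `e`; `u(E), u(G)` not both `0`, `v(e) = 1`).
-/

open Finset Pool.Agent.SPB Pool.Agent.SPK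

set_option autoImplicit false

namespace Pool.Agent.SPR

variable {A : Finset W} {n : W} {c : ℤ} {x E E' E'' G : W} {ℓ κ : ℤ}

private theorem sid_negl (n x : W) : d3 (-n) x = - d3 n x := by
  simp only [d3, Pi.neg_apply, neg_mul, Finset.sum_neg_distrib]

private theorem sid_face {A : Finset W} {n : W} {c : ℤ} {y : W} :
    y ∈ Face A n c ↔ y ∈ A ∧ d3 n y = c := by
  unfold Face
  rw [Finset.mem_filter]

private theorem sid_up {A : Finset W} {y : W} : y ∈ up A ↔ y ∈ A ∧ 1 ≤ y 2 := by
  unfold up
  rw [Finset.mem_filter]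

private theorem sid_coord (h : FS A n c x E E' E'' G ℓ κ) {r : W} (hr : r ∈ Face A n c) :
    ∃ i j : ℤ, 0 ≤ i ∧ 0 ≤ j ∧ i ≤ ℓ + κ * j ∧ r = x + i • E + j • G ∧ r 2 = j := by
  obtain ⟨hrA, hrn⟩ := sid_face.1 hr
  obtain ⟨i, j, hi, hj, hij, hrij⟩ := h.mem r hrA hrn
  refine ⟨i, j, hi, hj, hij, hrij, ?_⟩
  rw [hrij]
  simp [Pi.add_apply, Pi.smul_apply, h.hx, h.hE, h.hG]

private theorem sid_row (h : FS A n c x E E' E'' G ℓ κ) (i : ℤ) (h0 : 0 ≤ i) (h1 : i ≤ ℓ + κ) :
    x + i • E + G ∈ up (Face A n c) := by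
  refine sid_up.2 ⟨sid_face.2 ⟨h.row1 i h0 h1, ?_⟩, ?_⟩
  · rw [d3_add, d3_add, d3_smul, h.nx, h.nE, h.nG]
    ring
  · have : (x + i • E + G) 2 = 1 := by
      simp [Pi.add_apply, Pi.smul_apply, h.hx, h.hE, h.hG]
    omega

/-- the core: `u(E) < 0` and `y = x + G` -/
private theorem sid_core (h : FS A n c x E E' E'' G ℓ κ) {e u g : W} {a a' b b' : ℤ} (he : e 2 ≠ 0)
    (hu : d3 u e = 0) (hE : d3 u E < 0) (hU : ∀ z ∈ up (Face A n c), d3 u z ≤ d3 u (x + G))
    (hg : d3 u g = -1) (ha : 1 ≤ a) (ha' : 1 ≤ a') (hp : (x + G) + a • e + b • g ∈ up (Face A n c))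
    (hq : (x + G) - a' • e + b' • g ∈ up (Face A n c)) :
    ∀ z ∈ Face A n c, d3 u z ≤ d3 u (x + G) := by
  obtain ⟨dE, dG, e1, e2, e3, e4⟩ := h.dual
  obtain ⟨i1, j1, hi1, hj1, -, hpe, hp2⟩ := sid_coord h (sid_up.1 hp).1
  obtain ⟨i2, j2, hi2, hj2, -, hqe, hq2⟩ := sid_coord h (sid_up.1 hq).1
  have hj1' : 1 ≤ j1 := by
    have := (sid_up.1 hp).2
    omega
  have hj2' : 1 ≤ j2 := by
    have := (sid_up.1 hq).2
    omega
  have huG : 0 ≤ d3 u G := by
    by_contra hcon
    push Not at hcon
    -- values under a linear functional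
    have hlin1 : ∀ f : W, a * d3 f e + b * d3 f g = i1 * d3 f E + (j1 - 1) * d3 f G := by
      intro f
      have h1 := congrArg (d3 f) hpe
      rw [d3_add, d3_add, d3_add, d3_smul, d3_smul, d3_add, d3_add, d3_smul, d3_smul] at h1
      linarith
    have hlin2 : ∀ f : W, - (a' * d3 f e) + b' * d3 f g = i2 * d3 f E + (j2 - 1) * d3 f G := by
      intro f
      have h1 := congrArg (d3 f) hqe
      rw [d3_add, d3_sub, d3_add, d3_smul, d3_smul, d3_add, d3_add, d3_smul, d3_smul] at h1
      linarith
    have ht1 : a * e 2 + b * g 2 = j1 - 1 := by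
      have h1 := congrFun hpe 2
      simp only [Pi.add_apply, Pi.smul_apply, smul_eq_mul, h.hx, h.hE, h.hG] at h1
      linarith
    have ht2 : - (a' * e 2) + b' * g 2 = j2 - 1 := by
      have h1 := congrFun hqe 2
      simp only [Pi.add_apply, Pi.sub_apply, Pi.smul_apply, smul_eq_mul, h.hx, h.hE, h.hG] at h1
      linarith
    have hu1 := hlin1 u
    have hu2 := hlin2 u
    have hE1 := hlin1 dE
    have hE2 := hlin2 dE
    have hG1 := hlin1 dG
    have hG2 := hlin2 dG
    rw [hu, hg] at hu1 hu2
    rw [e1, e2] at hE1 hE2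
    rw [e3, e4] at hG1 hG2
    have hbb : b = i1 * (- d3 u E) + (j1 - 1) * (- d3 u G) := by linarith
    have hbb' : b' = i2 * (- d3 u E) + (j2 - 1) * (- d3 u G) := by linarith
    have hE1' : 1 ≤ - d3 u E := by omega
    have hG1' : 1 ≤ - d3 u G := by omega
    have m1 : i1 ≤ i1 * (- d3 u E) := le_mul_of_one_le_right hi1 hE1'
    have m2 : j1 - 1 ≤ (j1 - 1) * (- d3 u G) := le_mul_of_one_le_right (by omega) hG1'
    have m3 : i2 ≤ i2 * (- d3 u E) := le_mul_of_one_le_right hi2 hE1'
    have m4 : j2 - 1 ≤ (j2 - 1) * (- d3 u G) := le_mul_of_one_le_right (by omega) hG1'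
    have hb1 : 1 ≤ b := by
      by_contra hb
      have hb0 : b = 0 := by omega
      have hi0 : i1 = 0 := by omega
      have hj0 : j1 - 1 = 0 := by omega
      rw [hb0, hj0] at ht1
      have : a * e 2 = 0 := by linarith
      rcases mul_eq_zero.1 this with h0 | h0
      · omega
      · exact he h0
    have hb1' : 1 ≤ b' := by
      by_contra hb
      have hb0 : b' = 0 := by omega
      have hj0 : j2 - 1 = 0 := by omega
      rw [hb0, hj0] at ht2
      have : a' * e 2 = 0 := by linarith
      rcases mul_eq_zero.1 this with h0 | h0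
      · omega
      · exact he h0
    have hm : 0 < a' * b + a * b' := by positivity
    have hgE : (a' * b + a * b') * d3 dE g = a' * i1 + a * i2 := by
      linear_combination a' * hE1 + a * hE2
    have hgG : (a' * b + a * b') * d3 dG g = a' * (j1 - 1) + a * (j2 - 1) := by
      linear_combination a' * hG1 + a * hG2
    have hgh : (a' * b + a * b') * g 2 = a' * (j1 - 1) + a * (j2 - 1) := by
      linear_combination a' * ht1 + a * ht2
    have n1 : 0 ≤ a' * i1 := by positivity
    have n2 : 0 ≤ a * i2 := by positivity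
    have n3 : 0 ≤ a' * (j1 - 1) := mul_nonneg (by omega) (by omega)
    have n4 : 0 ≤ a * (j2 - 1) := mul_nonneg (by omega) (by omega)
    have hg1 : 0 ≤ d3 dE g := by
      by_contra hc
      push Not at hc
      have := mul_neg_of_pos_of_neg hm hc
      omega
    have hg2 : 0 ≤ d3 dG g := by
      by_contra hc
      push Not at hc
      have := mul_neg_of_pos_of_neg hm hc
      omega
    have hsum : (a' * b + a * b') * (d3 dE g * (- d3 u E) + d3 dG g * (- d3 u G)) =
        (a' * b + a * b') * 1 := by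
      have : (a' * b + a * b') * (d3 dE g * (- d3 u E) + d3 dG g * (- d3 u G)) =
          ((a' * b + a * b') * d3 dE g) * (- d3 u E) + ((a' * b + a * b') * d3 dG g) * (- d3 u G) := by
        ring
      rw [this, hgE, hgG]
      linear_combination (-a') * hbb + (-a) * hbb'
    have hsum' : d3 dE g * (- d3 u E) + d3 dG g * (- d3 u G) = 1 :=
      mul_left_cancel₀ hm.ne' hsum
    have k1 : d3 dE g ≤ d3 dE g * (- d3 u E) := le_mul_of_one_le_right hg1 hE1'
    have k2 : d3 dG g ≤ d3 dG g * (- d3 u G) := le_mul_of_one_le_right hg2 hG1'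
    rcases eq_or_lt_of_le hg2 with h0 | h0
    · -- `g` is a multiple of `E`
      rw [← h0, mul_zero] at hgG
      have q1 : a' * (j1 - 1) = 0 := by linarith
      have q2 : j1 - 1 = 0 := by
        rcases mul_eq_zero.1 q1 with h1 | h1
        · omega
        · exact h1
      rw [← hgG] at hgh
      have q3 : g 2 = 0 := by
        rcases mul_eq_zero.1 hgh with h1 | h1
        · omega
        · exact h1
      rw [q2, q3, mul_zero, add_zero] at ht1
      rcases mul_eq_zero.1 ht1 with h1 | h1
      · omega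
      · exact he h1
    · have hdE : d3 dE g = 0 := by omega
      have hdG : d3 dG g = 1 := by omega
      have huG1 : d3 u G = -1 := by
        rw [hdE, hdG] at hsum'
        linarith
      rw [hdE, mul_zero] at hgE
      have q1 : a' * i1 = 0 := by linarith
      have q2 : i1 = 0 := by
        rcases mul_eq_zero.1 q1 with h1 | h1
        · omega
        · exact h1
      have q3 : g 2 = 1 := by
        have h1 : (a' * b + a * b') * g 2 = (a' * b + a * b') * 1 := by
          rw [hgh, ← hgG, hdG]
        exact mul_left_cancel₀ hm.ne' h1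
      rw [q2, huG1] at hbb
      have q4 : b = j1 - 1 := by linarith
      rw [q3, q4] at ht1
      have q5 : a * e 2 = 0 := by linarith
      rcases mul_eq_zero.1 q5 with h1 | h1
      · omega
      · exact he h1
  intro z hz
  obtain ⟨i, j, hi, hj, -, hze, hz2⟩ := sid_coord h hz
  rcases le_or_gt 1 j with h1 | h1
  · exact hU z (sid_up.2 ⟨hz, by omega⟩)
  · have hj0 : j = 0 := by omega
    subst hj0
    rw [hze, zero_smul, add_zero, d3_add, d3_smul, d3_add]
    have : i * d3 u E ≤ 0 := mul_nonpos_of_nonneg_of_nonpos hi hE.le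
    linarith

private theorem sid_bound (h : FS A n c x E E' E'' G ℓ κ) (hk : 1 ≤ ℓ + κ) {e u y : W} (he : e 2 ≠ 0)
    (hu : d3 u e = 0) (hy : y ∈ up (Face A n c)) (hU : ∀ z ∈ up (Face A n c), d3 u z ≤ d3 u y)
    (hS : y + e ∈ up (Face A n c) ∨ ∃ (g : W) (a a' b b' : ℤ), d3 u g = -1 ∧ 1 ≤ a ∧ 1 ≤ a' ∧
      y + a • e + b • g ∈ up (Face A n c) ∧ y - a' • e + b' • g ∈ up (Face A n c)) :
    ∀ z ∈ Face A n c, d3 u z ≤ d3 u y := by
  have hy1 := (sid_up.1 hy).2
  rcases le_or_gt 2 (y 2) with hy2 | hy2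
  · exact up_bound h hk hU (sid_up.1 hy).1 hy2 rfl
  rcases hS with hS | ⟨g, a, a', b, b', hg, ha, ha', hp, hq⟩
  · have h2 := (sid_up.1 hS).2
    have h3 : (y + e) 2 = y 2 + e 2 := rfl
    exact up_bound h hk hU (sid_up.1 hS).1 (by omega) (by rw [d3_add, hu, add_zero])
  · have hyy : y 2 = 1 := by omega
    obtain ⟨i, j, hi, hj, hij, hye, hyj⟩ := sid_coord h (sid_up.1 hy).1
    have hj1 : j = 1 := by omega
    subst hj1
    rw [one_smul] at hye
    have hil : i ≤ ℓ + κ := by linarith
    rcases lt_trichotomy (d3 u E) 0 with hE | hE | hE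
    · have hi0 : i = 0 := by
        by_contra hne
        have h1 := hU _ (sid_row h (i - 1) (by omega) (by omega))
        rw [hye, d3_add, d3_add, d3_smul, d3_add, d3_add, d3_smul] at h1
        linarith
      subst hi0
      rw [zero_smul, add_zero] at hye
      subst hye
      exact sid_core h he hu hE hU hg ha ha' hp hq
    · exfalso
      obtain ⟨i1, j1, hi1, hj1, -, hpe, hp2⟩ := sid_coord h (sid_up.1 hp).1
      obtain ⟨i2, j2, hi2, hj2, -, hqe, hq2⟩ := sid_coord h (sid_up.1 hq).1
      have hj1' : 1 ≤ j1 := by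
        have := (sid_up.1 hp).2
        omega
      have hj2' : 1 ≤ j2 := by
        have := (sid_up.1 hq).2
        omega
      have ht1 : a * e 2 + b * g 2 = j1 - 1 := by
        have h1 := congrFun hpe 2
        rw [hye] at h1
        simp only [Pi.add_apply, Pi.smul_apply, smul_eq_mul, h.hx, h.hE, h.hG] at h1
        linarith
      have ht2 : - (a' * e 2) + b' * g 2 = j2 - 1 := by
        have h1 := congrFun hqe 2
        rw [hye] at h1
        simp only [Pi.add_apply, Pi.sub_apply, Pi.smul_apply, smul_eq_mul, h.hx, h.hE, h.hG] at h1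
        linarith
      have hu1 : b = (j1 - 1) * (- d3 u G) := by
        have h1 := congrArg (d3 u) hpe
        rw [hye] at h1
        simp only [d3_add, d3_smul, hu, hg, hE] at h1
        linarith
      have hu2 : b' = (j2 - 1) * (- d3 u G) := by
        have h1 := congrArg (d3 u) hqe
        rw [hye] at h1
        simp only [d3_add, d3_sub, d3_smul, hu, hg, hE] at h1
        linarith
      have hb : 0 ≤ b := by
        have h1 := hU _ hp
        rw [d3_add, d3_add, d3_smul, d3_smul, hu, hg] at h1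
        linarith
      have hb' : 0 ≤ b' := by
        have h1 := hU _ hq
        rw [d3_add, d3_sub, d3_smul, d3_smul, hu, hg] at h1
        linarith
      have hz : (a * b' + a' * b) * e 2 = 0 := by
        have h1 : (a * b' + a' * b) * e 2 = b' * (j1 - 1) - b * (j2 - 1) := by
          linear_combination b' * ht1 - b * ht2
        rw [h1]
        linear_combination (j1 - 1) * hu2 - (j2 - 1) * hu1
      rcases mul_eq_zero.1 hz with h0 | h0
      · have n1 : 0 ≤ a * b' := mul_nonneg (by omega) hb'
        have n2 : 0 ≤ a' * b := mul_nonneg (by omega) hb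
        have n3 : b = 0 := by
          have : a' * b = 0 := by omega
          rcases mul_eq_zero.1 this with h1 | h1
          · omega
          · exact h1
        have n4 : b' = 0 := by
          have : a * b' = 0 := by omega
          rcases mul_eq_zero.1 this with h1 | h1
          · omega
          · exact h1
        rw [n3] at ht1
        rw [n4] at ht2
        have m1 : 0 ≤ a * e 2 := by linarith
        have m2 : a' * e 2 ≤ 0 := by linarith
        rcases lt_trichotomy (e 2) 0 with h1 | h1 | h1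
        · have := mul_neg_of_pos_of_neg (show 0 < a by omega) h1
          omega
        · exact he h1
        · have := mul_pos (show 0 < a' by omega) h1
          omega
      · exact he h0
    · have hi0 : i = ℓ + κ := by
        by_contra hne
        have h1 := hU _ (sid_row h (i + 1) (by omega) (by omega))
        rw [hye, d3_add, d3_add, d3_smul, d3_add, d3_add, d3_smul] at h1
        linarith
      have hyE : y = (x + ℓ • E) + (G + κ • E) := by
        rw [hye, hi0, add_smul]
        abel
      have hE' : d3 u (-E) < 0 := by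
        rw [d3_neg]
        linarith
      subst hyE
      exact sid_core h.mirror he hu hE' hU hg ha ha' hp hq

theorem side_bound (h : FS A n c x E E' E'' G ℓ κ) (hk : 1 ≤ ℓ + κ) {e u v : W} (he : e 2 ≠ 0) (hv : d3 v e = 1)
    (hu : d3 u e = 0) (hne : ∃ x ∈ up (Face A n c), ∃ y ∈ up (Face A n c), d3 u x < d3 u y)
    (hS : Side (up (Face A n c)) e u) : Side (Face A n c) e u ∧ ∃ y ∈ up (Face A n c), ∀ z ∈ Face A n c,
      d3 u z ≤ d3 u y := by
  obtain ⟨y, hy, hU, hS⟩ := hS
  have hB := sid_bound h hk he hu hy hU hS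
  refine ⟨⟨y, (sid_up.1 hy).1, hB, ?_⟩, y, hy, hB⟩
  rcases hS with hS | ⟨g, a, a', b, b', hg, ha, ha', hp, hq⟩
  · exact Or.inl (sid_up.1 hS).1
  · exact Or.inr ⟨g, a, a', b, b', hg, ha, ha', (sid_up.1 hp).1, (sid_up.1 hq).1⟩

theorem rld_ext1 (h : FS A n c x E E' E'' G ℓ κ) (hk : 1 ≤ ℓ + κ) {e : W} (he : e 2 ≠ 0)
    (hR : Rld (up (Face A n c)) e) : Rld (Face A n c) e ∧
      ∀ y ∈ Face A n c, y 2 = 0 → ∃ t : ℤ, y + t • e ∈ up (Face A n c) := by
  obtain ⟨u, v, hve, hue, hS1, hS2, ⟨x1, hx1, x2, hx2, hlt⟩, hrow⟩ := hR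
  have hue' : d3 (-u) e = 0 := by rw [sid_negl, hue, neg_zero]
  obtain ⟨hT1, y1, hy1, hB1⟩ := side_bound h hk he hve hue ⟨x1, hx1, x2, hx2, hlt⟩ hS1
  obtain ⟨hT2, y2, hy2, hB2⟩ := side_bound h hk he hve hue'
    ⟨x2, hx2, x1, hx1, by rw [sid_negl, sid_negl]; linarith⟩ hS2
  have hrow' : ∀ a ∈ Face A n c, ∀ b ∈ Face A n c, ∀ k, d3 u a ≤ k → k ≤ d3 u b →
      ∃ q ∈ up (Face A n c), d3 u q = k := by
    intro a ha b hb k h1 h2
    have h3 := hB2 a ha
    rw [sid_negl, sid_negl] at h3
    exact hrow y2 hy2 y1 hy1 k (by linarith) (h2.trans (hB1 b hb))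
  refine ⟨⟨u, v, hve, hue, hT1, hT2, ⟨x1, (sid_up.1 hx1).1, x2, (sid_up.1 hx2).1, hlt⟩, ?_⟩, ?_⟩
  · intro a ha b hb k h1 h2
    obtain ⟨q, hq, hqk⟩ := hrow' a ha b hb k h1 h2
    exact ⟨q, (sid_up.1 hq).1, hqk⟩
  · intro y hy _
    obtain ⟨y', hy', hyy⟩ := hrow' y hy y hy (d3 u y) le_rfl le_rfl
    -- a multiple of `e` is a combination of `E` and `G`
    have hmul : ∃ M α β : ℤ, 0 < M ∧ M • e = α • E + β • G := by
      have hdiff : ∀ p ∈ Face A n c, ∀ q ∈ Face A n c, ∃ α β : ℤ, p - q = α • E + β • G := by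
        intro p hp q hq
        obtain ⟨i1, j1, -, -, -, hpe, -⟩ := sid_coord h hp
        obtain ⟨i2, j2, -, -, -, hqe, -⟩ := sid_coord h hq
        refine ⟨i1 - i2, j1 - j2, ?_⟩
        rw [hpe, hqe, sub_smul, sub_smul]
        abel
      obtain ⟨z, hz, hzU, hzS⟩ := hS1
      rcases hzS with hzS | ⟨g, a, a', b, b', hg, ha, ha', hp, hq⟩
      · obtain ⟨α, β, hab⟩ := hdiff _ (sid_up.1 hzS).1 _ (sid_up.1 hz).1
        refine ⟨1, α, β, one_pos, ?_⟩
        rw [← hab, one_smul]
        abel
      · obtain ⟨α1, β1, hab1⟩ := hdiff _ (sid_up.1 hp).1 _ (sid_up.1 hz).1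
        obtain ⟨α2, β2, hab2⟩ := hdiff _ (sid_up.1 hq).1 _ (sid_up.1 hz).1
        have hb : 0 ≤ b := by
          have h1 := hzU _ hp
          rw [d3_add, d3_add, d3_smul, d3_smul, hue, hg] at h1
          linarith
        have hb' : 0 ≤ b' := by
          have h1 := hzU _ hq
          rw [d3_add, d3_sub, d3_smul, d3_smul, hue, hg] at h1
          linarith
        rcases eq_or_lt_of_le hb with hb0 | hb0
        · refine ⟨a, α1, β1, by omega, ?_⟩
          rw [← hab1, ← hb0, zero_smul]
          abel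
        · refine ⟨a * b' + a' * b, b' * α1 - b * α2, b' * β1 - b * β2, ?_, ?_⟩
          · have n1 : 0 ≤ a * b' := mul_nonneg (by omega) hb'
            have n2 : 0 < a' * b := mul_pos (by omega) hb0
            omega
          · have h1 : (b' * α1 - b * α2) • E + (b' * β1 - b * β2) • G =
                b' • (α1 • E + β1 • G) - b • (α2 • E + β2 • G) := by
              funext k
              simp only [Pi.add_apply, Pi.sub_apply, Pi.smul_apply, smul_eq_mul]
              ring
            rw [h1, ← hab1, ← hab2]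
            funext k
            simp only [Pi.add_apply, Pi.sub_apply, Pi.smul_apply, smul_eq_mul]
            ring
    obtain ⟨M, α, β, hM, hMe⟩ := hmul
    obtain ⟨i1, j1, -, -, -, e1, -⟩ := sid_coord h hy
    obtain ⟨i2, j2, -, -, -, e2, -⟩ := sid_coord h (sid_up.1 hy').1
    obtain ⟨i3, j3, -, -, -, e3, -⟩ := sid_coord h (sid_up.1 hx1).1
    obtain ⟨i4, j4, -, -, -, e4, -⟩ := sid_coord h (sid_up.1 hx2).1
    have hyd : y' = y + ((i2 - i1) • E + (j2 - j1) • G) := by
      rw [e1, e2, sub_smul, sub_smul]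
      abel
    have hu0 : α * d3 u E + β * d3 u G = 0 := by
      have h1 := congrArg (d3 u) hMe
      rw [d3_smul, hue, d3_add, d3_smul, d3_smul] at h1
      linarith
    have hv1 : α * d3 v E + β * d3 v G = M := by
      have h1 := congrArg (d3 v) hMe
      rw [d3_smul, hve, d3_add, d3_smul, d3_smul] at h1
      linarith
    have hud : (i2 - i1) * d3 u E + (j2 - j1) * d3 u G = 0 := by
      rw [hyd, d3_add, d3_add, d3_smul, d3_smul] at hyy
      linarith
    have hne : d3 u E ≠ 0 ∨ d3 u G ≠ 0 := by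
      by_contra hcon
      push Not at hcon
      rw [e3, e4, d3_add, d3_add, d3_smul, d3_smul, d3_add, d3_add, d3_smul, d3_smul,
        hcon.1, hcon.2] at hlt
      linarith
    generalize (i2 - i1) = i at *
    generalize (j2 - j1) = j at *
    have hdet : i * β = j * α := by
      rcases hne with hne | hne
      · have : (i * β - j * α) * d3 u E = 0 := by
          linear_combination β * hud - j * hu0
        rcases mul_eq_zero.1 this with h0 | h0
        · linarith
        · exact absurd h0 hne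
      · have : (i * β - j * α) * d3 u G = 0 := by
          linear_combination i * hu0 - α * hud
        rcases mul_eq_zero.1 this with h0 | h0
        · linarith
        · exact absurd h0 hne
    refine ⟨i * d3 v E + j * d3 v G, ?_⟩
    have ta : (i * d3 v E + j * d3 v G) * α = i * M := by
      linear_combination i * hv1 - d3 v G * hdet
    have tb : (i * d3 v E + j * d3 v G) * β = j * M := by
      linear_combination j * hv1 + d3 v E * hdet
    have hfin : (i * d3 v E + j * d3 v G) • e = i • E + j • G := by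
      funext k
      have h1 := congrFun hMe k
      simp only [Pi.add_apply, Pi.smul_apply, smul_eq_mul] at h1 ⊢
      have h2 : M * ((i * d3 v E + j * d3 v G) * e k) = M * (i * E k + j * G k) := by
        linear_combination (i * d3 v E + j * d3 v G) * h1 + E k * ta + G k * tb
      exact mul_left_cancel₀ hM.ne' h2
    rw [hfin, ← hyd]
    exact hy'

end Pool.Agent.SPR
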