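import Pool.Agent.SPR.PolA
import Pool.Agent.SPR.BotV
import Pool.Agent.SPK.Thin

/-!
# [SPR-Flat] polytopes of lattice width one

`A` has levels `0` and `1`; `T` the planar set of the level `1`, `up A = lift T 1` (as in SPK/Thin, copy the private lemmas). `LatConv T` from `LatA`, `T` nonempty (`Bs.hi`). `w' x = ω (x 0, x 1)`, `ru_lift` (SPK/Thin). `T` not collinear: `poly_ok`; otherwise `poly_uni` (then the second and third claims are vacuous, as `NonCol` of a subset of `lift T 1` fails). Third claim: a facet `(n, c)` with noncollinear upper part has `n 0 = n 1 = 0` and `n 2 ≠ 0` (`Fac.lt`), so `Face A n c` is the level `1` (as in SPK/Thin).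
`flat_one`: let `n ≠ 0` be constant `= c` on `up A`. If `n 0 = n 1 = 0` then `n 2 ≠ 0`, all points of `up A` have the same height; it is `1`, as there is a point of height `1`: a vertex `x` of the bottom (`face_vertex` for `![0, 0, -1]`), `bot_vertex`: `x + pt f 1`. Otherwise let `p ∈ A`, `r = p 2 ≥ 2`. Let `x` be a vertex of `A` maximizing `n - K z` (`K` large; so `x 2 = 0` and `x` maximizes `n` on the bottom; alternatively use `face_vertex` for `![K' n 0, K' n 1, -K]`), basis `![pt e 0, pt e' 0, pt f 1]`; `p = x + s (pt e 0) + t (pt e' 0) + r (pt f 1)`, `n (pt e 0), n (pt e' 0) ≤ 0`; `n (x + pt f 1) = c`; so `c = n p ≤ n x + r (c - n x)`, so `(r - 1) (c - n x) ≥ 0`, `c ≥ n x`. In the same way with a minimum `y` of `n` on the bottom: `c ≤ n y`. So `n x ≤ n y`: `n` is constant on the bottom, contradiction (noncollinear points of the plane `z = 0`, `(n 0, n 1) ≠ 0`).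
-/

open Finset Pool.Agent.SPB Pool.Agent.SPK

set_option autoImplicit false

namespace Pool.Agent.SPR

private theorem flat_d3 (n x : W) : d3 n x = n 0 * x 0 + n 1 * x 1 + n 2 * x 2 := by
  simp only [d3, Fin.sum_univ_three]

theorem flat {A : Finset W} (hA : Bs A) (h1 : ∀ x ∈ A, x 2 ≤ 1) : ∃ w' : W → ℝ, RU (up A) w' ∧
    (NonCol (A.filter (fun x => x 2 = 1)) → OKr (A.filter (fun x => x 2 = 1)) w') ∧
    ∀ n c, Fac A n c → NonCol (up (Face A n c)) → OKr (up (Face A n c)) w' := by
  classical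
  obtain ⟨T, hT⟩ : ∃ T : Finset V, ∀ x, x ∈ T ↔ pt x 1 ∈ A := by
    refine ⟨(A.filter (fun x => x 2 = 1)).image (fun x => (x 0, x 1)), fun x => ?_⟩
    simp only [Finset.mem_image, Finset.mem_filter]
    constructor
    · rintro ⟨y, ⟨hy, hy2⟩, rfl⟩
      rw [← hy2, pt_eta]
      exact hy
    · intro hx
      exact ⟨pt x 1, ⟨hx, rfl⟩, rfl⟩
  have hlev : A.filter (fun x => x 2 = 1) = lift T 1 := by
    ext x
    rw [Finset.mem_filter, mem_lift, hT]
    constructor
    · rintro ⟨hx, hx2⟩
      refine ⟨hx2, ?_⟩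
      rw [← hx2, pt_eta]
      exact hx
    · rintro ⟨hx2, hx⟩
      rw [← hx2, pt_eta] at hx
      exact ⟨hx, hx2⟩
  have hup : up A = lift T 1 := by
    rw [← hlev]
    ext x
    simp only [up, Finset.mem_filter]
    constructor
    · rintro ⟨hx, hx2⟩
      exact ⟨hx, le_antisymm (h1 x hx) hx2⟩
    · rintro ⟨hx, hx2⟩
      exact ⟨hx, hx2.ge⟩
  -- facets with a noncollinear upper part
  have hfac : ∀ n c, Fac A n c → NonCol (up (Face A n c)) →
      up (Face A n c) = lift T 1 ∧ NonCol (lift T 1) := by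
    intro n c hf hnc
    have hsub : up (Face A n c) ⊆ lift T 1 := by
      rw [← hup]
      intro x hx
      simp only [up, Face, Finset.mem_filter] at hx ⊢
      exact ⟨hx.1.1, hx.2⟩
    obtain ⟨x, hx, y, hy, z, hz, hind⟩ := hnc
    have hx1 := (mem_lift.1 (hsub hx)).1
    have hy1 := (mem_lift.1 (hsub hy)).1
    have hz1 := (mem_lift.1 (hsub hz)).1
    have hval : ∀ t ∈ up (Face A n c), d3 n t = c := by
      intro t ht
      simp only [up, Face, Finset.mem_filter] at ht
      exact ht.1.2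
    have ex := hval x hx
    have ey := hval y hy
    have ez := hval z hz
    have e3 : ∀ t : W, d3 n t = n 0 * t 0 + n 1 * t 1 + n 2 * t 2 := by
      intro t
      simp only [d3, Fin.sum_univ_three]
    rw [e3] at ex ey ez
    rw [hx1] at ex
    rw [hy1] at ey
    rw [hz1] at ez
    have hdet : (y 0 - x 0) * (z 1 - x 1) - (y 1 - x 1) * (z 0 - x 0) ≠ 0 := by
      intro hd
      -- a nontrivial relation
      have r1 := hind (z 1 - x 1) (-(y 1 - x 1)) (by
        funext i
        fin_cases i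
        · simp only [Pi.add_apply, Pi.smul_apply, Pi.sub_apply, smul_eq_mul, Pi.zero_apply,
            Fin.zero_eta]
          linarith
        · simp only [Pi.add_apply, Pi.smul_apply, Pi.sub_apply, smul_eq_mul, Pi.zero_apply,
            Fin.mk_one]
          ring
        · simp only [Pi.add_apply, Pi.smul_apply, Pi.sub_apply, smul_eq_mul, Pi.zero_apply,
            Fin.reduceFinMk, hx1, hy1, hz1]
          ring)
      have r2 := hind (z 0 - x 0) (-(y 0 - x 0)) (by
        funext i
        fin_cases i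
        · simp only [Pi.add_apply, Pi.smul_apply, Pi.sub_apply, smul_eq_mul, Pi.zero_apply,
            Fin.zero_eta]
          ring
        · simp only [Pi.add_apply, Pi.smul_apply, Pi.sub_apply, smul_eq_mul, Pi.zero_apply,
            Fin.mk_one]
          linarith
        · simp only [Pi.add_apply, Pi.smul_apply, Pi.sub_apply, smul_eq_mul, Pi.zero_apply,
            Fin.reduceFinMk, hx1, hy1, hz1]
          ring)
      have r3 := hind 1 0 (by
        funext i
        fin_cases i
        · simp only [Pi.add_apply, Pi.smul_apply, Pi.sub_apply, smul_eq_mul, Pi.zero_apply,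
            Fin.zero_eta]
          linarith [r2.2]
        · simp only [Pi.add_apply, Pi.smul_apply, Pi.sub_apply, smul_eq_mul, Pi.zero_apply,
            Fin.mk_one]
          linarith [r1.2]
        · simp only [Pi.add_apply, Pi.smul_apply, Pi.sub_apply, smul_eq_mul, Pi.zero_apply,
            Fin.reduceFinMk, hx1, hy1, hz1]
          ring)
      exact absurd r3.1 one_ne_zero
    have g1 : n 0 * (y 0 - x 0) + n 1 * (y 1 - x 1) = 0 := by linarith
    have g2 : n 0 * (z 0 - x 0) + n 1 * (z 1 - x 1) = 0 := by linarith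
    have hn0 : n 0 = 0 := by
      have : n 0 * ((y 0 - x 0) * (z 1 - x 1) - (y 1 - x 1) * (z 0 - x 0)) = 0 := by
        linear_combination (z 1 - x 1) * g1 - (y 1 - x 1) * g2
      exact (mul_eq_zero.1 this).resolve_right hdet
    have hn1 : n 1 = 0 := by
      have : n 1 * ((y 0 - x 0) * (z 1 - x 1) - (y 1 - x 1) * (z 0 - x 0)) = 0 := by
        linear_combination (y 0 - x 0) * g2 - (z 0 - x 0) * g1
      exact (mul_eq_zero.1 this).resolve_right hdet
    have hn2 : n 2 = c := by
      rw [hn0, hn1] at ex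
      linarith
    have heq : up (Face A n c) = lift T 1 := by
      apply Finset.Subset.antisymm hsub
      rw [← hup]
      intro t ht
      have ht' := ht
      rw [hup, mem_lift] at ht'
      simp only [up, Face, Finset.mem_filter] at ht ⊢
      refine ⟨⟨ht.1, ?_⟩, ht.2⟩
      rw [e3, hn0, hn1, hn2, ht'.1]
      ring
    exact ⟨heq, heq ▸ ⟨x, hx, y, hy, z, hz, hind⟩⟩
  have hred : ∀ w' : W → ℝ, (NonCol (lift T 1) → OKr (lift T 1) w') →
      (NonCol (A.filter (fun x => x 2 = 1)) → OKr (A.filter (fun x => x 2 = 1)) w') ∧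
      ∀ n c, Fac A n c → NonCol (up (Face A n c)) → OKr (up (Face A n c)) w' := by
    intro w' hw'
    rw [hlev]
    refine ⟨hw', fun n c hf hnc => ?_⟩
    obtain ⟨h2, h3⟩ := hfac n c hf hnc
    rw [h2]
    exact hw' h3
  have hTne : T.Nonempty := by
    obtain ⟨x, hx⟩ := hA.hi
    rw [hup, mem_lift] at hx
    exact ⟨_, hx.2⟩
  have hTL : LatConv T := by
    intro x hx
    rw [hT]
    apply hA.lat
    -- the affine map
    let g : ℝ × ℝ →ᵃ[ℝ] (Fin 3 → ℝ) :=
      { toFun := fun p => ![p.1, p.2, 1]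
        linear :=
          { toFun := fun p => ![p.1, p.2, 0]
            map_add' := by
              intro p q
              funext i
              fin_cases i <;> simp
            map_smul' := by
              intro r p
              funext i
              fin_cases i <;> simp }
        map_vadd' := by
          intro p q
          funext i
          fin_cases i <;> simp }
    have hg : ∀ y : V, g (toR y) = emb (pt y 1) := by
      intro y
      show (![(toR y).1, (toR y).2, 1] : Fin 3 → ℝ) = emb (pt y 1)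
      funext i
      fin_cases i <;> simp [toR, emb, pt]
    have himg : g (toR x) ∈ g '' (convexHull ℝ (toR '' (T : Set V))) := ⟨_, hx, rfl⟩
    rw [AffineMap.image_convexHull, hg] at himg
    refine convexHull_mono ?_ himg
    rintro _ ⟨_, ⟨y, hy, rfl⟩, rfl⟩
    rw [hg]
    exact ⟨pt y 1, (hT y).1 hy, rfl⟩
  by_cases hcol : NonCol (lift T 1)
  · obtain ⟨ω, hω, hok⟩ := poly_ok hTL (nonCol_lift.1 hcol) 1
    refine ⟨fun x => ω (x 0, x 1), ?_, hred _ (fun _ => hok)⟩
    rw [hup]
    exact ru_lift hω (fun _ => rfl) 1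
  · obtain ⟨ω, hω⟩ := poly_uni hTL hTne
    refine ⟨fun x => ω (x 0, x 1), ?_, hred _ (fun h => absurd h hcol)⟩
    rw [hup]
    exact ru_lift hω (fun _ => rfl) 1

private theorem flat_bot {A : Finset W} (hA : Bs A) {n : W} {c : ℤ} (h : ∀ x ∈ up A, d3 n x = c)
    {p : W} (hp : p ∈ A) (hp2 : 2 ≤ p 2) : ∀ b ∈ A, b 2 = 0 → d3 n b ≤ c := by
  classical
  intro b hb hb2
  obtain ⟨K, hK⟩ : ∃ K : ℤ, ∀ y ∈ A, |d3 n y| ≤ K :=
    ⟨∑ y ∈ A, |d3 n y|, fun y hy =>
      Finset.single_le_sum (f := fun y => |d3 n y|) (fun _ _ => abs_nonneg _) hy⟩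
  obtain ⟨x, hxm, hx⟩ := face_vertex ⟨p, hp⟩ ![n 0, n 1, n 2 - (2 * K + 1)]
  have hm : ∀ y : W, d3 ![n 0, n 1, n 2 - (2 * K + 1)] y = d3 n y - (2 * K + 1) * y 2 := by
    intro y
    rw [flat_d3, flat_d3]
    simp only [Matrix.cons_val_zero, Matrix.cons_val_one, Matrix.cons_val]
    ring
  have hxA : x ∈ A := hx.1
  have hK0 : 0 ≤ K := le_trans (abs_nonneg _) (hK b hb)
  have hx0 : x 2 = 0 := by
    have h1 := hxm b hb
    rw [hm, hm, hb2] at h1
    have h2 := abs_le.1 (hK b hb)
    have h3 := abs_le.1 (hK x hxA)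
    have h4 := hA.nn x hxA
    by_contra hne
    have h5 : 1 ≤ x 2 := by omega
    nlinarith
  obtain ⟨e, e', f, -, hV⟩ := bot_vertexR hA hx hx0
  have hbx : d3 n b ≤ d3 n x := by
    have h1 := hxm b hb
    rw [hm, hm, hb2, hx0] at h1
    linarith
  have h0 : d3 n (pt e 0) ≤ 0 := by
    have h1 := hV.step 0
    have h2 := hxm _ h1
    rw [hm, hm, d3_add, hx0] at h2
    have h3 : (x + (![pt e 0, pt e' 0, pt f 1] : Fin 3 → W) 0) 2 = 0 := by
      simp [hx0]
    rw [h3] at h2
    have h4 : d3 n ((![pt e 0, pt e' 0, pt f 1] : Fin 3 → W) 0) = d3 n (pt e 0) := rfl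
    rw [h4] at h2
    linarith
  have h1 : d3 n (pt e' 0) ≤ 0 := by
    have h1 := hV.step 1
    have h2 := hxm _ h1
    rw [hm, hm, d3_add, hx0] at h2
    have h3 : (x + (![pt e 0, pt e' 0, pt f 1] : Fin 3 → W) 1) 2 = 0 := by
      simp [hx0]
    rw [h3] at h2
    have h4 : d3 n ((![pt e 0, pt e' 0, pt f 1] : Fin 3 → W) 1) = d3 n (pt e' 0) := rfl
    rw [h4] at h2
    linarith
  have h2 : d3 n x + d3 n (pt f 1) = c := by
    have h3 : (x + pt f 1) ∈ A := hV.step 2
    rw [← d3_add]
    apply h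
    rw [up, Finset.mem_filter]
    refine ⟨h3, ?_⟩
    simp [hx0]
  have hpc : d3 n p = c := h p (by rw [up, Finset.mem_filter]; exact ⟨hp, by linarith⟩)
  obtain ⟨t, ht, htp⟩ := hV.cone p hp
  rw [Fin.sum_univ_three] at htp
  have htp' : x + (t 0 • pt e 0 + t 1 • pt e' 0 + t 2 • pt f 1) = p := htp
  have ht2 : t 2 = p 2 := by
    rw [← htp']
    simp [hx0]
  have h5 : d3 n x + (t 0 * d3 n (pt e 0) + t 1 * d3 n (pt e' 0) + t 2 * d3 n (pt f 1)) = c := by
    rw [← hpc, ← htp', d3_add, d3_add, d3_add, d3_smul, d3_smul, d3_smul]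
  have h6 : t 0 * d3 n (pt e 0) ≤ 0 := mul_nonpos_of_nonneg_of_nonpos (ht 0) h0
  have h7 : t 1 * d3 n (pt e' 0) ≤ 0 := mul_nonpos_of_nonneg_of_nonpos (ht 1) h1
  have h8 : d3 n (pt f 1) = c - d3 n x := by linarith
  rw [h8] at h5
  have h9 : 0 ≤ (t 2 - 1) * (c - d3 n x) := by nlinarith
  have h10 : 0 < t 2 - 1 := by rw [ht2]; linarith
  have h11 : 0 ≤ c - d3 n x := by
    by_contra hneg
    push Not at hneg
    have := mul_neg_of_pos_of_neg h10 hneg
    linarith
  linarith

theorem flat_one {A : Finset W} (hA : Bs A) {n : W} (hn : n ≠ 0) {c : ℤ} (h : ∀ x ∈ up A, d3 n x = c) :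
    ∀ x ∈ A, x 2 ≤ 1 := by
  classical
  by_contra hcon
  push Not at hcon
  obtain ⟨p, hp, hp2⟩ := hcon
  have hp2' : 2 ≤ p 2 := by omega
  have hneg : ∀ x ∈ up A, d3 (-n) x = -c := by
    intro x hx
    have := h x hx
    rw [flat_d3] at this ⊢
    simp only [Pi.neg_apply]
    linarith
  have hu := flat_bot hA h hp hp2'
  have hl := flat_bot hA hneg hp hp2'
  have hbot : ∀ b ∈ A, b 2 = 0 → d3 n b = c := by
    intro b hb hb2
    have h1 := hu b hb hb2
    have h2 := hl b hb hb2
    have h3 : d3 (-n) b = - d3 n b := by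
      rw [flat_d3, flat_d3]
      simp only [Pi.neg_apply]
      ring
    rw [h3] at h2
    linarith
  obtain ⟨x, hx, y, hy, z, hz, hind⟩ := hA.nc
  rw [Finset.mem_filter] at hx hy hz
  have ex := hbot x hx.1 hx.2
  have ey := hbot y hy.1 hy.2
  have ez := hbot z hz.1 hz.2
  rw [flat_d3] at ex ey ez
  rw [hx.2] at ex
  rw [hy.2] at ey
  rw [hz.2] at ez
  have hdet : (y 0 - x 0) * (z 1 - x 1) - (y 1 - x 1) * (z 0 - x 0) ≠ 0 := by
    intro hd
    have r1 := hind (z 1 - x 1) (-(y 1 - x 1)) (by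
      funext i
      fin_cases i
      · simp only [Pi.add_apply, Pi.smul_apply, Pi.sub_apply, smul_eq_mul, Pi.zero_apply,
          Fin.zero_eta]
        linarith
      · simp only [Pi.add_apply, Pi.smul_apply, Pi.sub_apply, smul_eq_mul, Pi.zero_apply,
          Fin.mk_one]
        ring
      · simp only [Pi.add_apply, Pi.smul_apply, Pi.sub_apply, smul_eq_mul, Pi.zero_apply,
          Fin.reduceFinMk, hx.2, hy.2, hz.2]
        ring)
    have r2 := hind (z 0 - x 0) (-(y 0 - x 0)) (by
      funext i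
      fin_cases i
      · simp only [Pi.add_apply, Pi.smul_apply, Pi.sub_apply, smul_eq_mul, Pi.zero_apply,
          Fin.zero_eta]
        ring
      · simp only [Pi.add_apply, Pi.smul_apply, Pi.sub_apply, smul_eq_mul, Pi.zero_apply,
          Fin.mk_one]
        linarith
      · simp only [Pi.add_apply, Pi.smul_apply, Pi.sub_apply, smul_eq_mul, Pi.zero_apply,
          Fin.reduceFinMk, hx.2, hy.2, hz.2]
        ring)
    have r3 := hind 1 0 (by
      funext i
      fin_cases i
      · simp only [Pi.add_apply, Pi.smul_apply, Pi.sub_apply, smul_eq_mul, Pi.zero_apply,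
          Fin.zero_eta]
        linarith [r2.2]
      · simp only [Pi.add_apply, Pi.smul_apply, Pi.sub_apply, smul_eq_mul, Pi.zero_apply,
          Fin.mk_one]
        linarith [r1.2]
      · simp only [Pi.add_apply, Pi.smul_apply, Pi.sub_apply, smul_eq_mul, Pi.zero_apply,
          Fin.reduceFinMk, hx.2, hy.2, hz.2]
        ring)
    exact absurd r3.1 one_ne_zero
  have g1 : n 0 * (y 0 - x 0) + n 1 * (y 1 - x 1) = 0 := by linarith
  have g2 : n 0 * (z 0 - x 0) + n 1 * (z 1 - x 1) = 0 := by linarith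
  have hn0 : n 0 = 0 := by
    have : n 0 * ((y 0 - x 0) * (z 1 - x 1) - (y 1 - x 1) * (z 0 - x 0)) = 0 := by
      linear_combination (z 1 - x 1) * g1 - (y 1 - x 1) * g2
    exact (mul_eq_zero.1 this).resolve_right hdet
  have hn1 : n 1 = 0 := by
    have : n 1 * ((y 0 - x 0) * (z 1 - x 1) - (y 1 - x 1) * (z 0 - x 0)) = 0 := by
      linear_combination (y 0 - x 0) * g2 - (z 0 - x 0) * g1
    exact (mul_eq_zero.1 this).resolve_right hdet
  have hc0 : c = 0 := by
    rw [hn0, hn1] at ex
    linarith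
  have hpc : d3 n p = c := h p (by rw [up, Finset.mem_filter]; exact ⟨hp, by linarith⟩)
  rw [flat_d3, hn0, hn1, hc0] at hpc
  have hn2 : n 2 = 0 := by
    have h1 : n 2 * p 2 = 0 := by linarith
    exact (mul_eq_zero.1 h1).resolve_right (by omega)
  apply hn
  funext i
  fin_cases i
  · exact hn0
  · exact hn1
  · exact hn2

end Pool.Agent.SPR
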