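import Pool.Agent.SPR.Defs

/-!
# [SPR-Frc] forced rays

`frc`: `y` from `Side2`. If `y + e ∈ B`: `EdgeNorm` for `y, y + e` and `u`. If there is another point of `B` where `dot u` has the same maximal value: `EdgeNorm` again. So let `y` be the only maximum. Suppose `u ∉ F`. `complete` (SPB/Fan) for `a = u`: `Adj F r r'`, `u = α r + β r'` with integers `α = det u r' ≥ 0`, `β = det r u ≥ 0`; `α, β ≥ 1` as `u ∉ F` (if `β = 0` then `u = α r`, `α = 1` as `u` is primitive).
Claim: `dot r p ≤ dot r y` for all `p ∈ B` (and the same for `r'`). Otherwise among the points `p ∈ B` with `dot r p > dot r y` choose one with the smallest `ρ = (dot u y - dot u p) / (dot r p - dot r y)`, `ρ > 0` (numerator positive). The functional `n = (dot r p - dot r y) u + (dot u y - dot u p) r` (integral coefficients, `N₁ u + N₂ r`, `N₁ ≥ 1`, `N₂ ≥ 1`) has the same value at `y` and `p` and is maximal there (for `q` with `dot r q > dot r y` by the choice of `p`, for the others clear). Divide by the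 gcd: a primitive `n'` with `EdgeNorm`: `n' ∈ F`, `m n' = (N₁ α + N₂) r + N₁ β r'`, `m ≥ 1`, so `det r n' > 0`, `det n' r' > 0`, contradiction to `Adj F r r'`.
Now `-1 = dot u g = α dot r g + β dot r' g`. `p = y + a e + b g`, `q = y - a' e + b' g`. `b = dot u y - dot u p ≥ 0`, `b' ≥ 0`. `a dot r e + b dot r g ≤ 0`, `a dot r' e + b dot r' g ≤ 0`, `- a' dot r e + b' dot r g ≤ 0`, `- a' dot r' e + b' dot r' g ≤ 0`. `0 = α dot r e + β dot r' e`, and not both `dot r e, dot r' e` are `0` (`det r r' = 1`, `e ≠ 0`). If `dot r e > 0`, `dot r' e < 0`: `b dot r g ≤ - a dot r e < 0`, so `dot r g ≤ -1`; `b' dot r' g ≤ a' dot r' e < 0`, so `dot r' g ≤ -1`; then `-1 ≤ - α - β ≤ -2`, contradiction. The other case is symmetric.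
`rld_force`: `Rld (lift B z) e₃`, `u, v`. `e₃ 2 = 0`: clear if `y + e₃ ∈ lift B z`; otherwise compare the last coordinates of `a e₃ + b g` and `- a' e₃ + b' g` (both `0`): `e₃ 2 (a b' + a' b) = 0`, and `b, b' ≥ 0` (values of `u`), and if `b = b' = 0` then `a e₃ 2 = 0`. So `e₃ = pt e 0`, `Prim e` by `v`. `u' = (u 0, u 1)`, `dot u' e = 0`, so `u' = m • (e.2, -e.1)`; two consecutive values are attained, so `m = ± 1`. `Side2 B e u'` and `Side2 B e (-u')`: in the second alternative, if `b = 0` then `y + a e ∈ B` has the same value of `u` as `y` and `EdgeNorm` applies directly; if `b ≠ 0` then `g 2 = 0`, `g = pt g' 0`.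
-/

open Finset Pool.Agent.SPB Pool.Agent.SPK

set_option autoImplicit false

namespace Pool.Agent.SPR

/-- planar version of `Side` -/
def Side2 (B : Finset V) (e u : V) : Prop :=
  ∃ y ∈ B, (∀ x ∈ B, dot u x ≤ dot u y) ∧ (y + e ∈ B ∨ ∃ (g : V) (a a' b b' : ℤ), dot u g = -1 ∧ 1 ≤ a ∧ 1 ≤ a' ∧
    y + a • e + b • g ∈ B ∧ y - a' • e + b' • g ∈ B)

private theorem frc_dot_add (s x y : V) : dot s (x + y) = dot s x + dot s y := by
  simp only [dot, Prod.fst_add, Prod.snd_add]
  ring

private theorem frc_dot_sub (s x y : V) : dot s (x - y) = dot s x - dot s y := by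
  simp only [dot, Prod.fst_sub, Prod.snd_sub]
  ring

private theorem frc_dot_smul (s x : V) (k : ℤ) : dot s (k • x) = k * dot s x := by
  simp only [dot, Prod.smul_fst, Prod.smul_snd, smul_eq_mul]
  ring

private theorem frc_claim {F B : Finset V} (hE : EdgeNorm F B) {y u s : V} (hy : y ∈ B)
    (hst : ∀ p ∈ B, p ≠ y → dot u p < dot u y) (hdet : det s u ≠ 0) (hex : ∃ p ∈ B, dot s y < dot s p) :
    ∃ (N₁ N₂ m : ℤ) (n : V), 1 ≤ N₁ ∧ 1 ≤ N₂ ∧ 1 ≤ m ∧ n ∈ F ∧ m • n = N₁ • u + N₂ • s := by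
  classical
  have hne : (B.filter (fun p => dot s y < dot s p)).Nonempty := by
    obtain ⟨p, hp, h⟩ := hex
    exact ⟨p, Finset.mem_filter.2 ⟨hp, h⟩⟩
  obtain ⟨p, hp, hmin⟩ := Finset.exists_min_image _
    (fun p => ((dot u y - dot u p : ℤ) : ℚ) / ((dot s p - dot s y : ℤ) : ℚ)) hne
  rw [Finset.mem_filter] at hp
  obtain ⟨hpB, hps⟩ := hp
  have hpy : p ≠ y := by
    rintro rfl
    exact lt_irrefl _ hps
  have hpu := hst p hpB hpy
  obtain ⟨N₁, hN₁⟩ : ∃ N₁ : ℤ, N₁ = dot s p - dot s y := ⟨_, rfl⟩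
  obtain ⟨N₂, hN₂⟩ : ∃ N₂ : ℤ, N₂ = dot u y - dot u p := ⟨_, rfl⟩
  have hN₁' : 1 ≤ N₁ := by omega
  have hN₂' : 1 ≤ N₂ := by omega
  have hdetn : (N₁ * u.1 + N₂ * s.1 ≠ 0) ∨ (N₁ * u.2 + N₂ * s.2 ≠ 0) := by
    by_contra hcon
    push Not at hcon
    obtain ⟨h1, h2⟩ := hcon
    have h3 : N₁ * det s u = 0 := by
      unfold det
      linear_combination s.1 * h2 - s.2 * h1
    rcases mul_eq_zero.1 h3 with h4 | h4
    · omega
    · exact hdet h4
  have hg : 0 < Int.gcd (N₁ * u.1 + N₂ * s.1) (N₁ * u.2 + N₂ * s.2) := by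
    rw [Int.gcd_pos_iff]
    exact hdetn
  obtain ⟨m1, m2, hm, e1, e2⟩ := Int.exists_gcd_one hg
  set g : ℕ := Int.gcd (N₁ * u.1 + N₂ * s.1) (N₁ * u.2 + N₂ * s.2) with hgdef
  have hg' : (1 : ℤ) ≤ (g : ℤ) := by exact_mod_cast hg
  have hdot : ∀ x : V, (g : ℤ) * dot ((m1, m2) : V) x = N₁ * dot u x + N₂ * dot s x := by
    intro x
    unfold dot
    simp only
    linear_combination (-x.1) * e1 - x.2 * e2
  have hmaxn : ∀ w ∈ B, N₁ * dot u w + N₂ * dot s w ≤ N₁ * dot u y + N₂ * dot s y := by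
    intro w hw
    by_cases hws : dot s y < dot s w
    · have h1 := hmin w (Finset.mem_filter.2 ⟨hw, hws⟩)
      have hA : (0 : ℚ) < ((dot s p - dot s y : ℤ) : ℚ) := by
        exact_mod_cast (by omega : (0 : ℤ) < dot s p - dot s y)
      have hB : (0 : ℚ) < ((dot s w - dot s y : ℤ) : ℚ) := by
        exact_mod_cast (by omega : (0 : ℤ) < dot s w - dot s y)
      rw [div_le_div_iff₀ hA hB] at h1
      have h2 : (dot u y - dot u p) * (dot s w - dot s y) ≤ (dot u y - dot u w) * (dot s p - dot s y) := by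
        exact_mod_cast h1
      rw [← hN₁, ← hN₂] at h2
      linarith
    · rw [not_lt] at hws
      have h1 : dot u w ≤ dot u y := by
        by_cases hwy : w = y
        · rw [hwy]
        · exact (hst w hw hwy).le
      have h2 : N₁ * dot u w ≤ N₁ * dot u y := mul_le_mul_of_nonneg_left h1 (by omega)
      have h3 : N₂ * dot s w ≤ N₂ * dot s y := mul_le_mul_of_nonneg_left hws (by omega)
      linarith
  refine ⟨N₁, N₂, g, (m1, m2), hN₁', hN₂', hg', ?_, ?_⟩
  · apply hE y hy p hpB (Ne.symm hpy) (m1, m2)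
    · exact Int.isCoprime_iff_gcd_eq_one.2 hm
    · have h1 := hdot y
      have h2 := hdot p
      have h3 : (g : ℤ) * dot ((m1, m2) : V) y = (g : ℤ) * dot ((m1, m2) : V) p := by
        rw [h1, h2, hN₁, hN₂]
        ring
      exact mul_left_cancel₀ (by omega) h3
    · intro w hw
      have h1 := hdot y
      have h2 := hdot w
      have h3 := hmaxn w hw
      rw [← h1, ← h2] at h3
      exact le_of_mul_le_mul_left h3 (by omega)
  · ext
    · simp only [Prod.smul_fst, Prod.fst_add, smul_eq_mul]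
      linarith
    · simp only [Prod.smul_snd, Prod.snd_add, smul_eq_mul]
      linarith

private theorem frc_contra {α β A A' G G' a a' b b' : ℤ} (hα : 1 ≤ α) (hβ : 1 ≤ β) (ha : 1 ≤ a) (ha' : 1 ≤ a')
    (hb : 0 ≤ b) (hb' : 0 ≤ b') (h0 : α * A + β * A' = 0) (h1 : α * G + β * G' = -1)
    (c1 : a * A + b * G ≤ 0) (_c2 : a * A' + b * G' ≤ 0) (_c3 : -(a' * A) + b' * G ≤ 0)
    (c4 : -(a' * A') + b' * G' ≤ 0) (hA : 0 < A) : False := by
  have hA' : A' < 0 := by nlinarith
  have hG : G ≤ -1 := by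
    by_contra h
    have : 0 ≤ G := by omega
    nlinarith [mul_nonneg hb this]
  have hG' : G' ≤ -1 := by
    by_contra h
    have : 0 ≤ G' := by omega
    nlinarith [mul_nonneg hb' this]
  nlinarith

theorem frc {F B : Finset V} (hF : SmoothFan F) (hE : EdgeNorm F B) {e u : V} (he : e ≠ 0) (hu : dot u e = 0)
    (hp : Prim u) (hS : Side2 B e u) : u ∈ F := by
  obtain ⟨y, hy, hmax, halt⟩ := hS
  by_cases hex : ∃ p ∈ B, p ≠ y ∧ dot u p = dot u y
  · obtain ⟨p, hpB, hpy, hpu⟩ := hex
    exact hE y hy p hpB (Ne.symm hpy) u hp hpu.symm hmax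
  have hst : ∀ p ∈ B, p ≠ y → dot u p < dot u y := by
    intro p hpB hpy
    refine lt_of_le_of_ne (hmax p hpB) (fun h => hex ⟨p, hpB, hpy, h⟩)
  rcases halt with h | ⟨g, a, a', b, b', hg, ha, ha', hp1, hp2⟩
  · exfalso
    apply hex
    refine ⟨y + e, h, ?_, ?_⟩
    · intro h1
      exact he (by simpa using h1)
    · rw [frc_dot_add, hu, add_zero]
  by_contra huF
  obtain ⟨r, r', hadj, hd1, hd2⟩ := complete hF (toR u)
  have hα : 0 ≤ det u r' := by
    unfold toR at hd1
    unfold det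
    simp only at hd1
    exact_mod_cast hd1
  have hβ : 0 ≤ det r u := by
    unfold toR at hd2
    unfold det
    simp only at hd2
    exact_mod_cast hd2
  obtain ⟨hrF, hr'F, hrr, hadj2⟩ := hadj
  obtain ⟨α, hαd⟩ : ∃ α : ℤ, α = det u r' := ⟨_, rfl⟩
  obtain ⟨β, hβd⟩ : ∃ β : ℤ, β = det r u := ⟨_, rfl⟩
  rw [← hαd] at hα
  rw [← hβd] at hβ
  have hu1 : u.1 = α * r.1 + β * r'.1 := by
    rw [hαd, hβd]
    unfold det at hrr ⊢
    linear_combination (-u.1) * hrr
  have hu2 : u.2 = α * r.2 + β * r'.2 := by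
    rw [hαd, hβd]
    unfold det at hrr ⊢
    linear_combination (-u.2) * hrr
  have hdotu : ∀ x : V, dot u x = α * dot r x + β * dot r' x := by
    intro x
    unfold dot
    rw [hu1, hu2]
    ring
  have hprimmul : ∀ (k : ℤ) (w : V), 0 ≤ k → u.1 = k * w.1 → u.2 = k * w.2 → u = w := by
    intro k w hk h1 h2
    obtain ⟨s, t, hst'⟩ := hp
    have h3 : k * (s * w.1 + t * w.2) = 1 := by
      rw [← hst', h1, h2]
      ring
    have h4 : k = 1 := by
      rcases Int.isUnit_iff.1 (IsUnit.of_mul_eq_one _ h3) with h | h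
      · exact h
      · omega
    rw [h4, one_mul] at h1 h2
    exact Prod.ext h1 h2
  have hβ1 : 1 ≤ β := by
    rcases eq_or_lt_of_le hβ with h | h
    · exfalso
      apply huF
      rw [hprimmul α r hα (by rw [hu1, ← h]; ring) (by rw [hu2, ← h]; ring)]
      exact hrF
    · omega
  have hα1 : 1 ≤ α := by
    rcases eq_or_lt_of_le hα with h | h
    · exfalso
      apply huF
      rw [hprimmul β r' hβ (by rw [hu1, ← h]; ring) (by rw [hu2, ← h]; ring)]
      exact hr'F
    · omega
  have hclaim : ∀ s : V, 0 ≤ det r s → 0 ≤ det s r' → det s u ≠ 0 → ∀ p ∈ B, dot s p ≤ dot s y := by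
    intro s hs1 hs2 hs3 p hpB
    by_contra hcon
    rw [not_le] at hcon
    obtain ⟨N₁, N₂, m, n, hN₁, hN₂, hm, hnF, hmn⟩ := frc_claim hE hy hst hs3 ⟨p, hpB, hcon⟩
    have e1 : m * n.1 = N₁ * u.1 + N₂ * s.1 := by
      have := congrArg Prod.fst hmn
      simpa using this
    have e2 : m * n.2 = N₁ * u.2 + N₂ * s.2 := by
      have := congrArg Prod.snd hmn
      simpa using this
    have d1 : m * det r n = N₁ * β + N₂ * det r s := by
      rw [hβd]
      unfold det
      linear_combination r.1 * e2 - r.2 * e1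
    have d2 : m * det n r' = N₁ * α + N₂ * det s r' := by
      rw [hαd]
      unfold det
      linear_combination r'.2 * e1 - r'.1 * e2
    have p1 : 0 < det r n := by
      by_contra h
      rw [not_lt] at h
      have q1 : m * det r n ≤ 0 := mul_nonpos_of_nonneg_of_nonpos (by omega) h
      have q2 : 0 ≤ N₂ * det r s := mul_nonneg (by omega) hs1
      have q3 : 1 ≤ N₁ * β := by nlinarith
      omega
    have p2 : 0 < det n r' := by
      by_contra h
      rw [not_lt] at h
      have q1 : m * det n r' ≤ 0 := mul_nonpos_of_nonneg_of_nonpos (by omega) h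
      have q2 : 0 ≤ N₂ * det s r' := mul_nonneg (by omega) hs2
      have q3 : 1 ≤ N₁ * α := by nlinarith
      omega
    rcases hadj2 n hnF p1.le p2.le with h | h
    · rw [h] at p1
      unfold det at p1
      have : r.1 * r.2 - r.2 * r.1 = 0 := by ring
      omega
    · rw [h] at p2
      unfold det at p2
      have : r'.1 * r'.2 - r'.2 * r'.1 = 0 := by ring
      omega
  have hself : ∀ w : V, det w w = 0 := by
    intro w
    unfold det
    ring
  have hcr := hclaim r (by rw [hself]) (by rw [hrr]; norm_num) (by rw [← hβd]; omega)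
  have hcr' := hclaim r' (by rw [hrr]; norm_num) (by rw [hself]) (by
    have h1 : det r' u = -det u r' := by
      unfold det
      ring
    rw [h1, ← hαd]
    omega)
  have hb : 0 ≤ b := by
    have h1 := hmax _ hp1
    rw [frc_dot_add, frc_dot_add, frc_dot_smul, frc_dot_smul, hu, hg] at h1
    linarith
  have hb' : 0 ≤ b' := by
    have h1 := hmax _ hp2
    rw [frc_dot_add, frc_dot_sub, frc_dot_smul, frc_dot_smul, hu, hg] at h1
    linarith
  have c1 := hcr _ hp1
  have c2 := hcr' _ hp1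
  have c3 := hcr _ hp2
  have c4 := hcr' _ hp2
  rw [frc_dot_add, frc_dot_add, frc_dot_smul, frc_dot_smul] at c1 c2
  rw [frc_dot_add, frc_dot_sub, frc_dot_smul, frc_dot_smul] at c3 c4
  have h0 : α * dot r e + β * dot r' e = 0 := by rw [← hdotu, hu]
  have h1 : α * dot r g + β * dot r' g = -1 := by rw [← hdotu, hg]
  rcases lt_trichotomy (dot r e) 0 with hA | hA | hA
  · have hA' : 0 < dot r' e := by nlinarith
    exact frc_contra hβ1 hα1 ha ha' hb hb' (by linarith) (by linarith)
      (by linarith : a * dot r' e + b * dot r' g ≤ 0) (by linarith : a * dot r e + b * dot r g ≤ 0)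
      (by linarith) (by linarith) hA'
  · have hA' : dot r' e = 0 := by
      rw [hA, mul_zero, zero_add] at h0
      rcases mul_eq_zero.1 h0 with h | h
      · omega
      · exact h
    apply he
    have k1 : e.1 = 0 := by
      unfold dot at hA hA'
      unfold det at hrr
      linear_combination (-e.1) * hrr + r'.2 * hA - r.2 * hA'
    have k2 : e.2 = 0 := by
      unfold dot at hA hA'
      unfold det at hrr
      linear_combination (-e.2) * hrr - r'.1 * hA + r.1 * hA'
    exact Prod.ext k1 k2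
  · exact frc_contra hα1 hβ1 ha ha' hb hb' h0 h1 (by linarith) (by linarith) (by linarith) (by linarith) hA

private theorem frc_mem_lift {B : Finset V} {z : ℤ} {x : W} :
    x ∈ lift B z ↔ (x 0, x 1) ∈ B ∧ x 2 = z := by
  unfold lift
  rw [Finset.mem_image]
  constructor
  · rintro ⟨y, hy, rfl⟩
    refine ⟨?_, ?_⟩
    · simpa [pt] using hy
    · simp [pt]
  · rintro ⟨h1, h2⟩
    refine ⟨_, h1, ?_⟩
    funext i
    fin_cases i
    · simp [pt]
    · simp [pt]
    · simp [pt, h2]

private theorem frc_d3 (u x : W) : d3 u x = dot (u 0, u 1) (x 0, x 1) + u 2 * x 2 := by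
  simp only [d3, Fin.sum_univ_three, dot]

private theorem frc_side {F B : Finset V} (hF : SmoothFan F) (hE : EdgeNorm F B) {z : ℤ} {e₃ u : W} (he2 : e₃ 2 = 0)
    (he : ((e₃ 0, e₃ 1) : V) ≠ 0) (hu : dot (u 0, u 1) (e₃ 0, e₃ 1) = 0) (hp : Prim (u 0, u 1))
    (hS : Side (lift B z) e₃ u) : ((u 0, u 1) : V) ∈ F := by
  obtain ⟨y, hy, hmax, halt⟩ := hS
  obtain ⟨hyB, hyz⟩ := frc_mem_lift.1 hy
  have hmax2 : ∀ x ∈ B, dot (u 0, u 1) x ≤ dot (u 0, u 1) (y 0, y 1) := by
    intro x hx
    have h1 := hmax (pt x z) (frc_mem_lift.2 ⟨by simpa [pt] using hx, by simp [pt]⟩)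
    rw [frc_d3, frc_d3] at h1
    have h2 : (pt x z) 2 = z := by simp [pt]
    have h3 : (((pt x z) 0, (pt x z) 1) : V) = x := by simp [pt]
    rw [h2, h3, hyz] at h1
    linarith
  rcases halt with h | ⟨g, a, a', b, b', hg, ha, ha', hp1, hp2⟩
  · apply frc hF hE he hu hp
    refine ⟨(y 0, y 1), hyB, hmax2, Or.inl ?_⟩
    exact (frc_mem_lift.1 h).1
  · have k1 := frc_mem_lift.1 hp1
    have k2 := frc_mem_lift.1 hp2
    obtain ⟨k1a, k1b⟩ := k1
    obtain ⟨k2a, k2b⟩ := k2
    simp only [Pi.add_apply, Pi.sub_apply, Pi.smul_apply, smul_eq_mul] at k1a k1b k2a k2b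
    by_cases hb : b = 0
    · have hne : ((y 0, y 1) : V) ≠ (y 0 + a * e₃ 0 + b * g 0, y 1 + a * e₃ 1 + b * g 1) := by
        intro h
        have h1 := congrArg Prod.fst h
        have h2 := congrArg Prod.snd h
        simp only [hb, zero_mul, add_zero] at h1 h2
        apply he
        have h3 : a * e₃ 0 = 0 := by linarith
        have h4 : a * e₃ 1 = 0 := by linarith
        have h5 : e₃ 0 = 0 := by
          rcases mul_eq_zero.1 h3 with h | h
          · omega
          · exact h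
        have h6 : e₃ 1 = 0 := by
          rcases mul_eq_zero.1 h4 with h | h
          · omega
          · exact h
        rw [h5, h6]
        rfl
      apply hE _ hyB _ k1a hne _ hp _ hmax2
      rw [hb]
      unfold dot at hu ⊢
      simp only at hu ⊢
      linear_combination (-a) * hu
    · have hg2 : g 2 = 0 := by
        rw [he2, hyz] at k1b
        have h3 : b * g 2 = 0 := by linarith
        rcases mul_eq_zero.1 h3 with h | h
        · exact absurd h hb
        · exact h
      apply frc hF hE he hu hp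
      refine ⟨(y 0, y 1), hyB, hmax2, Or.inr ⟨(g 0, g 1), a, a', b, b', ?_, ha, ha', ?_, ?_⟩⟩
      · rw [frc_d3, hg2] at hg
        linarith
      · have h : ((y 0, y 1) : V) + a • (e₃ 0, e₃ 1) + b • (g 0, g 1) =
            (y 0 + a * e₃ 0 + b * g 0, y 1 + a * e₃ 1 + b * g 1) := by
          ext <;> simp
        rw [h]
        exact k1a
      · have h : ((y 0, y 1) : V) - a' • (e₃ 0, e₃ 1) + b' • (g 0, g 1) =
            (y 0 - a' * e₃ 0 + b' * g 0, y 1 - a' * e₃ 1 + b' * g 1) := by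
          ext <;> simp
        rw [h]
        exact k2a

theorem rld_force {F B : Finset V} (hF : SmoothFan F) (hE : EdgeNorm F B) {z : ℤ} {e₃ : W}
    (h : Rld (lift B z) e₃) : ∃ e : V, e₃ = pt e 0 ∧ (e.2, -e.1) ∈ F ∧ -((e.2, -e.1) : V) ∈ F := by
  obtain ⟨u, v, hv, hu, hS1, hS2, ⟨x, hx, y, hy, hxy⟩, hrow⟩ := h
  have he2 : e₃ 2 = 0 := by
    obtain ⟨y0, hy0, hmax, halt⟩ := hS1
    have hyz := (frc_mem_lift.1 hy0).2
    rcases halt with h | ⟨g, a, a', b, b', hg, ha, ha', hp1, hp2⟩
    · have h1 := (frc_mem_lift.1 h).2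
      simp only [Pi.add_apply] at h1
      omega
    · have k1 := (frc_mem_lift.1 hp1).2
      have k2 := (frc_mem_lift.1 hp2).2
      simp only [Pi.add_apply, Pi.sub_apply, Pi.smul_apply, smul_eq_mul] at k1 k2
      have hb : 0 ≤ b := by
        have h1 := hmax _ hp1
        rw [d3_add, d3_add, d3_smul, d3_smul, hu, hg] at h1
        linarith
      have hb' : 0 ≤ b' := by
        have h1 := hmax _ hp2
        rw [d3_add, d3_sub, d3_smul, d3_smul, hu, hg] at h1
        linarith
      have h3 : (a * b' + a' * b) * e₃ 2 = 0 := by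
        linear_combination b' * k1 - b * k2 + (-b' + b) * hyz
      rcases mul_eq_zero.1 h3 with h4 | h4
      · have h5 : 0 ≤ a * b' := mul_nonneg (by omega) hb'
        have h6 : 0 ≤ a' * b := mul_nonneg (by omega) hb
        have h7 : a' * b = 0 := by omega
        have h8 : b = 0 := by
          rcases mul_eq_zero.1 h7 with h | h
          · omega
          · exact h
        rw [h8] at k1
        have h9 : a * e₃ 2 = 0 := by linarith
        rcases mul_eq_zero.1 h9 with h | h
        · omega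
        · exact h
      · exact h4
  have hv' : v 0 * e₃ 0 + v 1 * e₃ 1 = 1 := by
    rw [frc_d3, he2] at hv
    unfold dot at hv
    simp only at hv
    linarith
  have hu' : u 0 * e₃ 0 + u 1 * e₃ 1 = 0 := by
    rw [frc_d3, he2] at hu
    unfold dot at hu
    simp only at hu
    linarith
  have hne : ((e₃ 0, e₃ 1) : V) ≠ 0 := by
    intro h
    have h1 : e₃ 0 = 0 := congrArg Prod.fst h
    have h2 : e₃ 1 = 0 := congrArg Prod.snd h
    rw [h1, h2] at hv'
    omega
  obtain ⟨m, hm⟩ : ∃ m : ℤ, m = v 1 * u 0 - v 0 * u 1 := ⟨_, rfl⟩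
  have hm0 : u 0 = m * e₃ 1 := by
    rw [hm]
    linear_combination (-(u 0)) * hv' + v 0 * hu'
  have hm1 : u 1 = -(m * e₃ 0) := by
    rw [hm]
    linear_combination (-(u 1)) * hv' + v 1 * hu'
  obtain ⟨q, hq, hqv⟩ := hrow x hx y hy (d3 u x + 1) (by omega) (by omega)
  have hxz := (frc_mem_lift.1 hx).2
  have hqz := (frc_mem_lift.1 hq).2
  have hunit : m * (e₃ 1 * (q 0 - x 0) - e₃ 0 * (q 1 - x 1)) = 1 := by
    rw [frc_d3, frc_d3, hxz, hqz] at hqv
    unfold dot at hqv
    simp only at hqv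
    rw [hm0, hm1] at hqv
    linear_combination hqv
  have hm' : m = 1 ∨ m = -1 := Int.isUnit_iff.1 (IsUnit.of_mul_eq_one _ hunit)
  have hprim : Prim ((u 0, u 1) : V) := by
    refine ⟨m * v 1, -(m * v 0), ?_⟩
    have hmm : m * m = 1 := by
      rcases hm' with h | h <;> rw [h] <;> norm_num
    simp only
    rw [hm0, hm1]
    linear_combination (m * m) * hv' + hmm
  have hneg0 : (-u) 0 = -(u 0) := rfl
  have hneg1 : (-u) 1 = -(u 1) := rfl
  have hprim' : Prim (((-u) 0, (-u) 1) : V) := by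
    obtain ⟨s, t, hst⟩ := hprim
    refine ⟨-s, -t, ?_⟩
    simp only [hneg0, hneg1] at hst ⊢
    linear_combination hst
  have hd : dot (u 0, u 1) (e₃ 0, e₃ 1) = 0 := by
    unfold dot
    simp only
    exact hu'
  have hd' : dot ((-u) 0, (-u) 1) (e₃ 0, e₃ 1) = 0 := by
    unfold dot
    simp only [hneg0, hneg1]
    linarith
  have hF1 := frc_side hF hE he2 hne hd hprim hS1
  have hF2 := frc_side hF hE he2 hne hd' hprim' hS2
  simp only [hneg0, hneg1] at hF2
  refine ⟨(e₃ 0, e₃ 1), ?_, ?_⟩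
  · funext i
    fin_cases i
    · simp [pt]
    · simp [pt]
    · simp [pt, he2]
  · have hn : -((e₃ 1, -(e₃ 0)) : V) = (-(e₃ 1), e₃ 0) := by
      ext <;> simp
    simp only
    rw [hn]
    rcases hm' with h | h
    · rw [hm0, hm1, h] at hF1 hF2
      simp only [one_mul, neg_neg] at hF1 hF2
      exact ⟨hF1, hF2⟩
    · rw [hm0, hm1, h] at hF1 hF2
      simp only [neg_mul, one_mul, neg_neg] at hF1 hF2
      exact ⟨hF2, hF1⟩

end Pool.Agent.SPR
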