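import Pool.Agent.SPR.Fs
import Pool.Agent.SPK.UE

/-!
# [SPR-GamR] side facets whose upper part is collinear

`D = Face A n c`. The height of `x + i E + j G` is `j`.
`Rul.rld`: both sides by the first alternative of `Side` (`p, p + e` and `q, q + e`); rows: the clause of `Rul`.
`gam_one`: `ℓ = 1`, `κ = -1`, `mem`: `i + j ≤ 1` (the last part of the proof of `gam_unit` in SPK/Gam).
`gam_two`: `κ = -ℓ`, `mem`: `0 ≤ i ≤ ℓ - ℓ j`, so `D = {x + i E | 0 ≤ i ≤ ℓ} ∪ {x + G}`. `u = ![0, 0, 1]` (height), `v` from `FS.dual`. `Side D E u`: `y = x + G`, `g = E - G` (`u g = -1`), `a = a' = 1`, `b = b' = 1`: `y + E + g = x + 2 E`, `y - E + g = x`. `Side D E (-u)`: `y = x`, `x + E ∈ D`. `PP`: `tworow`.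
-/

open Finset Pool.Agent.SPB Pool.Agent.SPK

set_option autoImplicit false

namespace Pool.Agent.SPR

variable {A : Finset W} {n : W} {c : ℤ} {x E E' E'' G : W} {ℓ κ : ℤ}

private theorem gamR_mem_face {y : W} : y ∈ Face A n c ↔ y ∈ A ∧ d3 n y = c := by
  simp only [Face, Finset.mem_filter]

private theorem gamR_d3z (y : W) : d3 ![0, 0, 1] y = y 2 := by
  simp [d3, Fin.sum_univ_three]

private theorem gamR_negl (u y : W) : d3 (-u) y = - d3 u y := by
  simp [d3]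

private theorem gamR_face (h : FS A n c x E E' E'' G ℓ κ) (i j : ℤ) : d3 n (x + i • E + j • G) = c := by
  rw [d3_add, d3_add, d3_smul, d3_smul, h.nx, h.nE, h.nG]; ring

private theorem gamR_height (h : FS A n c x E E' E'' G ℓ κ) (i j : ℤ) : (x + i • E + j • G) 2 = j := by
  simp [h.hx, h.hE, h.hG]

theorem rul_rld {D : Finset W} {e : W} (h : Rul D e) : Rld D e := by
  obtain ⟨u, v, p, q, hv, hu, hp, hpe, hq, hqe, hlt, hb, hr⟩ := h
  refine ⟨u, v, hv, hu, ⟨p, hp, fun x hx => (hb x hx).2, Or.inl hpe⟩, ⟨q, hq, fun x hx => ?_, Or.inl hqe⟩,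
    ⟨q, hq, p, hp, hlt⟩, fun x hx y hy k h1 h2 => ?_⟩
  · rw [gamR_negl, gamR_negl]
    have := (hb x hx).1
    omega
  · exact hr k (le_trans (hb x hx).1 h1) (le_trans h2 (hb y hy).2)

theorem gam_one (h : FS A n c x E E' E'' G ℓ κ) (hk : ℓ + κ = 0) (hℓ : ℓ = 1) : TriD (Face A n c) x E G 1 := by
  obtain ⟨u, v, huE, huG, hvE, hvG⟩ := h.dual
  have hκ2 : κ = -1 := by omega
  subst hℓ
  subst hκ2
  refine ⟨le_refl _, ⟨u, v, huE, huG, hvE, hvG⟩, fun y => ⟨fun hy => ?_, ?_⟩⟩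
  · obtain ⟨hyA, hyc⟩ := gamR_mem_face.1 hy
    obtain ⟨i', j', hi', hj', hle, hyeq⟩ := h.mem y hyA hyc
    refine ⟨i'.toNat, j'.toNat, by omega, ?_⟩
    rw [Int.toNat_of_nonneg hi', Int.toNat_of_nonneg hj']
    exact hyeq
  · rintro ⟨i', j', hle, rfl⟩
    refine gamR_mem_face.2 ⟨?_, gamR_face h _ _⟩
    have hc : (i' = 0 ∧ j' = 0) ∨ (i' = 1 ∧ j' = 0) ∨ (i' = 0 ∧ j' = 1) := by omega
    rcases hc with ⟨rfl, rfl⟩ | ⟨rfl, rfl⟩ | ⟨rfl, rfl⟩
    · have := h.row0 0 le_rfl (by omega)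
      simpa using this
    · have := h.row0 1 (by omega) (by omega)
      simpa using this
    · have := h.row1 0 le_rfl (by omega)
      simpa using this

theorem gam_two (h : FS A n c x E E' E'' G ℓ κ) (hk : ℓ + κ = 0) (hℓ : 2 ≤ ℓ) (w : W → ℝ) :
    Rld (Face A n c) E ∧ PP (Face A n c) w E := by
  obtain ⟨u, v, huE, huG, hvE, hvG⟩ := h.dual
  have hκ : κ = -ℓ := by omega
  subst hκ
  have hx0 : x ∈ A := by simpa using h.row0 0 le_rfl (by omega)
  have hx1 : x + E ∈ A := by simpa using h.row0 1 (by omega) (by omega)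
  have hx2 : x + (2 : ℤ) • E ∈ A := h.row0 2 (by omega) (by omega)
  have hG0 : x + G ∈ A := by simpa using h.row1 0 le_rfl (by omega)
  have fx0 : x ∈ Face A n c := gamR_mem_face.2 ⟨hx0, h.nx⟩
  have fx1 : x + E ∈ Face A n c := gamR_mem_face.2 ⟨hx1, by rw [d3_add, h.nx, h.nE, add_zero]⟩
  have fx2 : x + (2 : ℤ) • E ∈ Face A n c :=
    gamR_mem_face.2 ⟨hx2, by rw [d3_add, d3_smul, h.nx, h.nE, mul_zero, add_zero]⟩
  have fG0 : x + G ∈ Face A n c := gamR_mem_face.2 ⟨hG0, by rw [d3_add, h.nx, h.nG, add_zero]⟩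
  have hht : ∀ y ∈ Face A n c, ∃ i j : ℤ, 0 ≤ i ∧ (j = 0 ∨ j = 1) ∧ y = x + i • E + j • G := by
    intro y hy
    obtain ⟨hyA, hyc⟩ := gamR_mem_face.1 hy
    obtain ⟨i, j, hi, hj, hle, hyeq⟩ := h.mem y hyA hyc
    refine ⟨i, j, hi, ?_, hyeq⟩
    have h1 : 0 ≤ ℓ * (1 - j) := by nlinarith
    have h2 : 0 ≤ 1 - j := by
      by_contra h3
      have h4 : 1 - j ≤ -1 := by omega
      nlinarith
    omega
  have hxz : x 2 = 0 := h.hx
  have hEz : E 2 = 0 := h.hE
  have hGz : G 2 = 1 := h.hG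
  have hheight : ∀ y ∈ Face A n c, y 2 = 0 ∨ y 2 = 1 := by
    intro y hy
    obtain ⟨i, j, hi, hj, hyeq⟩ := hht y hy
    rw [hyeq, gamR_height h i j]; exact hj
  constructor
  · refine ⟨![0, 0, 1], u, huE, by rw [gamR_d3z]; exact hEz, ?_, ?_, ⟨x, fx0, x + G, fG0, ?_⟩, ?_⟩
    · refine ⟨x + G, fG0, fun y hy => ?_, Or.inr ⟨E - G, 1, 1, 1, 1, ?_, le_rfl, le_rfl, ?_, ?_⟩⟩
      · rw [gamR_d3z, gamR_d3z]
        have h1 := hheight y hy
        have h2 : (x + G) 2 = 1 := by simp [hxz, hGz]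
        omega
      · rw [gamR_d3z]
        simp [hEz, hGz]
      · have e1 : x + G + (1 : ℤ) • E + (1 : ℤ) • (E - G) = x + (2 : ℤ) • E := by
          rw [one_smul, one_smul, two_smul]; abel
        rw [e1]; exact fx2
      · have e1 : x + G - (1 : ℤ) • E + (1 : ℤ) • (E - G) = x := by
          rw [one_smul, one_smul]; abel
        rw [e1]; exact fx0
    · refine ⟨x, fx0, fun y hy => ?_, Or.inl fx1⟩
      rw [gamR_negl, gamR_negl, gamR_d3z, gamR_d3z]
      have := hheight y hy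
      omega
    · rw [gamR_d3z, gamR_d3z]
      have h2 : (x + G) 2 = 1 := by simp [hxz, hGz]
      omega
    · intro y hy z hz k h1 h2
      rw [gamR_d3z] at h1 h2
      have h3 := hheight y hy
      have h4 := hheight z hz
      have hk3 : k = 0 ∨ k = 1 := by omega
      rcases hk3 with rfl | rfl
      · exact ⟨x, fx0, by rw [gamR_d3z]; exact hxz⟩
      · exact ⟨x + G, fG0, by rw [gamR_d3z]; simp [hxz, hGz]⟩
  · obtain ⟨α, β, -, h2, -, h4⟩ := tworow (D := Face A n c) ⟨x, fx0⟩ w (e := E) (u := ![0, 0, 1]) (v := u) huE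
      (by rw [gamR_d3z]; exact h.hE) (k₀ := 0)
      (fun y hy => by rw [gamR_d3z]; simpa using hheight y hy)
      (fun y hy z hz hyz => by
        rw [gamR_d3z, gamR_d3z] at hyz
        obtain ⟨i, j, -, -, hy'⟩ := hht y hy
        obtain ⟨i', j', -, -, hz'⟩ := hht z hz
        have e1 : y 2 = j := by rw [hy']; exact gamR_height h i j
        have e2 : z 2 = j' := by rw [hz']; exact gamR_height h i' j'
        have e3 : j' = j := by omega
        refine ⟨i' - i, ?_⟩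
        rw [hy', hz', e3, sub_smul]; abel) (α := 0) (β := 1) one_pos
    exact ⟨α, β, h2, h4⟩

end Pool.Agent.SPR
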