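import Pool.Agent.SPR.Defs
import Pool.Agent.SPK.Stp
import Pool.Agent.SPK.Row
import Pool.Agent.SPB.Order

/-!
# [SPR-Hts] heights on a lattice polygon

`grow_inductR`: the proof of `grow_induct` (SPB/Order), which uses `IsPts` only for `LatConv A`.
`poly_uni`: `S = {s}`, `s ∈ B`; `F = ∅`: every point is addable, `EdgeNorm ∅ {0}` is trivial (`{0}` has only one point). `P Q = ∃ ω, Good2 Q {0} ω (fun _ => 0)`; start `good_pt` (`UniV` of subsets of `{0}`), step `place2`; `Good2.left` at the end.
`poly_hts`: `u` with `det e x = dot u x`, that is `u = (-e.2, e.1)` (check: `det e x = e.1 x.2 - e.2 x.1`); `F = {u, -u}`. `P Q = RowsOK Q e ∧ ∃ ω, Good2 Q {0} ω (fun _ => 0) ∧ PPv Q ω e 0 1`. `hgrow`: if `Q ⊂ B`: `Q` nonempty, let `k₁, k₂` be the smallest and largest value of `det e` on `Q`. If some `z ∈ B \ Q` has `k₁ - 1 ≤ det e z ≤ k₂ + 1` then it is addable. Otherwise all `z ∈ B \ Q` are outside, say `det e z ≥ k₂ + 2`; `RowsOK B e` gives a point of `B` in the row `k₂ + 1`, it is not in `Q`, contradiction.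 Start: `{s}`: `arg = {s}`, `uev1`. Step: `place2`, `step_pp`, `step_rows` (SPK/Stp), `M` = maximum of the two bounds.
`uniV_pt`.
-/

open Finset Pool.Agent.SPB Pool.Agent.SPK

set_option autoImplicit false

namespace Pool.Agent.SPR

/-- the half plane of points on which `dot v` is at most `c` is convex -/
private lemma hts_convex_half (v : V) (c : ℝ) :
    Convex ℝ {y : ℝ × ℝ | (v.1 : ℝ) * y.1 + (v.2 : ℝ) * y.2 ≤ c} := by
  intro x hx y hy a b ha hb hab
  simp only [Set.mem_ofPred_eq, Prod.fst_add, Prod.snd_add, Prod.smul_fst, Prod.smul_snd, smul_eq_mul] at hx hy ⊢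
  calc (v.1 : ℝ) * (a * x.1 + b * y.1) + (v.2 : ℝ) * (a * x.2 + b * y.2)
      = a * ((v.1 : ℝ) * x.1 + (v.2 : ℝ) * x.2) + b * ((v.1 : ℝ) * y.1 + (v.2 : ℝ) * y.2) := by ring
    _ ≤ a * c + b * c := by gcongr
    _ = c := by rw [← add_mul, hab, one_mul]

/-- a bound for `dot v` on a set of lattice points holds for the lattice points of the convex hull -/
private lemma hts_dot_le {Q : Finset V} (v : V) (c : ℤ) (hc : ∀ q ∈ Q, dot v q ≤ c) (x : V)
    (hx : toR x ∈ convexHull ℝ (toR '' (Q : Set V))) : dot v x ≤ c := by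
  have hsub : toR '' (Q : Set V) ⊆ {y : ℝ × ℝ | (v.1 : ℝ) * y.1 + (v.2 : ℝ) * y.2 ≤ (c : ℝ)} := by
    rintro _ ⟨q, hq, rfl⟩
    have h1 : ((dot v q : ℤ) : ℝ) ≤ (c : ℝ) := by exact_mod_cast hc q hq
    simpa [dot, toR] using h1
  have h2 := convexHull_min hsub (hts_convex_half v c) hx
  have h3 : ((dot v x : ℤ) : ℝ) ≤ (c : ℝ) := by simpa [dot, toR] using h2
  exact_mod_cast h3

private lemma hts_toR_inj {x y : V} (h : toR x = toR y) : x = y := by
  have h1 : (x.1 : ℝ) = (y.1 : ℝ) := congrArg Prod.fst h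
  have h2 : (x.2 : ℝ) = (y.2 : ℝ) := congrArg Prod.snd h
  exact Prod.ext (by exact_mod_cast h1) (by exact_mod_cast h2)

/-- the two-step argument in the plane -/
private lemma hts_key {C : Set (ℝ × ℝ)} (hC : Convex ℝ C) {z p q q' : ℝ × ℝ} (hq : q ∈ C) (hq' : q' ∈ C)
    (hz : z ∈ segment ℝ p q) (hp : p ∈ segment ℝ z q') : z ∈ C ∨ p = z := by
  obtain ⟨a, b, ha, hb, hab, rfl⟩ := hz
  obtain ⟨c, d, hc, hd, hcd, hp⟩ := hp
  by_cases hac : a * c = 1
  · right
    have ha1 : a ≤ 1 := by linarith
    have hc1 : c ≤ 1 := by linarith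
    have h1 : a = 1 := by nlinarith
    have hb0 : b = 0 := by linarith
    rw [h1, hb0]; simp
  · left
    have ha1 : a ≤ 1 := by linarith
    have hc1 : c ≤ 1 := by linarith
    have hlt : a * c < 1 := lt_of_le_of_ne (by nlinarith) hac
    have hpos : 0 < 1 - a * c := by linarith
    have hne : (1 - a * c) ≠ 0 := ne_of_gt hpos
    -- z = (a d / (1 - a c)) q' + (b / (1 - a c)) q
    have hmem := hC hq' hq (a := a * d / (1 - a * c)) (b := b / (1 - a * c)) (by positivity) (by positivity)
      (by field_simp; nlinarith)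
    have hz : a • p + b • q = (a * d / (1 - a * c)) • q' + (b / (1 - a * c)) • q := by
      have hp1 : c * (a * p.1 + b * q.1) + d * q'.1 = p.1 := by
        have := congrArg Prod.fst hp
        simp only [Prod.fst_add, Prod.smul_fst, smul_eq_mul] at this
        exact this
      have hp2 : c * (a * p.2 + b * q.2) + d * q'.2 = p.2 := by
        have := congrArg Prod.snd hp
        simp only [Prod.snd_add, Prod.smul_snd, smul_eq_mul] at this
        exact this
      ext
      · simp only [Prod.fst_add, Prod.smul_fst, smul_eq_mul]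
        rw [div_mul_eq_mul_div, div_mul_eq_mul_div, ← add_div, eq_div_iff hne]
        linear_combination (-a) * hp1
      · simp only [Prod.snd_add, Prod.smul_snd, smul_eq_mul]
        rw [div_mul_eq_mul_div, div_mul_eq_mul_div, ← add_div, eq_div_iff hne]
        linear_combination (-a) * hp2
    rw [hz]; exact hmem

theorem grow_inductR {F A : Finset V} (hA : LatConv A) {S : Finset V} (hS : S ⊆ A) (hS0 : S.Nonempty)
    (hSL : LatConv S)
    (hgrow : ∀ Q : Finset V, S ⊆ Q → Q ⊆ A → Q ≠ A → ∃ z ∈ A, z ∉ Q ∧ Addable F Q z)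
    (P : Finset V → Prop) (h0 : P S)
    (hstep : ∀ (Q : Finset V) (z : V), Q.Nonempty → z ∉ Q → LatConv Q → LatConv (insert z Q) → Addable F Q z → P Q →
      P (insert z Q)) : P A := by
  classical
  have hAL : LatConv A := hA
  have main : ∀ (n : ℕ) (Q : Finset V), S ⊆ Q → Q ⊆ A → LatConv Q → P Q → (A \ Q).card = n → P A := by
    intro n
    induction n with
    | zero =>
      intro Q hSQ hQA hQL hPQ hcard
      have : Q = A := by
        apply Finset.Subset.antisymm hQA
        rw [Finset.card_eq_zero, Finset.sdiff_eq_empty_iff_subset] at hcard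
        exact hcard
      rw [← this]; exact hPQ
    | succ n ih =>
      intro Q hSQ hQA hQL hPQ hcard
      have hQA' : Q ≠ A := by
        rintro rfl
        simp at hcard
      have hQ0 : Q.Nonempty := hS0.mono hSQ
      -- addable points
      let T : Finset V := (A \ Q).filter (fun z => Addable F Q z)
      have hT : T.Nonempty := by
        obtain ⟨z, hzA, hzQ, hz⟩ := hgrow Q hSQ hQA hQA'
        exact ⟨z, by simp [T, hzA, hzQ, hz]⟩
      let cnt : V → ℕ := fun z => (A.filter (fun x => toR x ∈ convexHull ℝ (toR '' ((insert z Q : Finset V) : Set V)))).card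
      obtain ⟨z, hzT, hzmin⟩ := Finset.exists_min_image T cnt hT
      have hzA : z ∈ A := by
        have := (Finset.mem_filter.1 hzT).1
        exact (Finset.mem_sdiff.1 this).1
      have hzQ : z ∉ Q := by
        have := (Finset.mem_filter.1 hzT).1
        exact (Finset.mem_sdiff.1 this).2
      have hzadd : Addable F Q z := (Finset.mem_filter.1 hzT).2
      have hsubA : (insert z Q : Finset V) ⊆ A := by
        intro x hx
        rcases Finset.mem_insert.1 hx with rfl | hx
        · exact hzA
        · exact hQA hx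
      have hL : LatConv (insert z Q) := by
        intro p hp
        by_contra hpn
        have hpQ : p ∉ Q := fun hh => hpn (Finset.mem_insert_of_mem hh)
        have hpz : p ≠ z := fun hh => hpn (by rw [hh]; exact Finset.mem_insert_self _ _)
        have hpA : p ∈ A := by
          apply hAL p
          refine convexHull_mono ?_ hp
          exact Set.image_mono (by exact_mod_cast hsubA)
        have hpadd : Addable F Q p := by
          intro n hn
          obtain ⟨q0, hq0, hmax⟩ := Finset.exists_max_image Q (fun q => dot n q) hQ0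
          refine ⟨q0, hq0, ?_⟩
          refine hts_dot_le n (dot n q0 + 1) ?_ p hp
          intro q hq
          rcases Finset.mem_insert.1 hq with rfl | hq
          · obtain ⟨q1, hq1, h1⟩ := hzadd n hn
            have h2 : dot n q1 ≤ dot n q0 := hmax q1 hq1
            omega
          · have h2 : dot n q ≤ dot n q0 := hmax q hq
            omega
        have hpT : p ∈ T := by simp [T, hpA, hpQ, hpadd]
        -- strict inclusion
        have hsub : convexHull ℝ (toR '' ((insert p Q : Finset V) : Set V)) ⊆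
            convexHull ℝ (toR '' ((insert z Q : Finset V) : Set V)) := by
          apply convexHull_min _ (convex_convexHull ℝ _)
          rintro _ ⟨x, hx, rfl⟩
          rcases Finset.mem_insert.1 (Finset.mem_coe.1 hx) with rfl | hx
          · exact hp
          · exact subset_convexHull ℝ _ ⟨x, by exact_mod_cast Finset.mem_insert_of_mem hx, rfl⟩
        have hQim : (toR '' (Q : Set V)).Nonempty := by
          obtain ⟨q, hq⟩ := hQ0
          exact ⟨toR q, q, by exact_mod_cast hq, rfl⟩
        have hzn : toR z ∉ convexHull ℝ (toR '' ((insert p Q : Finset V) : Set V)) := by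
          intro hzin
          rw [Finset.coe_insert, Set.image_insert_eq, convexHull_insert hQim] at hzin hp
          rw [mem_convexJoin] at hzin hp
          obtain ⟨x1, hx1, q, hq, hz1⟩ := hzin
          obtain ⟨x2, hx2, q', hq', hp1⟩ := hp
          rw [Set.mem_singleton_iff] at hx1 hx2
          subst hx1
          subst hx2
          rcases hts_key (convex_convexHull ℝ (toR '' (Q : Set V))) hq hq' hz1 hp1 with h1 | h1
          · exact hzQ (hQL z h1)
          · exact hpz (hts_toR_inj h1)
        have hlt : cnt p < cnt z := by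
          apply Finset.card_lt_card
          rw [Finset.ssubset_iff_of_subset]
          · refine ⟨z, ?_, ?_⟩
            · rw [Finset.mem_filter]
              exact ⟨hzA, subset_convexHull ℝ _ ⟨z, by simp, rfl⟩⟩
            · rw [Finset.mem_filter]
              exact fun hh => hzn hh.2
          · intro x hx
            rw [Finset.mem_filter] at hx ⊢
            exact ⟨hx.1, hsub hx.2⟩
        exact absurd (hzmin p hpT) (not_le.2 hlt)
      have hPz : P (insert z Q) := hstep Q z hQ0 hzQ hQL hL hzadd hPQ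
      apply ih (insert z Q) (hSQ.trans (Finset.subset_insert _ _)) hsubA hL hPz
      have h1 : A \ insert z Q = (A \ Q).erase z := by
        ext x
        simp only [Finset.mem_sdiff, Finset.mem_insert, Finset.mem_erase, not_or]
        tauto
      rw [h1, Finset.card_erase_of_mem (by simp [hzA, hzQ]), hcard]
      simp
  exact main _ S (Finset.Subset.refl _) hS hSL h0 rfl

private lemma hts_arg_pt (s : V) (ω : V → ℝ) (a : ℝ × ℝ) : arg {s} ω a = {s} := by
  classical
  ext x
  unfold arg
  rw [Finset.mem_filter, Finset.mem_singleton]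
  constructor
  · exact fun h => h.1
  · rintro rfl
    exact ⟨rfl, fun y hy => by rw [Finset.mem_singleton.1 hy]⟩

private lemma hts_edge0 (F : Finset V) : EdgeNorm F {0} := by
  intro x hx y hy hxy
  rw [Finset.mem_singleton] at hx hy
  exact absurd (hx.trans hy.symm) hxy

private lemma hts_latConv_pt (s : V) : LatConv {s} := by
  intro x hx
  rw [Finset.coe_singleton, Set.image_singleton, convexHull_singleton, Set.mem_singleton_iff] at hx
  rw [Finset.mem_singleton]
  exact hts_toR_inj hx

theorem uniV_pt (s : V) (ω : V → ℝ) (a : ℝ × ℝ) : UniV (arg {s} ω a) := by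
  rw [hts_arg_pt]
  intro c h1 _ _ x hx
  rw [Finset.mem_singleton] at hx
  rw [Finset.sum_singleton] at h1
  rw [hx]
  exact h1

theorem poly_uni {B : Finset V} (hL : LatConv B) (hB : B.Nonempty) : ∃ ω : V → ℝ, ∀ a, UniV (arg B ω a) := by
  classical
  obtain ⟨s, hs⟩ := hB
  have h := grow_inductR (F := ∅) hL (S := {s}) (Finset.singleton_subset_iff.2 hs)
    (Finset.singleton_nonempty s) (hts_latConv_pt s)
    (fun Q hSQ hQA hne => by
      have h1 : ¬ B ⊆ Q := fun h => hne (Finset.Subset.antisymm hQA h)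
      obtain ⟨z, hz, hzQ⟩ := Finset.not_subset.1 h1
      exact ⟨z, hz, hzQ, fun n hn => absurd hn (Finset.notMem_empty n)⟩)
    (fun Q => ∃ ω : V → ℝ, Good2 Q {0} ω (fun _ => 0))
    ⟨fun _ => 0, good_pt (uniV_pt 0 _) s _⟩
    (fun Q z hne hz _ hLz hadd hP => by
      obtain ⟨ω, hω⟩ := hP
      obtain ⟨M, hM⟩ := place2 hω hne hz hLz (hts_edge0 _) hadd
      exact ⟨_, hM M le_rfl⟩)
  obtain ⟨ω, hω⟩ := h
  exact ⟨ω, fun a => hω.left a⟩

theorem poly_hts {B : Finset V} (hL : LatConv B) (hB : B.Nonempty) {e : V} (he : Prim e) (hR : RowsOK B e) :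
    ∃ ω : V → ℝ, (∀ a, UniV (arg B ω a)) ∧ PPv B ω e 0 1 := by
  classical
  obtain ⟨s, hs⟩ := hB
  obtain ⟨u, hu⟩ : ∃ u : V, u = (-e.2, e.1) := ⟨_, rfl⟩
  have hdet : ∀ x : V, dot u x = det e x := fun x => by
    rw [hu]
    unfold det dot
    simp only
    ring
  have hdet' : ∀ x : V, dot (-u) x = -det e x := fun x => by
    rw [hu]
    unfold det dot
    simp only [Prod.fst_neg, Prod.snd_neg]
    ring
  have hadd : ∀ (Q : Finset V) (z : V), Addable {u, -u} Q z ↔
      (∃ q ∈ Q, det e z ≤ det e q + 1) ∧ (∃ q ∈ Q, det e q - 1 ≤ det e z) := by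
    intro Q z
    constructor
    · intro h
      refine ⟨?_, ?_⟩
      · obtain ⟨q, hq, h1⟩ := h u (by simp)
        rw [hdet, hdet] at h1
        exact ⟨q, hq, h1⟩
      · obtain ⟨q, hq, h1⟩ := h (-u) (by simp)
        rw [hdet', hdet'] at h1
        exact ⟨q, hq, by linarith⟩
    · rintro ⟨⟨q, hq, h1⟩, q', hq', h2⟩ n hn
      rcases Finset.mem_insert.1 hn with rfl | hn
      · exact ⟨q, hq, by rw [hdet, hdet]; exact h1⟩
      · rw [Finset.mem_singleton] at hn
        subst hn
        exact ⟨q', hq', by rw [hdet', hdet']; linarith⟩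
  have h := grow_inductR (F := {u, -u}) hL (S := {s}) (Finset.singleton_subset_iff.2 hs)
    (Finset.singleton_nonempty s) (hts_latConv_pt s)
    (fun Q hSQ hQA hne => by
      have h1 : ¬ B ⊆ Q := fun h => hne (Finset.Subset.antisymm hQA h)
      obtain ⟨z, hz, hzQ⟩ := Finset.not_subset.1 h1
      have hQ0 : Q.Nonempty := ⟨s, hSQ (Finset.mem_singleton_self s)⟩
      obtain ⟨q₁, hq₁, hmin⟩ := Finset.exists_min_image Q (fun q => det e q) hQ0
      obtain ⟨q₂, hq₂, hmax⟩ := Finset.exists_max_image Q (fun q => det e q) hQ0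
      have h12 : det e q₁ ≤ det e q₂ := hmin q₂ hq₂
      by_cases h2 : det e z ≤ det e q₂ + 1
      · by_cases h3 : det e q₁ - 1 ≤ det e z
        · exact ⟨z, hz, hzQ, (hadd Q z).2 ⟨⟨q₂, hq₂, h2⟩, q₁, hq₁, h3⟩⟩
        · obtain ⟨y, hy, hyk⟩ := hR z hz q₁ (hQA hq₁) (det e q₁ - 1) (by omega) (by omega)
          refine ⟨y, hy, fun hyQ => ?_, (hadd Q y).2 ⟨⟨q₂, hq₂, by omega⟩, q₁, hq₁, by omega⟩⟩
          have h4 : det e q₁ ≤ det e y := hmin y hyQ
          omega
      · obtain ⟨y, hy, hyk⟩ := hR q₂ (hQA hq₂) z hz (det e q₂ + 1) (by omega) (by omega)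
        refine ⟨y, hy, fun hyQ => ?_, (hadd Q y).2 ⟨⟨q₂, hq₂, by omega⟩, q₁, hq₁, by omega⟩⟩
        have h4 : det e y ≤ det e q₂ := hmax y hyQ
        omega)
    (fun Q => RowsOK Q e ∧ ∃ ω : V → ℝ, Good2 Q {0} ω (fun _ => 0) ∧ PPv Q ω e 0 1)
    ⟨fun x hx y hy k h1 h2 => by
        rw [Finset.mem_singleton] at hx hy
        subst hx
        subst hy
        exact ⟨y, Finset.mem_singleton_self y, by omega⟩,
      fun _ => 0, good_pt (uniV_pt 0 _) s _, fun a _ _ => by
        rw [hts_arg_pt]
        exact uev1 he⟩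
    (fun Q z hne hz _ hLz hA hP => by
      obtain ⟨hrows, ω, hω, hPP⟩ := hP
      obtain ⟨h1, h2⟩ := (hadd Q z).1 hA
      obtain ⟨M, hM⟩ := place2 hω hne hz hLz (hts_edge0 _) hA
      obtain ⟨M', hM'⟩ := step_pp he hne hrows hz h1 h2 hPP
      exact ⟨step_rows hne hrows h1 h2, Function.update ω z (max M M'), hM _ (le_max_left _ _),
        hM' _ (le_max_right _ _)⟩)
  obtain ⟨-, ω, hω, hPP⟩ := h
  exact ⟨ω, fun a => hω.left a, hPP⟩

end Pool.Agent.SPR
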