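import Pool.Agent.SPR.Defs
import Pool.Agent.SPK.Red

/-!
# [SPR-Red] standard position

As `red_step` (SPK/Red), with smoothness only at the vertices of the facet. `face_vertex` for `-u` gives a vertex `x` with `u x` minimal, so `u x = c`. The field `smo` of `Bs (trA φ a A)`: a vertex `y` of the image with `y 2 = 0` is the image of a vertex `x` of `A` with `d3 u x = c` (as in `tr_smo`, SPK/Aff), the basis is `φ ∘ b`.
`smooth_ptsR`: as `smooth_pts` (SPK/Ver): `P = hull A` for the set `A` of all lattice points, `LatA A`, and at a vertex `x` of `A` (`isV_ext`: `emb x` is an extreme point) with `d3 u x = c` the basis of the hypothesis.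
-/

open Finset Pool.Agent.SPB Pool.Agent.SPK

set_option autoImplicit false

namespace Pool.Agent.SPR

private theorem rdr_sum (n : W) (c : Fin 3 → ℤ) (b : Fin 3 → W) :
    d3 n (∑ i, c i • b i) = ∑ i, c i * d3 n (b i) := by
  simp only [Fin.sum_univ_three, d3_add, d3_smul]

private theorem rdr_neg (n x : W) : d3 (-n) x = - d3 n x := by
  simp only [d3, Pi.neg_apply, neg_mul, Finset.sum_neg_distrib]

private theorem rdr_swap {k i : Fin 3} (hi : i ≠ 2) : Equiv.swap k 2 i ≠ k := by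
  intro h
  exact hi ((Equiv.swap k 2).injective (h.trans (Equiv.swap_apply_right k 2).symm))

/-- a vertex of the image comes from a vertex -/
private theorem rdr_isV {φ : W ≃+ W} {a : W} {A : Finset W} {y : W} (hy : IsV (trA φ a A) y) :
    IsV A (rt φ a y) := by
  obtain ⟨hy1, n, hn⟩ := hy
  obtain ⟨n', hn'⟩ := pull φ.symm n
  have hval : ∀ x, d3 n (tr φ a x) = d3 n' (x - a) := by
    intro x
    have := hn' (φ (x - a))
    rw [AddEquiv.symm_apply_apply] at this
    exact this.symm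
  refine ⟨mem_trA.1 hy1, n', fun z hz hne => ?_⟩
  have h1 := hn (tr φ a z) (aff_tr_mem.2 hz) (fun e => hne (by rw [← e, aff_rt_tr]))
  have h2 := hval (rt φ a y)
  rw [aff_tr_rt] at h2
  rw [hval, h2, d3_sub, d3_sub] at h1
  linarith

/-- the basis of the image -/
private theorem rdr_vtx {φ : W ≃+ W} {a : W} {A : Finset W} {y : W} {b : Fin 3 → W}
    (hb : Vtx A (rt φ a y) b) : Vtx (trA φ a A) y (fun i => φ (b i)) := by
  refine ⟨mem_trA.2 hb.mem, ?_, ?_, ?_⟩
  · intro z
    obtain ⟨c, hc⟩ := hb.gen (φ.symm z)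
    refine ⟨c, ?_⟩
    have := congrArg φ hc
    rw [map_sum, AddEquiv.apply_symm_apply] at this
    rw [← this]
    exact Finset.sum_congr rfl fun i _ => (map_zsmul φ _ _).symm
  · intro i
    have := (aff_tr_mem (φ := φ) (a := a)).2 (hb.step i)
    rwa [aff_tr_add, aff_tr_rt] at this
  · intro z hz
    obtain ⟨t, ht, he⟩ := hb.cone _ (mem_trA.1 hz)
    refine ⟨t, ht, ?_⟩
    have := congrArg (tr φ a) he
    rw [aff_tr_add, aff_tr_rt, aff_tr_rt, map_sum] at this
    rw [← this]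
    congr 1
    exact Finset.sum_congr rfl fun i _ => (map_zsmul φ _ _).symm

theorem red_stepR {A : Finset W} {u : W} {c : ℤ} (hS : ∀ x, IsV A x → d3 u x = c → ∃ b, Vtx A x b) (hL : LatA A)
    (hprim : ∃ y, d3 u y = 1) (hc : ∀ x ∈ A, c ≤ d3 u x) (hN : NonCol (A.filter (fun x => d3 u x = c)))
    (hup : ∃ x ∈ A, c + 1 ≤ d3 u x) :
    ∃ (φ : W ≃+ W) (a : W), Bs (trA φ a A) ∧ ∀ y, tr φ a y 2 = d3 u y - c := by
  obtain ⟨p, hp, q, hq, r, hr, hpqr⟩ := id hN
  rw [Finset.mem_filter] at hp hq hr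
  obtain ⟨x, hx, hv⟩ := face_vertex ⟨p, hp.1⟩ (-u)
  have hmin : ∀ y ∈ A, d3 u x ≤ d3 u y := fun y hy => by
    have := hx y hy
    rw [rdr_neg, rdr_neg] at this
    omega
  have hxc : d3 u x = c := le_antisymm (by rw [← hp.2]; exact hmin p hp.1) (hc x hv.1)
  obtain ⟨b, hb⟩ := hS x hv hxc
  have hnn : ∀ i, 0 ≤ d3 u (b i) := fun i => by
    have := hmin _ (hb.step i)
    rw [d3_add] at this
    omega
  obtain ⟨y1, hy1⟩ := hprim
  obtain ⟨c1, hc1⟩ := hb.gen y1
  have hk : ∃ k, d3 u (b k) ≠ 0 := by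
    by_contra hcon
    push Not at hcon
    rw [← hc1, rdr_sum] at hy1
    simp [hcon] at hy1
  obtain ⟨k, hk⟩ := hk
  have hkpos : 0 < d3 u (b k) := lt_of_le_of_ne (hnn k) (Ne.symm hk)
  have hface : ∀ y ∈ A, d3 u y = c → ∃ t : Fin 3 → ℤ, (∀ i, d3 u (b i) ≠ 0 → t i = 0) ∧
      x + ∑ i, t i • b i = y := by
    intro y hy hyc
    obtain ⟨t, ht0, ht⟩ := hb.cone y hy
    refine ⟨t, fun i hi => ?_, ht⟩
    rw [← ht, d3_add, rdr_sum, hxc] at hyc
    have h2 : ∑ i, t i * d3 u (b i) = 0 := by omega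
    rw [Finset.sum_eq_zero_iff_of_nonneg (fun i _ => mul_nonneg (ht0 i) (hnn i))] at h2
    exact (mul_eq_zero.1 (h2 i (Finset.mem_univ i))).resolve_right hi
  have hthird : ∀ j k : Fin 3, j ≠ k → ∃ l : Fin 3, ∀ i, i ≠ j → i ≠ k → i = l := by decide
  have hz : ∀ j, j ≠ k → d3 u (b j) = 0 := by
    intro j hj
    by_contra hcon
    obtain ⟨l, hl⟩ := hthird j k hj
    have hline : ∀ y ∈ A, d3 u y = c → ∃ m : ℤ, y = x + m • b l := by
      intro y hy hyc
      obtain ⟨t, ht0, ht⟩ := hface y hy hyc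
      refine ⟨t l, ?_⟩
      rw [← ht, Finset.sum_eq_single l]
      · intro i _ hil
        have h3 : i = j ∨ i = k := by
          by_contra h
          rw [not_or] at h
          exact hil (hl i h.1 h.2)
        rcases h3 with h3 | h3
        · rw [h3, ht0 _ hcon, zero_smul]
        · rw [h3, ht0 _ hk, zero_smul]
      · intro h
        exact absurd (Finset.mem_univ l) h
    obtain ⟨m0, hm0⟩ := hline p hp.1 hp.2
    obtain ⟨m1, hm1⟩ := hline q hq.1 hq.2
    obtain ⟨m2, hm2⟩ := hline r hr.1 hr.2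
    have e1 : q - p = (m1 - m0) • b l := by
      rw [hm0, hm1, sub_smul]
      abel
    have e2 : r - p = (m2 - m0) • b l := by
      rw [hm0, hm2, sub_smul]
      abel
    have h4 := hpqr (m2 - m0) (-(m1 - m0)) (by
      rw [e1, e2, smul_smul, smul_smul, ← add_smul]
      have h5 : (m2 - m0) * (m1 - m0) + -(m1 - m0) * (m2 - m0) = 0 := by ring
      rw [h5, zero_smul])
    have h5 : m1 - m0 = 0 := by omega
    have h6 := hpqr 1 0 (by rw [e1, h5, zero_smul, smul_zero, zero_smul, add_zero])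
    exact one_ne_zero h6.1
  have hk1 : d3 u (b k) = 1 := by
    rw [← hc1, rdr_sum, Finset.sum_eq_single k] at hy1
    · rw [mul_comm] at hy1
      rcases Int.eq_one_or_neg_one_of_mul_eq_one hy1 with h | h
      · exact h
      · omega
    · intro i _ hi
      rw [hz i hi, mul_zero]
    · intro h
      exact absurd (Finset.mem_univ k) h
  obtain ⟨φ, hφ⟩ := basis_equiv (hb.perm (Equiv.swap k 2)).gen
  have hφ2 : ∀ y, φ y 2 = d3 u y := by
    intro y
    obtain ⟨t, ht⟩ := (hb.perm (Equiv.swap k 2)).gen y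
    rw [← ht, hφ, rdr_sum, Finset.sum_eq_single 2]
    · rw [Function.comp_apply, Equiv.swap_apply_right, hk1, mul_one]
    · intro i _ hi
      rw [Function.comp_apply, hz _ (rdr_swap hi), mul_zero]
    · intro h
      exact absurd (Finset.mem_univ _) h
  have htr : ∀ y, tr φ x y 2 = d3 u y - c := by
    intro y
    unfold tr
    rw [hφ2, d3_sub, hxc]
  refine ⟨φ, x, ⟨?_, tr_lat hL, ?_, ?_, ?_⟩, htr⟩
  · intro y hy hy2
    have hV := rdr_isV hy
    have h1 : d3 u (rt φ x y) = c := by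
      have h2 := htr (rt φ x y)
      rw [aff_tr_rt, hy2] at h2
      omega
    obtain ⟨b', hb'⟩ := hS _ hV h1
    exact ⟨_, rdr_vtx hb'⟩
  · intro z hz
    obtain ⟨y, hy, rfl⟩ := Finset.mem_image.1 hz
    rw [htr]
    have := hc y hy
    omega
  · have e : (trA φ x A).filter (fun z => z 2 = 0) =
        trA φ x (A.filter (fun y => d3 u y = c)) := by
      ext z
      simp only [trA, Finset.mem_filter, Finset.mem_image]
      constructor
      · rintro ⟨⟨y, hy, rfl⟩, h⟩
        rw [htr] at h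
        exact ⟨y, ⟨hy, by omega⟩, rfl⟩
      · rintro ⟨y, ⟨hy, h⟩, rfl⟩
        exact ⟨⟨y, hy, rfl⟩, by rw [htr]; omega⟩
    rw [e]
    exact tr_nonCol.2 hN
  · obtain ⟨y, hy, hyc⟩ := hup
    refine ⟨tr φ x y, ?_⟩
    unfold up
    rw [Finset.mem_filter]
    exact ⟨Finset.mem_image_of_mem _ hy, by rw [htr]; omega⟩

theorem lat_pts {P : Set (Fin 3 → ℝ)} (hP : ∃ A₁ : Finset W, A₁.Nonempty ∧ P = hull A₁) :
    ∃ A : Finset W, A.Nonempty ∧ P = hull A ∧ (∀ q, q ∈ A ↔ emb q ∈ P) ∧ LatA A := by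
  classical
  obtain ⟨A, hA, rfl⟩ := hP
  have hbd : Bornology.IsBounded (hull A) := (hull_isCompact A).isBounded
  have hfin : {q : W | emb q ∈ hull A}.Finite := by
    obtain ⟨R, hR⟩ := hbd.exists_norm_le
    obtain ⟨N, hN⟩ := exists_nat_ge R
    refine (Set.Finite.pi (t := fun _ : Fin 3 => Set.Icc (-(N : ℤ)) N)
      fun _ => Set.finite_Icc _ _).subset ?_
    intro q hq i _
    have h1 : ‖emb q i‖ ≤ N := (norm_le_pi_norm (emb q) i).trans ((hR _ hq).trans hN)
    rw [Real.norm_eq_abs, abs_le] at h1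
    simp only [emb] at h1
    exact ⟨by exact_mod_cast h1.1, by exact_mod_cast h1.2⟩
  have hAm : ∀ q ∈ A, q ∈ hfin.toFinset := by
    intro q hq
    rw [Set.Finite.mem_toFinset]
    exact subset_convexHull ℝ _ ⟨q, hq, rfl⟩
  have hEq : hull A = hull hfin.toFinset := by
    apply Set.Subset.antisymm
    · exact convexHull_mono (Set.image_mono fun q hq => hAm q hq)
    · apply convexHull_min _ (convex_convexHull ℝ _)
      rintro _ ⟨q, hq, rfl⟩
      have hq' : q ∈ hfin.toFinset := hq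
      rw [Set.Finite.mem_toFinset] at hq'
      exact hq'
  have hmem : ∀ q, q ∈ hfin.toFinset ↔ emb q ∈ hull A := by
    intro q
    rw [Set.Finite.mem_toFinset]
    rfl
  refine ⟨hfin.toFinset, ?_, hEq, hmem, ?_⟩
  · obtain ⟨a, ha⟩ := hA
    exact ⟨a, hAm a ha⟩
  · intro x hx
    rw [hmem, hEq]
    exact hx

theorem smooth_ptsR {P : Set (Fin 3 → ℝ)} {u : W} {c : ℤ}
    (hP : ∀ x ∈ P.extremePoints ℝ, ∑ i, (u i : ℝ) * x i = c → ∃ b : Fin 3 → W,
      (∀ y : W, ∃ c : Fin 3 → ℤ, ∑ i, c i • b i = y) ∧ (∀ i, x + emb (b i) ∈ P) ∧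
      ∀ y ∈ P, ∃ t : Fin 3 → ℝ, (∀ i, 0 ≤ t i) ∧ x + ∑ i, t i • emb (b i) = y)
    {A : Finset W} (hA : P = hull A) (hA' : ∀ q, q ∈ A ↔ emb q ∈ P) :
    ∀ x, IsV A x → d3 u x = c → ∃ b, Vtx A x b := by
  intro x hx hxc
  have hext := isV_ext hx
  rw [← hA] at hext
  have hcast : ∑ i, (u i : ℝ) * emb x i = c := by
    rw [← hxc]
    simp only [d3, emb]
    push_cast
    rfl
  obtain ⟨b, hb1, hb2, hb3⟩ := hP (emb x) hext hcast
  refine ⟨b, hx.1, hb1, ?_, ?_⟩
  · intro i
    rw [hA']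
    have e : emb (x + b i) = emb x + emb (b i) := by
      funext j
      simp [emb]
    rw [e]
    exact hb2 i
  · intro y hy
    obtain ⟨t, ht0, ht⟩ := hb3 (emb y) ((hA' y).1 hy)
    obtain ⟨d, hd⟩ := gen_dual hb1
    have hc : ∀ k, ∑ i, t i * (b i k : ℝ) = ((y - x) k : ℤ) := by
      intro k
      have h1 := congrFun ht k
      simp only [Pi.add_apply, Finset.sum_apply, Pi.smul_apply, smul_eq_mul, emb] at h1
      rw [Pi.sub_apply, Int.cast_sub]
      linarith
    refine ⟨fun i => d3 (d i) (y - x), ?_, ?_⟩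
    · intro i
      have h2 := expandR hd hc i
      have h3 := ht0 i
      rw [h2] at h3
      exact_mod_cast h3
    · rw [expand hb1 hd (y - x)]
      abel

end Pool.Agent.SPR
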