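import Pool.Agent.SPR.Sl
import Pool.Agent.SPR.Red
import Pool.Agent.SPR.AffR
import Pool.Agent.SPR.Flat

/-!
# [SPR-Peel] the main theorem
-/

open Finset Pool.Agent.SPB Pool.Agent.SPK

set_option autoImplicit false

namespace Pool.Agent.SPR

/-- `P` is a lattice polytope: the convex hull of a nonempty finite set of lattice points -/
def IsLat (P : Set (Fin 3 → ℝ)) : Prop := ∃ A : Finset W, A.Nonempty ∧ P = hull A

/-- `P` is smooth at its vertices `x` with `u · x = c`: there are lattice vectors `b i` which generate the lattice, such that the points `x + b i` lie in `P` and `P` lies in the cone with apex `x` spanned by the `b i` -/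
def SmoothAt (P : Set (Fin 3 → ℝ)) (u : W) (c : ℤ) : Prop :=
  ∀ x ∈ P.extremePoints ℝ, ∑ i, (u i : ℝ) * x i = c → ∃ b : Fin 3 → W,
    (∀ y : W, ∃ c : Fin 3 → ℤ, ∑ i, c i • b i = y) ∧ (∀ i, x + emb (b i) ∈ P) ∧
    ∀ y ∈ P, ∃ t : Fin 3 → ℝ, (∀ i, 0 ≤ t i) ∧ x + ∑ i, t i • emb (b i) = y

/-- The class of the lattice polytopes `P ⊆ ℝ³` which can be reduced to a lattice polytope of dimension at most two (`flat`) by repeatedly cutting off
the layer of lattice width one next to a facet (`step`), such that in every step the polytope is smooth at the vertices of this facet -/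
inductive Pee : Set (Fin 3 → ℝ) → Prop
  | flat {P : Set (Fin 3 → ℝ)} (hP : IsLat P) (u : W) (hu : u ≠ 0) (c : ℤ)
      (h : ∀ y ∈ P, ∑ i, (u i : ℝ) * y i = c) : Pee P
  | step {P : Set (Fin 3 → ℝ)} (hP : IsLat P) (u : W) (hu : ∃ y : W, ∑ i, u i * y i = 1) (c : ℤ)
      (h : ∀ y ∈ P, (c : ℝ) ≤ ∑ i, (u i : ℝ) * y i)
      (hf : ∃ p q r : W, emb p ∈ P ∧ emb q ∈ P ∧ emb r ∈ P ∧ ∑ i, u i * p i = c ∧ ∑ i, u i * q i = c ∧
        ∑ i, u i * r i = c ∧ ∀ s t : ℤ, s • (q - p) + t • (r - p) = 0 → s = 0 ∧ t = 0)
      (hs : SmoothAt P u c)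
      (hQ : Pee {y ∈ P | (c : ℝ) + 1 ≤ ∑ i, (u i : ℝ) * y i}) : Pee P

theorem Pee.lat {P : Set (Fin 3 → ℝ)} (h : Pee P) : IsLat P := by
  cases h with
  | flat hP => exact hP
  | step hP => exact hP

private theorem ev_emb (u x : W) : ∑ i, (u i : ℝ) * emb x i = ((d3 u x : ℤ) : ℝ) := by
  simp only [d3, emb]
  push_cast
  rfl

private theorem face_up (A : Finset W) (n : W) (c : ℤ) : Face (up A) n c = up (Face A n c) := by
  ext x
  simp only [Face, up, Finset.mem_filter]
  tauto

private theorem face_one (A : Finset W) : Face (up A) ![0, 0, -1] (-1) = A.filter (fun x => x 2 = 1) := by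
  ext x
  have e : d3 ![0, 0, -1] x = - x 2 := by
    simp only [d3, Fin.sum_univ_three]
    simp
  simp only [Face, up, Finset.mem_filter, e]
  constructor
  · rintro ⟨⟨h1, h2⟩, h3⟩
    exact ⟨h1, by omega⟩
  · rintro ⟨h1, h2⟩
    exact ⟨⟨h1, by omega⟩, by omega⟩

theorem pee_GP {P : Set (Fin 3 → ℝ)} (h : Pee P) : (∃ u : W, u ≠ 0 ∧ ∃ c : ℤ, ∀ y ∈ P, ∑ i, (u i : ℝ) * y i = c) ∨
    ∃ (A : Finset W) (w : W → ℝ), P = hull A ∧ (∀ x, x ∈ A ↔ emb x ∈ P) ∧ GPr A w := by
  induction h with
  | @flat P hP u hu c h => exact Or.inl ⟨u, hu, c, h⟩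
  | @step P hP u hu c h hf hs hQ ih =>
    right
    obtain ⟨A, hne, hPA, hA, hL⟩ := lat_pts hP
    obtain ⟨A', hne', hPA', hA', -⟩ := lat_pts hQ.lat
    have hS := smooth_ptsR hs hPA hA
    have hAA : ∀ x, x ∈ A' ↔ x ∈ A ∧ c + 1 ≤ d3 u x := by
      intro x
      rw [hA', hA]
      simp only [Set.mem_ofPred_eq, ev_emb]
      constructor
      · rintro ⟨h1, h2⟩
        exact ⟨h1, by exact_mod_cast h2⟩
      · rintro ⟨h1, h2⟩
        exact ⟨h1, by exact_mod_cast h2⟩
    obtain ⟨φ, a, hBs, hz⟩ := red_stepR (u := u) (c := c) hS hL hu (by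
      intro x hx
      have h2 := h _ ((hA x).1 hx)
      rw [ev_emb] at h2
      exact_mod_cast h2) (by
      obtain ⟨p, q, r, hp, hq, hr, h1, h2, h3, h4⟩ := hf
      exact ⟨p, Finset.mem_filter.2 ⟨(hA p).2 hp, h1⟩, q, Finset.mem_filter.2 ⟨(hA q).2 hq, h2⟩,
        r, Finset.mem_filter.2 ⟨(hA r).2 hr, h3⟩, h4⟩) (by
      obtain ⟨x, hx⟩ := hne'
      exact ⟨x, (hAA x).1 hx⟩)
    have hinv : ∀ y, tr φ a (rt φ a y) = y := by
      intro y
      simp [tr, rt]
    have hinv' : ∀ y, rt φ a (tr φ a y) = y := by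
      intro y
      simp [tr, rt]
    have e : up (trA φ a A) = trA φ a A' := by
      ext y
      simp only [up, Finset.mem_filter]
      rw [mem_trA, mem_trA, hAA]
      have h1 := hz (rt φ a y)
      rw [hinv] at h1
      rw [h1]
      constructor
      · rintro ⟨h2, h3⟩
        exact ⟨h2, by omega⟩
      · rintro ⟨h2, h3⟩
        exact ⟨h2, by omega⟩
    have hfin : ∃ w, GPr (trA φ a A) w := by
      by_cases hflat : ∃ n : W, n ≠ 0 ∧ ∃ c' : ℤ, ∀ x ∈ up (trA φ a A), d3 n x = c'
      · obtain ⟨n, hn, c', h1⟩ := hflat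
        obtain ⟨w', hw, hB, hup⟩ := flat hBs (flat_one hBs hn h1)
        exact slR hBs hw hB hup
      · have hih : ∃ w' : W → ℝ, GPr A' w' := by
          rcases ih with ⟨n, hn, c', h1⟩ | ⟨A₂, w', -, hA₂, hg⟩
          · exfalso
            obtain ⟨n', hn'⟩ := pull φ n
            refine hflat ⟨n', ?_, c' - d3 n a, ?_⟩
            · rintro rfl
              apply hn
              funext i
              have h2 := hn' (Pi.single i 1)
              simp only [d3, Fin.sum_univ_three] at h2
              fin_cases i <;> simpa using h2.symm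
            · intro x hx
              rw [e, mem_trA] at hx
              have h2 := h1 _ ((hA' _).1 hx)
              rw [ev_emb] at h2
              have h3 : d3 n (rt φ a x) = c' := by exact_mod_cast h2
              have h4 : x = φ (rt φ a x - a) := by
                have := hinv x
                rw [tr] at this
                exact this.symm
              rw [h4, hn', d3_sub, h3]
          · have e2 : A₂ = A' := by
              ext x
              rw [hA₂, hA']
            exact ⟨w', e2 ▸ hg⟩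
        obtain ⟨w', hg⟩ := hih
        have hg' := tr_gpR (φ := φ) (a := a) hg
        rw [← e] at hg'
        have hfac : ∀ n c, (∀ x ∈ up (trA φ a A), d3 n x ≤ c) → n ≠ 0 → NonCol (Face (up (trA φ a A)) n c) →
            Fac (up (trA φ a A)) n c := by
          intro n c h1 h2 h3
          refine ⟨h1, ?_, h3⟩
          by_contra hcon
          push Not at hcon
          exact hflat ⟨n, h2, c, fun x hx => le_antisymm (h1 x hx) (hcon x hx)⟩
        refine slR hBs hg'.ru ?_ ?_
        · intro h1
          rw [← face_one] at h1 ⊢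
          refine hg'.ok _ _ (hfac _ _ ?_ ?_ h1)
          · intro x hx
            have e : d3 ![0, 0, -1] x = - x 2 := by
              simp only [d3, Fin.sum_univ_three]
              simp
            rw [e]
            have := (Finset.mem_filter.1 hx).2
            omega
          · intro h2
            have := congrFun h2 2
            simp at this
        · intro n c hf h1
          rw [← face_up] at h1 ⊢
          refine hg'.ok _ _ (hfac _ _ ?_ ?_ h1)
          · intro x hx
            exact hf.le x (Finset.mem_filter.1 hx).1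
          · rintro rfl
            obtain ⟨x, hx, h2⟩ := hf.lt
            obtain ⟨y, hy, -⟩ := hf.nc
            have h3 := (Finset.mem_filter.1 hy).2
            have h4 : ∀ z : W, d3 0 z = 0 := by
              intro z
              simp [d3]
            rw [h4] at h2 h3
            omega
    obtain ⟨w, hw⟩ := hfin
    exact ⟨A, _, hPA, hA, tr_gpR' hw⟩

theorem pee {P : Set (Fin 3 → ℝ)} (h : Pee P) (hi : (interior P).Nonempty) : HasRUT P := by
  rcases pee_GP h with ⟨u, hu, c, h1⟩ | ⟨A, w, e, -, hw⟩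
  · exfalso
    obtain ⟨x, hx⟩ := hi
    have h2 := isOpen_interior (s := P)
    rw [Metric.isOpen_iff] at h2
    obtain ⟨ε, hε, hb⟩ := h2 x hx
    obtain ⟨i, hi⟩ : ∃ i, u i ≠ 0 := by
      by_contra hcon
      push Not at hcon
      exact hu (funext hcon)
    have h3 : x + (Pi.single i (ε / 2) : Fin 3 → ℝ) ∈ P := by
      apply interior_subset
      apply hb
      rw [Metric.mem_ball, dist_eq_norm, add_sub_cancel_left, Pi.norm_single, Real.norm_eq_abs, abs_of_pos (by linarith)]
      linarith
    have h4 := h1 _ h3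
    have h5 := h1 _ (interior_subset hx)
    have h6 : ∑ j, (u j : ℝ) * (x + (Pi.single i (ε / 2) : Fin 3 → ℝ)) j = ∑ j, (u j : ℝ) * x j + u i * (ε / 2) := by
      simp only [Pi.add_apply, mul_add, Finset.sum_add_distrib]
      congr 1
      rw [Finset.sum_eq_single i]
      · simp
      · intro j _ hj
        simp [Pi.single_apply, hj]
      · simp
    rw [h6, h5] at h4
    have h7 : (u i : ℝ) * (ε / 2) = 0 := by linarith
    rcases mul_eq_zero.1 h7 with h8 | h8
    · exact hi (by exact_mod_cast h8)
    · linarith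
  · rw [e] at hi ⊢
    exact hasRUT_of_RU hw.ru (covers hi w)

end Pool.Agent.SPR
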