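import Pool.Agent.SPR.Emp
import Pool.Agent.SPR.Hts

/-!
# [SPR-PolA] every lattice polygon has heights with the invariant

`exists_wid`: `u, w`. `e = (u.2, -u.1)`. If `Side2 B e u` or `Side2 B e (-u)` fails: `nar` for `u` or for `-u` (`IsWid.neg`, `Side2.neg`: `((-u).2, -(-u).1) = -e`), `lift_tri`, `poly_uni`. Otherwise `emp`, `poly_hts`, `PPi_lift`; `Rld (lift B z) (pt e 0)`: functionals `pt u 0`, and `v` by Bezout (`u` is primitive); `Side` from `Side2`; rows from `RowsOK` (`det e x = dot u x`); two different values: `w ≥ 1`.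
-/

open Finset Pool.Agent.SPB Pool.Agent.SPK

set_option autoImplicit false

namespace Pool.Agent.SPR

private theorem polA_d3 (u x : W) : d3 u x = u 0 * x 0 + u 1 * x 1 + u 2 * x 2 := by
  unfold d3
  rw [Fin.sum_univ_three]

private theorem polA_mem {B : Finset V} {z : ℤ} {x : V} : pt x z ∈ lift B z ↔ x ∈ B := by
  rw [mem_lift]
  simp

private theorem polA_d3pt (u : V) (x : W) : d3 (pt u 0) x = dot u (x 0, x 1) := by
  rw [polA_d3]
  simp [dot]

private theorem polA_negpt (u : V) : -(pt u 0) = pt (-u) 0 := by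
  funext i
  fin_cases i <;> simp

private theorem polA_add (y g : V) (z b : ℤ) : pt y z + b • pt g 0 = pt (y + b • g) z := by
  funext i
  fin_cases i <;> simp

private theorem polA_sub (y g : V) (z b : ℤ) : pt y z - b • pt g 0 = pt (y - b • g) z := by
  funext i
  fin_cases i <;> simp

private theorem polA_side {B : Finset V} {z : ℤ} {e u : V} (h : Side2 B e u) :
    Side (lift B z) (pt e 0) (pt u 0) := by
  obtain ⟨y, hy, hmax, hor⟩ := h
  refine ⟨pt y z, polA_mem.2 hy, ?_, ?_⟩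
  · intro x hx
    rw [mem_lift] at hx
    rw [polA_d3pt, polA_d3pt]
    exact hmax _ hx.2
  · rcases hor with h1 | ⟨g, a, a', b, b', hg, ha, ha', h1, h2⟩
    · left
      have := polA_add y e z 1
      rw [one_smul, one_smul] at this
      rw [this]
      exact polA_mem.2 h1
    · right
      refine ⟨pt g 0, a, a', b, b', ?_, ha, ha', ?_, ?_⟩
      · rw [polA_d3pt]
        exact hg
      · rw [polA_add, polA_add]
        exact polA_mem.2 h1
      · rw [polA_sub, polA_add]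
        exact polA_mem.2 h2

private theorem polA_rld {B : Finset V} {z : ℤ} {u : V} {w : ℤ} (hw : 1 ≤ w) (hW : IsWid B u w)
    (h1 : Side2 B (u.2, -u.1) u) (h2 : Side2 B (u.2, -u.1) (-u)) (hR : RowsOK B (u.2, -u.1)) :
    Rld (lift B z) (pt (u.2, -u.1) 0) := by
  obtain ⟨a, b, hab⟩ := hW.prim
  have hdet : ∀ x : V, det (u.2, -u.1) x = dot u x := by
    intro x
    unfold det dot
    ring
  refine ⟨pt u 0, pt (b, -a) 0, ?_, ?_, polA_side h1, ?_, ?_, ?_⟩
  · rw [polA_d3pt]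
    simp only [dot, pt_zero, pt_one]
    linarith
  · rw [polA_d3pt]
    simp only [dot, pt_zero, pt_one]
    ring
  · rw [polA_negpt]
    exact polA_side h2
  · obtain ⟨p, hp, q, hq, hpq, _⟩ := hW.at_
    refine ⟨pt q z, polA_mem.2 hq, pt p z, polA_mem.2 hp, ?_⟩
    rw [polA_d3pt, polA_d3pt]
    show dot u q < dot u p
    linarith
  · intro x hx y hy k hk1 hk2
    rw [mem_lift] at hx hy
    rw [polA_d3pt] at hk1 hk2
    obtain ⟨q, hq, hqk⟩ := hR _ hx.2 _ hy.2 k (by rw [hdet]; exact hk1) (by rw [hdet]; exact hk2)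
    refine ⟨pt q z, polA_mem.2 hq, ?_⟩
    rw [polA_d3pt]
    rw [hdet] at hqk
    exact hqk

private theorem polA_tri {B : Finset V} (hL : LatConv B) (hB : B.Nonempty) (z : ℤ)
    (h : ∃ (s e f : V) (k : ℕ), 1 ≤ k ∧ det e f = 1 ∧
      ∀ x, x ∈ B ↔ ∃ i j : ℕ, i + j ≤ k ∧ x = s + (i : ℤ) • e + (j : ℤ) • f) :
    ∃ ω : V → ℝ, (∀ a, UniV (arg B ω a)) ∧ OKr (lift B z) (fun x => ω (x 0, x 1)) := by
  obtain ⟨ω, hω⟩ := poly_uni hL hB
  obtain ⟨s, e, f, k, hk, hd, hx⟩ := h
  exact ⟨ω, hω, Or.inl ⟨pt s z, pt e 0, pt f 0, k, lift_tri z hk hd hx⟩⟩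

theorem poly_ok {B : Finset V} (hL : LatConv B) (hN : ∃ x ∈ B, ∃ y ∈ B, ∃ z ∈ B, det (y - x) (z - x) ≠ 0) (z : ℤ) :
    ∃ ω : V → ℝ, (∀ a, UniV (arg B ω a)) ∧ OKr (lift B z) (fun x => ω (x 0, x 1)) := by
  have hB : B.Nonempty := by
    obtain ⟨x, hx, _⟩ := hN
    exact ⟨x, hx⟩
  obtain ⟨u, w, hw, hW⟩ := exists_wid hN
  by_cases h1 : Side2 B (u.2, -u.1) u
  · by_cases h2 : Side2 B (u.2, -u.1) (-u)
    · have hR := emp hL hW h1 h2
      have he : Prim ((u.2, -u.1) : V) := by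
        obtain ⟨a, b, hab⟩ := hW.prim
        exact ⟨b, -a, by simp only; linarith⟩
      obtain ⟨ω, hω, hP⟩ := poly_hts hL hB he hR
      refine ⟨ω, hω, Or.inr ⟨pt (u.2, -u.1) 0, polA_rld hw hW h1 h2 hR, 0, 1, one_pos, ?_⟩⟩
      exact PPi_lift.2 hP
    · refine polA_tri hL hB z (nar hL hw hW.neg ?_)
      intro h3
      apply h2
      have h4 := h3.neg (by simp only [dot, Prod.fst_neg, Prod.snd_neg]; ring)
      have h5 : (-(((-u).2, -(-u).1) : V)) = (u.2, -u.1) := by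
        ext <;> simp
      rw [h5] at h4
      exact h4
  · exact polA_tri hL hB z (nar hL hw hW h1)

end Pool.Agent.SPR
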