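import Pool.Agent.SPR.Fs
import Pool.Agent.SPR.GamR
import Pool.Agent.SPK.Bet5

/-!
# [SPR-TriR] facets whose upper part is a triangle

`D = Face A n c`, `f = p' E + G`, `up D = {x + G + i E + j f | i + j ≤ k}`, `k = ℓ + κ ≥ 1`.
`tri_rld` (`0 ≤ p' ≤ κ`): `κ = p'`: `tri_rul` (SPK/Bet5) and `rul_rld`. `p' < κ`: from `FS.dual`: `u` with `u(E) = 1`, `u(G) = -p'` (`u(f) = 0`), `v` with `v(E) = 0`, `v(G) = 1`, `v(f) = 1`. `u` on `up D`: `u(x) - p' + i`, `0 ≤ i ≤ k`; on `x + i E`: `u(x) + i`, `0 ≤ i ≤ ℓ = k - κ`, inside the same range. `Side D f (-u)`: `y = x + G`, `y + f ∈ D`. `Side D f u`: `y = x + G + k E`, `g = -E`; `y + f + g = x + G + (k - 1) E + f ∈ D`, `y - f + (κ - p') g = x + (k - κ) E = x + ℓ E ∈ D`. Rows: `x + G + i E`, `0 ≤ i ≤ k`. Second claim: `t = 1`: `x + i E + f = x + (i + p') E + G`, `0 ≤ i + p' ≤ ℓ + κ`.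
`beta2R`: `tri_form` (SPK/Bet3): `0 ≤ p' ≤ 1 + κ`, `k = ℓ + κ`. `κ = -1`: `p' = 0`, `tri_tri` (SPK/Bet5). `κ ≥ 0`, `p' ≤ κ`: `tri_rld`, `auto_pp` for `up D` (`hU`: `ru_face` for `up A`, `up (Face A n c) = Face (up A) n c`), `pp_ext1` (SPK/Bet1). `p' = κ + 1`: the same for `FS.mirror` with `κ + 1 - p' = 0 ≤ κ` (`tri_mirror`, SPK/Bet3).
-/

open Finset Pool.Agent.SPB Pool.Agent.SPK

set_option autoImplicit false

namespace Pool.Agent.SPR

variable {A : Finset W} {n : W} {c : ℤ} {x E E' E'' G : W} {ℓ κ : ℤ}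

private theorem trr_lin (p : ℤ) (u v z : W) : d3 (u - p • v) z = d3 u z - p * d3 v z := by
  simp only [d3, Pi.sub_apply, Pi.smul_apply, smul_eq_mul, Finset.mul_sum, sub_mul,
    Finset.sum_sub_distrib]
  congr 1
  exact Finset.sum_congr rfl fun i _ => by ring

private theorem trr_negl (u z : W) : d3 (-u) z = - d3 u z := by
  simp [d3]

private theorem trr_face {A : Finset W} {n : W} {c : ℤ} {y : W} :
    y ∈ Face A n c ↔ y ∈ A ∧ d3 n y = c := by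
  unfold Face
  rw [Finset.mem_filter]

private theorem trr_up {A : Finset W} {y : W} : y ∈ up A ↔ y ∈ A ∧ 1 ≤ y 2 := by
  unfold up
  rw [Finset.mem_filter]

private theorem trr_upface (A : Finset W) (n : W) (c : ℤ) : Face (up A) n c = up (Face A n c) := by
  ext y
  rw [trr_face, trr_up, trr_up, trr_face]
  tauto

private theorem trr_hn (h : FS A n c x E E' E'' G ℓ κ) (i j : ℤ) : d3 n (x + i • E + j • G) = c := by
  rw [d3_add, d3_add, d3_smul, d3_smul, h.nx, h.nE, h.nG]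
  ring

private theorem trr_ht (h : FS A n c x E E' E'' G ℓ κ) (i j : ℤ) : (x + i • E + j • G) 2 = j := by
  simp only [Pi.add_apply, Pi.smul_apply, smul_eq_mul, h.hx, h.hE, h.hG]
  ring

private theorem trr_row1 (h : FS A n c x E E' E'' G ℓ κ) {i : ℤ} (h0 : 0 ≤ i) (h1 : i ≤ ℓ + κ) :
    x + i • E + G ∈ Face A n c := by
  have h2 := trr_hn h i 1
  rw [one_smul] at h2
  exact trr_face.2 ⟨h.row1 i h0 h1, h2⟩

private theorem trr_row0 (h : FS A n c x E E' E'' G ℓ κ) {i : ℤ} (h0 : 0 ≤ i) (h1 : i ≤ ℓ) :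
    x + i • E ∈ Face A n c := by
  refine trr_face.2 ⟨h.row0 i h0 h1, ?_⟩
  rw [d3_add, d3_smul, h.nx, h.nE]
  ring

private theorem trr_lt (h : FS A n c x E E' E'' G ℓ κ) {p' : ℤ} (h0 : 0 ≤ p') (hκ : p' < κ) {k : ℕ}
    (hk : (k : ℤ) = ℓ + κ) (hT : TriD (up (Face A n c)) (x + G) E (p' • E + G) k) :
    Rld (Face A n c) (p' • E + G) := by
  obtain ⟨u, v, huE, huG, hvE, hvG⟩ := h.dual
  have hl := h.l1
  have hk1 := hT.k1
  have hup : ∀ y ∈ up (Face A n c), ∃ i : ℤ, 0 ≤ i ∧ i ≤ k ∧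
      d3 (u - p' • v) y = d3 (u - p' • v) x - p' + i := by
    intro y hy
    obtain ⟨i', j', hij, hy'⟩ := (hT.mem y).1 hy
    refine ⟨i', Int.natCast_nonneg _, by omega, ?_⟩
    rw [hy', trr_lin, trr_lin]
    simp only [d3_add, d3_smul, huE, huG, hvE, hvG]
    ring
  have hb : ∀ y ∈ Face A n c, ∃ i : ℤ, 0 ≤ i ∧ i ≤ k ∧
      d3 (u - p' • v) y = d3 (u - p' • v) x - p' + i := by
    intro y hy
    obtain ⟨hyA, hyn⟩ := trr_face.1 hy
    obtain ⟨i, j, hi, hj, hij, hyij⟩ := h.mem y hyA hyn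
    have hy2 : y 2 = j := by rw [hyij, trr_ht h]
    rcases eq_or_lt_of_le hj with hj0 | hj0
    · subst hj0
      refine ⟨i + p', by omega, by linarith, ?_⟩
      rw [hyij, trr_lin, trr_lin]
      simp only [d3_add, d3_smul, huE, huG, hvE, hvG]
      ring
    · exact hup y (trr_up.2 ⟨hy, by omega⟩)
  have hrow : ∀ i : ℤ, d3 (u - p' • v) (x + i • E + G) = d3 (u - p' • v) x - p' + i := by
    intro i
    rw [trr_lin, trr_lin]
    simp only [d3_add, d3_smul, huE, huG, hvE, hvG]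
    ring
  have m0 : x + (0 : ℤ) • E + G ∈ Face A n c := trr_row1 h le_rfl (by omega)
  have mk : x + (k : ℤ) • E + G ∈ Face A n c := trr_row1 h (by omega) (by omega)
  refine ⟨u - p' • v, v, ?_, ?_, ?_, ?_, ?_, ?_⟩
  · rw [d3_add, d3_smul, hvE, hvG]; ring
  · rw [trr_lin, d3_add, d3_add, d3_smul, d3_smul, huE, huG, hvE, hvG]; ring
  · refine ⟨_, mk, fun y hy => ?_, Or.inr ⟨-E, 1, 1, 1, κ - p', ?_, le_rfl, le_rfl, ?_, ?_⟩⟩
    · obtain ⟨i, hi0, hik, hi⟩ := hb y hy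
      rw [hi, hrow]
      linarith
    · rw [trr_lin, d3_neg, d3_neg, huE, hvE]; ring
    · have h1 : x + G + ((k - 1 : ℕ) : ℤ) • E + ((1 : ℕ) : ℤ) • (p' • E + G) ∈ up (Face A n c) :=
        (hT.mem _).2 ⟨k - 1, 1, by omega, rfl⟩
      have e1 : x + (k : ℤ) • E + G + (1 : ℤ) • (p' • E + G) + (1 : ℤ) • (-E) =
          x + G + ((k - 1 : ℕ) : ℤ) • E + ((1 : ℕ) : ℤ) • (p' • E + G) := by
        rw [Nat.cast_sub hk1, Nat.cast_one, sub_smul, one_smul, one_smul, one_smul]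
        abel
      rw [e1]
      exact (trr_up.1 h1).1
    · have e1 : x + (k : ℤ) • E + G - (1 : ℤ) • (p' • E + G) + (κ - p') • (-E) = x + ℓ • E := by
        rw [hk, add_smul, sub_smul, one_smul, smul_neg, smul_neg]
        abel
      rw [e1]
      exact trr_row0 h (by omega) le_rfl
  · refine ⟨_, m0, fun y hy => ?_, Or.inl ?_⟩
    · obtain ⟨i, hi0, hik, hi⟩ := hb y hy
      rw [trr_negl, trr_negl, hi, hrow]
      linarith
    · have h1 : x + G + ((0 : ℕ) : ℤ) • E + ((1 : ℕ) : ℤ) • (p' • E + G) ∈ up (Face A n c) :=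
        (hT.mem _).2 ⟨0, 1, by omega, rfl⟩
      have e1 : x + (0 : ℤ) • E + G + (p' • E + G) =
          x + G + ((0 : ℕ) : ℤ) • E + ((1 : ℕ) : ℤ) • (p' • E + G) := by
        rw [Nat.cast_zero, Nat.cast_one, zero_smul, one_smul]
        abel
      rw [e1]
      exact (trr_up.1 h1).1
  · refine ⟨_, m0, _, mk, ?_⟩
    rw [hrow, hrow]
    have : (1 : ℤ) ≤ k := by exact_mod_cast hk1
    linarith
  · intro y hy z hz k₁ h1 h2
    obtain ⟨i, hi0, hik, hi⟩ := hb y hy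
    obtain ⟨j, hj0, hjk, hj⟩ := hb z hz
    rw [hi] at h1
    rw [hj] at h2
    refine ⟨_, trr_row1 h (i := k₁ - (d3 (u - p' • v) x - p')) (by linarith) (by linarith), ?_⟩
    rw [hrow]
    ring

theorem tri_rld (h : FS A n c x E E' E'' G ℓ κ) {p' : ℤ} (h0 : 0 ≤ p') (hκ : p' ≤ κ) {k : ℕ}
    (hk : (k : ℤ) = ℓ + κ) (hT : TriD (up (Face A n c)) (x + G) E (p' • E + G) k) :
    Rld (Face A n c) (p' • E + G) ∧
      ∀ y ∈ Face A n c, y 2 = 0 → ∃ t : ℤ, y + t • (p' • E + G) ∈ up (Face A n c) := by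
  refine ⟨?_, ?_⟩
  · rcases eq_or_lt_of_le hκ with h1 | h1
    · exact rul_rld (tri_rul h h1.symm h0 hk hT).1
    · exact trr_lt h h0 h1 hk hT
  · intro y hy hy0
    obtain ⟨hyA, hyn⟩ := trr_face.1 hy
    obtain ⟨i, j, hi, hj, hij, hyij⟩ := h.mem y hyA hyn
    have hy2 : y 2 = j := by rw [hyij, trr_ht h]
    have hj0 : j = 0 := by rw [← hy2, hy0]
    subst hj0
    refine ⟨1, ?_⟩
    have e1 : y + (1 : ℤ) • (p' • E + G) = x + (i + p') • E + G := by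
      rw [hyij, one_smul, zero_smul, add_smul]; abel
    rw [e1]
    refine trr_up.2 ⟨trr_row1 h (by linarith) (by linarith), ?_⟩
    have h2 := trr_ht h (i + p') 1
    rw [one_smul] at h2
    rw [h2]

private theorem trr_fin (hA : ∀ y ∈ A, 0 ≤ y 2) (hf : Fac A n c) (h : FS A n c x E E' E'' G ℓ κ) {p' : ℤ}
    (h0 : 0 ≤ p') (hκ : p' ≤ κ) {k : ℕ} (hk : (k : ℤ) = ℓ + κ)
    (hT : TriD (up (Face A n c)) (x + G) E (p' • E + G) k) {w' : W → ℝ}
    (hw : RU (up A) w') (ω : V → ℝ) :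
    ∃ N₀ : ℝ, ∀ N, N₀ ≤ N → OKr (Face A n c) (glue N ω w') := by
  obtain ⟨hR, hrow⟩ := tri_rld h h0 hκ hk hT
  have hU : ∀ L, Uni (amin (up (Face A n c)) w' L) := by
    intro L
    rw [← trr_upface]
    exact ru_face hw (fun y hy => hf.le y (trr_up.1 hy).1) L
  obtain ⟨α, β, hαβ, hP⟩ := auto_pp hT hU
  obtain ⟨N₀, hN₀⟩ := pp_ext1 (fun y hy => hA y (trr_face.1 hy).1) hrow hP ω
  exact ⟨N₀, fun N hN => Or.inr ⟨_, hR, α, β, hαβ, hN₀ N hN⟩⟩

theorem beta2R (hA : ∀ y ∈ A, 0 ≤ y 2) (hf : Fac A n c) (h : FS A n c x E E' E'' G ℓ κ) (hk : 1 ≤ ℓ + κ)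
    {w' : W → ℝ} (hw : RU (up A) w') (hT : Tri (up (Face A n c))) (ω : V → ℝ) :
    ∃ N₀ : ℝ, ∀ N, N₀ ≤ N → OKr (Face A n c) (glue N ω w') := by
  obtain ⟨p', k, h0, h1, hkk, T⟩ := tri_form h hk hT
  have T' := tri_mirror (κ := κ) (ℓ := ℓ) hkk T
  have h4 : p' ≤ κ ∨ (0 ≤ κ ∧ p' = κ + 1) ∨ (κ = -1 ∧ p' = 0) := by omega
  rcases h4 with h4 | ⟨h4, h5⟩ | ⟨h4, h5⟩
  · exact trr_fin hA hf h h0 h4 hkk T hw ω
  · exact trr_fin hA hf h.mirror (p' := κ + 1 - p') (by omega) (by omega) hkk T' hw ω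
  · subst h5
    exact ⟨0, fun N _ => Or.inl ⟨_, _, _, _, tri_tri h h4 hkk T⟩⟩

end Pool.Agent.SPR
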