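import Pool.Agent.SPR.Frc

/-!
# [SPR-Wid] lattice width of planar lattice sets

`exists_wid`: for `n ≠ 0` the width of `B` in direction `n` (maximum minus minimum of `dot n`) is `≥ 1` (`B` is not collinear). Take `n ≠ 0` with the smallest width `w`. It is primitive: if `n = m n'`, `|m| ≥ 2`, then the width of `n'` is `w / |m| < w`.
`nar`: let `e = (u.2, -u.1)` (`det e x = dot u x`), `f` with `det e f = 1` (Bezout). Let `y` be a maximum of `dot u`. For `p ∈ B` write `p - y = X e - b f`, `b = dot u y - dot u p ≥ 0`, `X = det (p - y) f`. If `b = 0` and `X ≠ 0` for some `p ∈ B`, then `y + e ∈ B` or `y - e ∈ B` (`LatConv`), so `Side2`. So `b ≥ 1` for `p ≠ y`. For `i : ℤ` let `g = i e - f` (`dot u g = -1`), `p - y = (X - i b) e + b g`. As `Side2` is false, for every `i` either `X ≤ i b` for all `p ∈ B` or `X ≥ i b` for all `p ∈ B`. For large `i` the second fails (there is `p ≠ y`), for very small `i` it holds; let `i₀` be the largest `i` with `X ≥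 i b` for all `p`. Then `i₀ b ≤ X ≤ (i₀ + 1) b` for all `p ∈ B`. Let `s = X - i₀ b`, `0 ≤ s ≤ b ≤ w`. The functionals `s` and `b - s` (of the form `dot n + const`, `n ≠ 0`) have width `≥ w`, so there are points with `s = w` (then `b = w`) and with `b - s = w` (then `s = 0`, `b = w`). With `e' = i₀ e - f`, `f' = (i₀ + 1) e - f`, `p = y + (b - s) e' + s f'`, `det e' f' = 1`. So `B` is contained in the triangle and contains its corners `y, y + w e', y + w f'`, so it is the triangle (`LatConv`).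
-/

open Finset Pool.Agent.SPB Pool.Agent.SPK

set_option autoImplicit false

namespace Pool.Agent.SPR

/-- `u` is a direction of minimal lattice width `w` -/
structure IsWid (B : Finset V) (u : V) (w : ℤ) : Prop where
  prim : Prim u
  at_ : ∃ p ∈ B, ∃ q ∈ B, dot u p - dot u q = w ∧ ∀ x ∈ B, dot u q ≤ dot u x ∧ dot u x ≤ dot u p
  min : ∀ n : V, n ≠ 0 → ∃ p ∈ B, ∃ q ∈ B, w ≤ dot n p - dot n q

private theorem wid_const {x y z n : V} (h : det (y - x) (z - x) ≠ 0) (h1 : dot n x = dot n y)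
    (h2 : dot n x = dot n z) : n = 0 := by
  unfold det at h
  unfold dot at h1 h2
  simp only [Prod.fst_sub, Prod.snd_sub] at h
  have e1 : n.1 * ((y.1 - x.1) * (z.2 - x.2) - (y.2 - x.2) * (z.1 - x.1)) = 0 := by
    linear_combination (-(z.2 - x.2)) * h1 + (y.2 - x.2) * h2
  have e2 : n.2 * ((y.1 - x.1) * (z.2 - x.2) - (y.2 - x.2) * (z.1 - x.1)) = 0 := by
    linear_combination (z.1 - x.1) * h1 + (-(y.1 - x.1)) * h2
  exact Prod.ext ((mul_eq_zero.1 e1).resolve_right h) ((mul_eq_zero.1 e2).resolve_right h)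

theorem exists_wid {B : Finset V} (hB : ∃ x ∈ B, ∃ y ∈ B, ∃ z ∈ B, det (y - x) (z - x) ≠ 0) :
    ∃ u w, 1 ≤ w ∧ IsWid B u w := by
  classical
  obtain ⟨x, hx, y, hy, z, hz, hd⟩ := hB
  have hB0 : B.Nonempty := ⟨x, hx⟩
  have hext : ∀ n : V, ∃ p ∈ B, ∃ q ∈ B, ∀ x ∈ B, dot n q ≤ dot n x ∧ dot n x ≤ dot n p := by
    intro n
    obtain ⟨p, hp, h1⟩ := Finset.exists_max_image B (fun x => dot n x) hB0
    obtain ⟨q, hq, h2⟩ := Finset.exists_min_image B (fun x => dot n x) hB0
    exact ⟨p, hp, q, hq, fun x hx => ⟨h2 x hx, h1 x hx⟩⟩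
  have hpos : ∀ n : V, n ≠ 0 → ∀ p q, (∀ x ∈ B, dot n q ≤ dot n x ∧ dot n x ≤ dot n p) →
      1 ≤ dot n p - dot n q := by
    intro n hn p q h
    by_contra hc
    have h1 := h x hx
    have h2 := h y hy
    have h3 := h z hz
    exact hn (wid_const hd (by omega) (by omega))
  let P : ℕ → Prop := fun k => ∃ n : V, n ≠ 0 ∧ ∃ p ∈ B, ∃ q ∈ B, dot n p - dot n q = (k : ℤ) ∧
    ∀ x ∈ B, dot n q ≤ dot n x ∧ dot n x ≤ dot n p
  have hP : ∀ n : V, n ≠ 0 → ∀ p ∈ B, ∀ q ∈ B, (∀ x ∈ B, dot n q ≤ dot n x ∧ dot n x ≤ dot n p) →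
      P (dot n p - dot n q).toNat := by
    intro n hn p hp q hq h
    refine ⟨n, hn, p, hp, q, hq, ?_, h⟩
    have := hpos n hn p q h
    omega
  have h10 : ((1, 0) : V) ≠ 0 := by
    intro h
    have := congrArg Prod.fst h
    simp at this
  have hex : ∃ k, P k := by
    obtain ⟨p, hp, q, hq, h⟩ := hext (1, 0)
    exact ⟨_, hP (1, 0) h10 p hp q hq h⟩
  obtain ⟨n, hn, p, hp, q, hq, hpq, h⟩ := Nat.find_spec hex
  have hmin : ∀ n : V, n ≠ 0 → ∀ p ∈ B, ∀ q ∈ B, (∀ x ∈ B, dot n q ≤ dot n x ∧ dot n x ≤ dot n p) →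
      (Nat.find hex : ℤ) ≤ dot n p - dot n q := by
    intro n hn p hp q hq h
    have h1 := Nat.find_min' hex (hP n hn p hp q hq h)
    have h2 := hpos n hn p q h
    omega
  have hw := hpos n hn p q h
  refine ⟨n, Nat.find hex, by omega, ?_, ⟨p, hp, q, hq, hpq, h⟩, ?_⟩
  · show IsCoprime n.1 n.2
    rw [Int.isCoprime_iff_gcd_eq_one]
    by_contra hg
    obtain ⟨a, ha⟩ : (Int.gcd n.1 n.2 : ℤ) ∣ n.1 := Int.gcd_dvd_left ..
    obtain ⟨b, hb⟩ : (Int.gcd n.1 n.2 : ℤ) ∣ n.2 := Int.gcd_dvd_right ..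
    obtain ⟨g, hgg⟩ : ∃ g : ℤ, g = (Int.gcd n.1 n.2 : ℤ) := ⟨_, rfl⟩
    rw [← hgg] at ha hb
    have hg0 : g ≠ 0 := by
      intro h0
      rw [h0, zero_mul] at ha hb
      exact hn (Prod.ext ha hb)
    have hg2 : 2 ≤ g := by omega
    have hdot : ∀ x : V, dot n x = g * dot ((a, b) : V) x := by
      intro x
      unfold dot
      rw [ha, hb]
      ring
    have hn' : ((a, b) : V) ≠ 0 := by
      intro h0
      have h1 : a = 0 := congrArg Prod.fst h0
      have h2 : b = 0 := congrArg Prod.snd h0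
      rw [h1, mul_zero] at ha
      rw [h2, mul_zero] at hb
      exact hn (Prod.ext ha hb)
    have hg1 : 0 < g := by omega
    have h' : ∀ x ∈ B, dot ((a, b) : V) q ≤ dot ((a, b) : V) x ∧ dot ((a, b) : V) x ≤ dot ((a, b) : V) p := by
      intro x hx
      have h1 := h x hx
      rw [hdot, hdot, hdot] at h1
      exact ⟨le_of_mul_le_mul_left h1.1 hg1, le_of_mul_le_mul_left h1.2 hg1⟩
    have h1 := hmin _ hn' p hp q hq h'
    have h2 := hpos _ hn' p q h'
    rw [hdot, hdot] at hpq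
    nlinarith
  · intro n' hn'
    obtain ⟨p', hp', q', hq', h'⟩ := hext n'
    exact ⟨p', hp', q', hq', hmin n' hn' p' hp' q' hq' h'⟩

theorem IsWid.neg {B : Finset V} {u : V} {w : ℤ} (h : IsWid B u w) : IsWid B (-u) w := by
  have hd : ∀ x : V, dot (-u) x = -dot u x := fun x => by
    unfold dot
    simp only [Prod.fst_neg, Prod.snd_neg]
    ring
  refine ⟨?_, ?_, h.min⟩
  · have h1 : IsCoprime u.1 u.2 := h.prim
    show IsCoprime (-u).1 (-u).2
    rw [Prod.fst_neg, Prod.snd_neg]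
    exact h1.neg_neg
  · obtain ⟨p, hp, q, hq, hpq, hall⟩ := h.at_
    refine ⟨q, hq, p, hp, ?_, fun x hx => ?_⟩
    · rw [hd, hd]
      linarith
    · rw [hd, hd, hd]
      have := hall x hx
      constructor <;> linarith

theorem Side2.neg {B : Finset V} {e u : V} (hu : dot u e = 0) (h : Side2 B e u) : Side2 B (-e) u := by
  obtain ⟨y, hy, hmax, h1 | ⟨g, a, a', b, b', hg, ha, ha', hm, hm'⟩⟩ := h
  · have h2 : dot u (y + e) = dot u y := by
      unfold dot at hu ⊢
      simp only [Prod.fst_add, Prod.snd_add]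
      linear_combination hu
    refine ⟨y + e, h1, fun x hx => by rw [h2]; exact hmax x hx, Or.inl ?_⟩
    rwa [add_neg_cancel_right]
  · refine ⟨y, hy, hmax, Or.inr ⟨g, a', a, b', b, hg, ha', ha, ?_, ?_⟩⟩
    · rw [smul_neg, ← sub_eq_add_neg]
      exact hm'
    · rw [smul_neg, sub_neg_eq_add]
      exact hm

private theorem wid_seg {B : Finset V} (hL : LatConv B) {p e : V} {k : ℤ} (hk : 1 ≤ k) (hp : p ∈ B)
    (hq : p + k • e ∈ B) : p + e ∈ B := by
  apply hL
  have hk1 : (1 : ℝ) ≤ k := by exact_mod_cast hk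
  have hk0 : (0 : ℝ) < k := by linarith
  have h1 := (convex_convexHull ℝ (toR '' (B : Set V))) (subset_convexHull ℝ _ ⟨p, hp, rfl⟩)
    (subset_convexHull ℝ _ ⟨_, hq, rfl⟩) (a := 1 - 1 / (k : ℝ)) (b := 1 / (k : ℝ))
    (by rw [sub_nonneg, div_le_one hk0]; exact hk1) (by positivity) (by ring)
  have h2 : (1 - 1 / (k : ℝ)) • toR p + (1 / (k : ℝ)) • toR (p + k • e) = toR (p + e) := by
    unfold toR
    ext
    · simp only [Prod.fst_add, Prod.smul_fst, smul_eq_mul]
      push_cast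
      field_simp
      ring
    · simp only [Prod.snd_add, Prod.smul_snd, smul_eq_mul]
      push_cast
      field_simp
      ring
  rwa [h2] at h1

private theorem wid_tri {C : Set (ℝ × ℝ)} (hC : Convex ℝ C) {p q r : ℝ × ℝ} (hp : p ∈ C) (hq : q ∈ C)
    (hr : r ∈ C) {α β γ : ℝ} (hα : 0 ≤ α) (hβ : 0 ≤ β) (hγ : 0 ≤ γ) (h : α + β + γ = 1) :
    α • p + β • q + γ • r ∈ C := by
  have h1 := hC.sum_mem (t := Finset.univ) (w := ![α, β, γ]) (z := ![p, q, r])
    (by
      intro i _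
      fin_cases i
      · exact hα
      · exact hβ
      · exact hγ)
    (by
      rw [Fin.sum_univ_three]
      exact h)
    (by
      intro i _
      fin_cases i
      · exact hp
      · exact hq
      · exact hr)
  rw [Fin.sum_univ_three] at h1
  exact h1

theorem nar {B : Finset V} (hL : LatConv B) {u : V} {w : ℤ} (hw : 1 ≤ w) (h : IsWid B u w)
    (hS : ¬ Side2 B (u.2, -u.1) u) : ∃ (s e f : V) (k : ℕ), 1 ≤ k ∧ det e f = 1 ∧
      ∀ x, x ∈ B ↔ ∃ i j : ℕ, i + j ≤ k ∧ x = s + (i : ℤ) • e + (j : ℤ) • f := by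
  classical
  obtain ⟨e, he⟩ : ∃ e : V, e = (u.2, -u.1) := ⟨_, rfl⟩
  rw [← he] at hS
  have he1 : e.1 = u.2 := by rw [he]
  have he2 : e.2 = -u.1 := by rw [he]
  obtain ⟨f₁, f₂, hf⟩ := h.prim
  obtain ⟨f, hff⟩ : ∃ f : V, f = (f₁, f₂) := ⟨_, rfl⟩
  have hf1 : f.1 = f₁ := by rw [hff]
  have hf2 : f.2 = f₂ := by rw [hff]
  rw [← hf1, ← hf2] at hf
  obtain ⟨y, hy, q₀, hq₀, hyq, hall⟩ := h.at_
  obtain ⟨b, hb⟩ : ∃ b : V → ℤ, ∀ p, b p = dot u y - dot u p := ⟨_, fun _ => rfl⟩
  obtain ⟨X, hX⟩ : ∃ X : V → ℤ, ∀ p, X p = det (p - y) f := ⟨_, fun _ => rfl⟩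
  have hdec : ∀ (p : V) (i : ℤ), y + (X p - i * b p) • e + b p • (i • e - f) = p := by
    intro p i
    rw [hX, hb]
    unfold det dot
    ext
    · simp only [Prod.fst_add, Prod.fst_sub, Prod.snd_sub, Prod.smul_fst, smul_eq_mul, he1]
      linear_combination (p.1 - y.1) * hf
    · simp only [Prod.snd_add, Prod.snd_sub, Prod.fst_sub, Prod.smul_snd, smul_eq_mul, he2]
      linear_combination (p.2 - y.2) * hf
  have hb0 : ∀ p ∈ B, 0 ≤ b p := fun p hp => by
    rw [hb]
    have := (hall p hp).2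
    linarith
  have hbw : ∀ p ∈ B, b p ≤ w := fun p hp => by
    rw [hb]
    have := (hall p hp).1
    linarith
  have hq₀w : b q₀ = w := by rw [hb]; exact hyq
  have hmax : ∀ x ∈ B, dot u x ≤ dot u y := fun x hx => (hall x hx).2
  have hue : ∀ i : ℤ, dot u (i • e - f) = -1 := by
    intro i
    unfold dot
    simp only [Prod.fst_sub, Prod.snd_sub, Prod.smul_fst, Prod.smul_snd, smul_eq_mul, he1, he2]
    linear_combination -hf
  -- dichotomy
  have hdich : ∀ i : ℤ, (∀ p ∈ B, X p ≤ i * b p) ∨ (∀ p ∈ B, i * b p ≤ X p) := by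
    intro i
    by_contra hc
    rw [not_or] at hc
    obtain ⟨hc1, hc2⟩ := hc
    push Not at hc1 hc2
    obtain ⟨p, hp, h1⟩ := hc1
    obtain ⟨q, hq, h2⟩ := hc2
    refine hS ⟨y, hy, hmax, Or.inr ⟨i • e - f, X p - i * b p, i * b q - X q, b p, b q, hue i, by omega,
      by omega, ?_, ?_⟩⟩
    · rw [hdec]
      exact hp
    · have h3 : y - (i * b q - X q) • e + b q • (i • e - f) = q := by
        rw [sub_eq_add_neg, ← neg_smul, neg_sub]
        exact hdec q i
      rw [h3]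
      exact hq
  -- the maximum is unique
  have huniq : ∀ p ∈ B, p ≠ y → 1 ≤ b p := by
    intro p hp hpy
    by_contra hc
    have h0 : b p = 0 := by
      have := hb0 p hp
      omega
    have h1 := hdec p 0
    rw [h0, zero_smul, add_zero, mul_zero, sub_zero] at h1
    rcases lt_trichotomy (X p) 0 with h2 | h2 | h2
    · refine hS ⟨p, hp, fun x hx => ?_, Or.inl (wid_seg hL (k := -X p) (by omega) hp ?_)⟩
      · have h3 : dot u p = dot u y := by
          have := hb p
          omega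
        rw [h3]
        exact hmax x hx
      · have h3 : p + (-X p) • e = y := by
          conv_lhs => rw [← h1]
          rw [neg_smul, h1]
          nth_rewrite 1 [← h1]
          rw [add_neg_cancel_right]
        rw [h3]
        exact hy
    · rw [h2, zero_smul, add_zero] at h1
      exact hpy h1.symm
    · refine hS ⟨y, hy, hmax, Or.inl (wid_seg hL (k := X p) (by omega) hy ?_)⟩
      rw [h1]
      exact hp
  -- the cone
  obtain ⟨i₀, h1, hi₀⟩ := Int.exists_greatest_of_bdd (P := fun i => ∀ p ∈ B, i * b p ≤ X p)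
    ⟨|X q₀|, fun z hz => by
      have h2 := hz q₀ hq₀
      rw [hq₀w] at h2
      by_contra hc
      have h3 := abs_nonneg (X q₀)
      have h4 := le_abs_self (X q₀)
      nlinarith⟩
    ⟨-∑ p ∈ B, |X p|, fun p hp => by
      rcases eq_or_ne p y with hpy | hpy
      · have h2 : b p = 0 := by rw [hb, hpy, sub_self]
        have h3 : X p = 0 := by
          rw [hX, hpy, sub_self]
          unfold det
          simp
        rw [h2, h3, mul_zero]
      · have h2 := huniq p hp hpy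
        have h3 : |X p| ≤ ∑ p ∈ B, |X p| :=
          Finset.single_le_sum (f := fun p => |X p|) (fun _ _ => abs_nonneg _) hp
        have h4 := abs_nonneg (X p)
        have h5 := neg_abs_le (X p)
        nlinarith⟩
  have h2 : ∀ p ∈ B, X p ≤ (i₀ + 1) * b p := by
    rcases hdich (i₀ + 1) with h3 | h3
    · exact h3
    · have := hi₀ (i₀ + 1) h3
      omega
  obtain ⟨s, hs⟩ : ∃ s : V → ℤ, ∀ p, s p = X p - i₀ * b p := ⟨_, fun _ => rfl⟩
  have hs0 : ∀ p ∈ B, 0 ≤ s p := fun p hp => by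
    rw [hs]
    have := h1 p hp
    linarith
  have hsb : ∀ p ∈ B, s p ≤ b p := fun p hp => by
    rw [hs]
    have := h2 p hp
    linarith
  -- the functional s
  obtain ⟨n, hn1, hn2⟩ : ∃ n : V, n.1 = f.2 + i₀ * u.1 ∧ n.2 = -f.1 + i₀ * u.2 := ⟨(_, _), rfl, rfl⟩
  have hns : ∀ p, dot n p = s p + dot n y := by
    intro p
    rw [hs, hX, hb]
    unfold det dot
    rw [hn1, hn2]
    simp only [Prod.fst_sub, Prod.snd_sub]
    ring
  have hne : dot n e = 1 := by
    unfold dot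
    rw [hn1, hn2, he1, he2]
    linear_combination hf
  have hn0 : n ≠ 0 := by
    intro h0
    rw [h0] at hne
    simp [dot] at hne
  obtain ⟨p₁, hp₁, q₁, hq₁, hw₁⟩ := h.min n hn0
  rw [hns p₁, hns q₁] at hw₁
  have hp₁s : s p₁ = w ∧ b p₁ = w := by
    have k1 := hs0 q₁ hq₁
    have k2 := hsb p₁ hp₁
    have k3 := hbw p₁ hp₁
    constructor <;> omega
  obtain ⟨m, hm1, hm2⟩ : ∃ m : V, m.1 = -u.1 - n.1 ∧ m.2 = -u.2 - n.2 := ⟨(_, _), rfl, rfl⟩
  have hms : ∀ p, dot m p = (b p - s p) + dot m y := by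
    intro p
    have k1 := hns p
    rw [hb]
    unfold dot at k1 ⊢
    rw [hm1, hm2]
    linear_combination -k1
  have hme : dot m e = -1 := by
    unfold dot at hne ⊢
    rw [hm1, hm2]
    rw [he1, he2] at hne ⊢
    linear_combination -hne
  have hm0 : m ≠ 0 := by
    intro h0
    rw [h0] at hme
    simp [dot] at hme
  obtain ⟨p₂, hp₂, q₂, hq₂, hw₂⟩ := h.min m hm0
  rw [hms p₂, hms q₂] at hw₂
  have hp₂s : s p₂ = 0 ∧ b p₂ = w := by
    have k1 := hsb q₂ hq₂
    have k2 := hs0 p₂ hp₂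
    have k3 := hbw p₂ hp₂
    constructor <;> omega
  have hrep : ∀ p, y + (b p - s p) • (i₀ • e - f) + s p • ((i₀ + 1) • e - f) = p := by
    intro p
    have k1 := hdec p i₀
    rw [← hs] at k1
    conv_rhs => rw [← k1]
    module
  refine ⟨y, i₀ • e - f, (i₀ + 1) • e - f, w.toNat, by omega, ?_, fun x => ⟨fun hx => ?_, ?_⟩⟩
  · unfold det
    simp only [Prod.fst_sub, Prod.snd_sub, Prod.smul_fst, Prod.smul_snd, smul_eq_mul, he1, he2]
    linear_combination hf
  · have k1 := hs0 x hx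
    have k2 := hsb x hx
    have k3 := hbw x hx
    refine ⟨(b x - s x).toNat, (s x).toNat, by omega, ?_⟩
    rw [Int.toNat_of_nonneg k1, Int.toNat_of_nonneg (by omega)]
    exact (hrep x).symm
  · rintro ⟨i, j, hij, rfl⟩
    apply hL
    have hw0 : (0 : ℝ) < w := by exact_mod_cast (by omega : 0 < w)
    have hijw : (i : ℝ) + j ≤ w := by
      have k1 : (i : ℤ) + j ≤ w := by omega
      exact_mod_cast k1
    have k1 := wid_tri (convex_convexHull ℝ (toR '' (B : Set V))) (subset_convexHull ℝ _ ⟨y, hy, rfl⟩)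
      (subset_convexHull ℝ _ ⟨p₂, hp₂, rfl⟩) (subset_convexHull ℝ _ ⟨p₁, hp₁, rfl⟩)
      (α := 1 - ((i : ℝ) + j) / w) (β := (i : ℝ) / w) (γ := (j : ℝ) / w)
      (by rw [sub_nonneg, div_le_one hw0]; exact hijw) (by positivity) (by positivity) (by ring)
    have c1 := hrep p₁
    have c2 := hrep p₂
    rw [hp₁s.1, hp₁s.2, sub_self, zero_smul, add_zero] at c1
    rw [hp₂s.1, hp₂s.2, sub_zero, zero_smul, add_zero] at c2
    rw [← c1, ← c2] at k1
    convert k1 using 1
    unfold toR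
    ext
    · simp only [Prod.fst_add, Prod.smul_fst, smul_eq_mul]
      push_cast
      field_simp
      ring
    · simp only [Prod.snd_add, Prod.smul_snd, smul_eq_mul]
      push_cast
      field_simp
      ring

end Pool.Agent.SPR
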